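import Pool.Agent.Helper85.BD.Defs

/-!
# MP_8ad3e9_gt, project BD: support functions, and the support function of a section by duality
-/

set_option autoImplicit false

open MeasureTheory Set
open scoped MeasureTheory Real

namespace Pool.Agent.Helper85.BD

private theorem cont_inner (v : E3) : Continuous (fun x : E3 => (inner ℝ v x : ℝ)) := by
  fun_prop

theorem le_supp {K : Set E3} (hK : IsCompact K) {x : E3} (hx : x ∈ K) (v : E3) :
    (inner ℝ v x : ℝ) ≤ supp K v :=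
  le_csSup (hK.image (cont_inner v)).bddAbove (mem_image_of_mem _ hx)

theorem exists_supp {K : Set E3} (hK : IsCompact K) (hne : K.Nonempty) (v : E3) :
    ∃ x ∈ K, (inner ℝ v x : ℝ) = supp K v :=
  (hK.image (cont_inner v)).sSup_mem (hne.image _)

theorem supp_smul {K : Set E3} (hK : IsCompact K) (hne : K.Nonempty) {c : ℝ} (hc : 0 ≤ c)
    (v : E3) : supp K (c • v) = c * supp K v := by
  obtain ⟨x, hx, hx'⟩ := exists_supp hK hne v
  obtain ⟨y, hy, hy'⟩ := exists_supp hK hne (c • v)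
  apply le_antisymm
  · rw [← hy', real_inner_smul_left]
    exact mul_le_mul_of_nonneg_left (le_supp hK hy v) hc
  · rw [← hx', ← real_inner_smul_left]
    exact le_supp hK hx (c • v)

/-- Duality: the support function of the section `⟪e, ·⟫ = t` at `v` is the infimum over `l` of
`supp K (v + l e) - l t`. Proof of this inequality: let `s` be the maximum of `⟪v, ·⟫` on the
section and suppose `s < σ`. Separate the point `(σ, t)` from the compact convex set
`{(⟪v, x⟫, ⟪e, x⟫) : x ∈ K}` of the plane. -/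
theorem exists_section {K : Set E3} (hK : IsCompact K) (hc : Convex ℝ K) {e v : E3} {t σ : ℝ}
    (hne : ∃ x ∈ K, (inner ℝ e x : ℝ) = t) (h : ∀ l : ℝ, σ ≤ supp K (v + l • e) - l * t) :
    ∃ y ∈ K, (inner ℝ e y : ℝ) = t ∧ σ ≤ (inner ℝ v y : ℝ) := by
  by_contra hno
  push Not at hno
  let Φ : E3 →L[ℝ] ℝ × ℝ := (innerSL ℝ v).prod (innerSL ℝ e)
  have hΦ : ∀ x : E3, Φ x = ((inner ℝ v x : ℝ), (inner ℝ e x : ℝ)) := fun x => rfl
  have hA : IsCompact (Φ '' K) := hK.image Φ.continuous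
  have hAc : Convex ℝ (Φ '' K) := hc.linear_image Φ.toLinearMap
  have hmem : ((σ, t) : ℝ × ℝ) ∉ Φ '' K := by
    rintro ⟨y, hy, hy'⟩
    rw [hΦ, Prod.mk.injEq] at hy'
    exact lt_irrefl _ (hy'.1 ▸ hno y hy hy'.2)
  obtain ⟨f, u, hf1, hf2⟩ := geometric_hahn_banach_closed_point hAc hA.isClosed hmem
  have hf : ∀ s r : ℝ, f (s, r) = s * f (1, 0) + r * f (0, 1) := by
    intro s r
    have : ((s, r) : ℝ × ℝ) = s • (1, 0) + r • (0, 1) := by simp
    rw [this, map_add, map_smul, map_smul, smul_eq_mul, smul_eq_mul]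
  generalize f (1, 0) = α at hf
  generalize f (0, 1) = β at hf
  obtain ⟨x0, hx0, hx0'⟩ := hne
  have h0 := hf1 _ (mem_image_of_mem Φ hx0)
  rw [hΦ, hf, hx0'] at h0
  rw [hf] at hf2
  have h0' := hno x0 hx0 hx0'
  have hα : 0 < α := by
    by_contra hα
    push Not at hα
    nlinarith
  obtain ⟨y, hy, hy'⟩ := exists_supp hK ⟨x0, hx0⟩ (v + (β / α) • e)
  have h1 := h (β / α)
  rw [← hy', inner_add_left, real_inner_smul_left] at h1
  have h2 := hf1 _ (mem_image_of_mem Φ hy)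
  rw [hΦ, hf] at h2
  have h3 : (inner ℝ v y : ℝ) * α + (inner ℝ e y : ℝ) * β < σ * α + t * β := by linarith
  have h4 : α * (β / α) = β := by field_simp
  have h5 : σ * α ≤ ((inner ℝ v y : ℝ) + β / α * (inner ℝ e y : ℝ) - β / α * t) * α :=
    mul_le_mul_of_nonneg_right h1 hα.le
  have h6 : ((inner ℝ v y : ℝ) + β / α * (inner ℝ e y : ℝ) - β / α * t) * α =
      (inner ℝ v y : ℝ) * α + (inner ℝ e y : ℝ) * (α * (β / α)) - t * (α * (β / α)) := by ring
  rw [h6, h4] at h5
  linarith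

/-- The sections through the middle are not empty. -/
theorem exists_mem_section {K : Set E3} (hK : IsCompact K) (hc : Convex ℝ K) (hne : K.Nonempty)
    {e : E3} {t κ : ℝ} (h1 : 1 - κ ≤ supp K e) (h2 : 1 - κ ≤ supp K (-e)) (ht : |t| ≤ 1 - κ) :
    ∃ x ∈ K, (inner ℝ e x : ℝ) = t := by
  obtain ⟨x, hx, hx'⟩ := exists_supp hK hne e
  obtain ⟨y, hy, hy'⟩ := exists_supp hK hne (-e)
  rw [inner_neg_left] at hy'
  obtain ⟨ht1, ht2⟩ := abs_le.1 ht
  have h3 := (hc.isPreconnected.image _ (cont_inner e).continuousOn).Icc_subset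
    (mem_image_of_mem _ hy) (mem_image_of_mem _ hx)
  have h4 : t ∈ Icc (inner ℝ e y : ℝ) (inner ℝ e x : ℝ) := ⟨by linarith, by linarith⟩
  obtain ⟨z, hz, hz'⟩ := h3 h4
  exact ⟨z, hz, hz'⟩

end Pool.Agent.Helper85.BD
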