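import Pool.Agent.Helper85.BD.Defs

/-!
# MP_8ad3e9_gt, project BD: a real form vanishing on the null cone is divisible by `x² + y² + z²`

Divide `q` by the monic polynomial `X² + C (y² + z²)` in `Polynomial (MvPolynomial (Fin 2) ℝ)`
(`MvPolynomial.finSuccEquiv ℝ 2`): the remainder is `A(y, z) + X B(y, z)`. For real `(y, z) ≠ 0` put
`r = sqrt (y² + z²)`: the vector `(i r, y, z)` is `r (a - i b)` with `a = (0, y, z) / r`,
`b = (-1, 0, 0)` orthonormal (complete to an orthonormal basis). By homogeneity `q` vanishes there,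
and `x² + y² + z²` too, so `A(y, z) + i r B(y, z) = 0`, hence `A` and `B` vanish for all real
`(y, z) ≠ 0`, so `A = B = 0`.
-/

set_option autoImplicit false

open MeasureTheory Set
open scoped MeasureTheory Real

namespace Pool.Agent.Helper85.BD

/-- The orthonormal basis `(0, y, z) / r`, `(-1, 0, 0)`, `(0, -z, y) / r`. -/
private theorem exists_basis_null {y z r : ℝ} (hr : 0 < r) (hyz : y ^ 2 + z ^ 2 = r ^ 2) :
    ∃ b : OrthonormalBasis (Fin 3) ℝ E3, b 0 = !₂[0, y / r, z / r] ∧ b 1 = !₂[-1, 0, 0] := by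
  set v : Fin 3 → E3 := ![!₂[0, y / r, z / r], !₂[-1, 0, 0], !₂[0, -(z / r), y / r]] with hv
  have hr2 : y / r * (y / r) + z / r * (z / r) = 1 := by
    field_simp
    linarith
  have hon : Orthonormal ℝ v := by
    rw [orthonormal_iff_ite]
    intro i j
    rw [PiLp.inner_apply, Fin.sum_univ_three]
    simp only [RCLike.inner_apply, conj_trivial]
    fin_cases i <;> fin_cases j <;> simp [hv] <;> linarith
  have hcard : Fintype.card (Fin 3) = Module.finrank ℝ E3 := by simp
  let B := basisOfOrthonormalOfCardEqFinrank hon hcard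
  have hB : ⇑B = v := coe_basisOfOrthonormalOfCardEqFinrank hon hcard
  refine ⟨B.toOrthonormalBasis (by rw [hB]; exact hon), ?_, ?_⟩
  · rw [Module.Basis.coe_toOrthonormalBasis, hB]
    rfl
  · rw [Module.Basis.coe_toOrthonormalBasis, hB]
    rfl

/-- Evaluation of a homogeneous polynomial at a multiple of a point. -/
private theorem aeval_smul_hom {N : ℕ} {q : MvPolynomial (Fin 3) ℝ} (hq : q.IsHomogeneous N)
    (c : ℂ) (v : Fin 3 → ℂ) :
    MvPolynomial.aeval (fun i => c * v i) q = c ^ N * MvPolynomial.aeval v q := by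
  rw [MvPolynomial.aeval_def, MvPolynomial.aeval_def, MvPolynomial.eval₂_eq,
    MvPolynomial.eval₂_eq, Finset.mul_sum]
  refine Finset.sum_congr rfl fun d hd => ?_
  have hdeg : ∑ i ∈ d.support, d i = N := by
    have h1 := hq (MvPolynomial.mem_support_iff.mp hd)
    rw [← h1, Finsupp.weight_apply, Finsupp.sum]
    simp
  have h2 : ∏ i ∈ d.support, (c * v i) ^ d i = c ^ N * ∏ i ∈ d.support, v i ^ d i := by
    rw [← hdeg, ← Finset.prod_pow_eq_pow_sum, ← Finset.prod_mul_distrib]
    exact Finset.prod_congr rfl fun i _ => mul_pow _ _ _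
  rw [h2]
  ring

private theorem eq_zero_of_vanish {a : MvPolynomial (Fin 2) ℝ}
    (h : ∀ s : Fin 2 → ℝ, s 0 ^ 2 + s 1 ^ 2 ≠ 0 → MvPolynomial.eval s a = 0) : a = 0 := by
  have h1 : a * (MvPolynomial.X 0 ^ 2 + MvPolynomial.X 1 ^ 2) = 0 := by
    apply MvPolynomial.funext
    intro s
    simp only [map_mul, map_add, map_pow, MvPolynomial.eval_X, map_zero]
    by_cases hs : s 0 ^ 2 + s 1 ^ 2 = 0
    · rw [hs, mul_zero]
    · rw [h s hs, zero_mul]
  rcases mul_eq_zero.mp h1 with h2 | h2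
  · exact h2
  · exfalso
    have h3 := congrArg (MvPolynomial.eval (fun _ : Fin 2 => (1 : ℝ))) h2
    simp only [map_add, map_pow, MvPolynomial.eval_X, map_zero] at h3
    norm_num at h3

theorem dvd_of_null {N : ℕ} {q : MvPolynomial (Fin 3) ℝ} (hq : q.IsHomogeneous N)
    (h : ∀ b : OrthonormalBasis (Fin 3) ℝ E3,
      MvPolynomial.aeval (fun i : Fin 3 => ((b 0 i : ℝ) : ℂ) - Complex.I * ((b 1 i : ℝ) : ℂ)) q = 0) :
    (MvPolynomial.X 0 ^ 2 + MvPolynomial.X 1 ^ 2 + MvPolynomial.X 2 ^ 2 :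
      MvPolynomial (Fin 3) ℝ) ∣ q := by
  classical
  set e := MvPolynomial.finSuccEquiv ℝ 2 with he
  set P : Polynomial (MvPolynomial (Fin 2) ℝ) :=
    Polynomial.X ^ 2 + Polynomial.C (MvPolynomial.X 0 ^ 2 + MvPolynomial.X 1 ^ 2) with hP
  have heP : e (MvPolynomial.X 0 ^ 2 + MvPolynomial.X 1 ^ 2 + MvPolynomial.X 2 ^ 2) = P := by
    have e0 : e (MvPolynomial.X 0) = Polynomial.X := MvPolynomial.finSuccEquiv_X_zero
    have e1 : e (MvPolynomial.X 1) = Polynomial.C (MvPolynomial.X 0) :=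
      MvPolynomial.finSuccEquiv_X_succ (j := (0 : Fin 2))
    have e2 : e (MvPolynomial.X 2) = Polynomial.C (MvPolynomial.X 1) :=
      MvPolynomial.finSuccEquiv_X_succ (j := (1 : Fin 2))
    rw [map_add, map_add, map_pow, map_pow, map_pow, e0, e1, e2, hP, map_add, map_pow, map_pow]
    ring
  have hmon : P.Monic := Polynomial.monic_X_pow_add_C _ (by norm_num)
  have hdegP : P.degree = 2 := Polynomial.degree_X_pow_add_C (by norm_num) _
  set Q := e q with hQ
  set R := Q %ₘ P with hR
  have hRdeg : R.degree ≤ 1 := by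
    have h1 : R.degree < P.degree := Polynomial.degree_modByMonic_lt Q hmon
    rw [hdegP] at h1
    exact Order.lt_succ_iff.mp h1
  have hReq : R = Polynomial.C (R.coeff 1) * Polynomial.X + Polynomial.C (R.coeff 0) :=
    Polynomial.eq_X_add_C_of_degree_le_one hRdeg
  -- the two coefficients vanish
  have hkey : ∀ s : Fin 2 → ℝ, s 0 ^ 2 + s 1 ^ 2 ≠ 0 →
      MvPolynomial.eval s (R.coeff 1) = 0 ∧ MvPolynomial.eval s (R.coeff 0) = 0 := by
    intro s hs
    set r := Real.sqrt (s 0 ^ 2 + s 1 ^ 2) with hrdef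
    have hpos : 0 < s 0 ^ 2 + s 1 ^ 2 := lt_of_le_of_ne (by positivity) (Ne.symm hs)
    have hr : 0 < r := Real.sqrt_pos.mpr hpos
    have hr2 : s 0 ^ 2 + s 1 ^ 2 = r ^ 2 := (Real.sq_sqrt hpos.le).symm
    obtain ⟨b, hb0, hb1⟩ := exists_basis_null hr hr2
    let ψ : Polynomial (MvPolynomial (Fin 2) ℝ) →+* ℂ :=
      Polynomial.eval₂RingHom
        ((MvPolynomial.aeval (fun j : Fin 2 => ((s j : ℝ) : ℂ)) :
          MvPolynomial (Fin 2) ℝ →ₐ[ℝ] ℂ) : MvPolynomial (Fin 2) ℝ →+* ℂ) (Complex.I * (r : ℂ))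
    have hψC : ∀ a : MvPolynomial (Fin 2) ℝ,
        ψ (Polynomial.C a) = ((MvPolynomial.eval s a : ℝ) : ℂ) := by
      intro a
      have h1 : ψ (Polynomial.C a) = MvPolynomial.aeval (fun j : Fin 2 => ((s j : ℝ) : ℂ)) a := by
        simp [ψ]
      rw [h1]
      have h2 := MvPolynomial.aeval_algebraMap_apply (A := ℝ) ℂ s a
      rw [MvPolynomial.aeval_eq_eval] at h2
      exact h2
    have hψX : ψ Polynomial.X = Complex.I * (r : ℂ) := by simp [ψ]
    -- evaluation of `q`
    have hcomp : ∀ p : MvPolynomial (Fin 3) ℝ,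
        ψ (e p) = MvPolynomial.aeval (![Complex.I * (r : ℂ), (s 0 : ℂ), (s 1 : ℂ)]) p := by
      intro p
      induction p using MvPolynomial.induction_on with
      | C a =>
        have h1 : e (MvPolynomial.C a) = Polynomial.C (MvPolynomial.C a) := by
          rw [he, MvPolynomial.finSuccEquiv_apply, MvPolynomial.eval₂Hom_C]
          rfl
        rw [h1, hψC]
        simp
      | add p1 p2 h1 h2 => rw [map_add, map_add, map_add, h1, h2]
      | mul_X p i h1 =>
        rw [map_mul, map_mul, map_mul, h1, MvPolynomial.aeval_X]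
        congr 1
        fin_cases i
        · have e0 : e (MvPolynomial.X 0) = Polynomial.X := MvPolynomial.finSuccEquiv_X_zero
          simp [e0, hψX]
        · have e1 : e (MvPolynomial.X 1) = Polynomial.C (MvPolynomial.X 0) :=
            MvPolynomial.finSuccEquiv_X_succ (j := (0 : Fin 2))
          simp [e1, hψC]
        · have e2 : e (MvPolynomial.X 2) = Polynomial.C (MvPolynomial.X 1) :=
            MvPolynomial.finSuccEquiv_X_succ (j := (1 : Fin 2))
          simp [e2, hψC]
    have hvec : (![Complex.I * (r : ℂ), (s 0 : ℂ), (s 1 : ℂ)] : Fin 3 → ℂ) =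
        fun i => (r : ℂ) * (((b 0 i : ℝ) : ℂ) - Complex.I * ((b 1 i : ℝ) : ℂ)) := by
      have hrc : (r : ℂ) ≠ 0 := by exact_mod_cast hr.ne'
      funext i
      rw [hb0, hb1]
      fin_cases i
      · simp
        ring
      · simp
        field_simp
      · simp
        field_simp
    have hq0 : ψ Q = 0 := by
      rw [hQ, hcomp, hvec, aeval_smul_hom hq, h b, mul_zero]
    have hP0 : ψ P = 0 := by
      rw [hP, map_add, map_pow, hψX, hψC]
      have h1 : (MvPolynomial.eval s (MvPolynomial.X 0 ^ 2 + MvPolynomial.X 1 ^ 2) : ℝ) = r ^ 2 := by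
        rw [map_add, map_pow, map_pow, MvPolynomial.eval_X, MvPolynomial.eval_X, hr2]
      rw [h1, mul_pow, Complex.I_sq]
      push_cast
      ring
    have hR0 : ψ R = 0 := by
      have h1 : R + P * (Q /ₘ P) = Q := Polynomial.modByMonic_add_div Q P
      have h2 := congrArg ψ h1
      rw [map_add, map_mul, hP0, hq0, zero_mul, add_zero] at h2
      exact h2
    rw [hReq, map_add, map_mul, hψC, hψC, hψX] at hR0
    have him := congrArg Complex.im hR0
    have hre := congrArg Complex.re hR0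
    simp at him hre
    refine ⟨?_, hre⟩
    rcases him with h1 | h1
    · exact h1
    · exact absurd h1 hr.ne'
  have hc1 : R.coeff 1 = 0 := eq_zero_of_vanish fun s hs => (hkey s hs).1
  have hc0 : R.coeff 0 = 0 := eq_zero_of_vanish fun s hs => (hkey s hs).2
  have hRz : R = 0 := by rw [hReq, hc1, hc0]; simp
  have hdvd : P ∣ Q := (Polynomial.modByMonic_eq_zero_iff_dvd hmon).mp hRz
  rw [← heP, hQ] at hdvd
  exact (map_dvd_iff e).mp hdvd

end Pool.Agent.Helper85.BD
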