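import Pool.Agent.Helper85.BD.Defs

/-!
# MP_8ad3e9_gt, project BD: means and variances over the circle
-/

set_option autoImplicit false

open MeasureTheory Set
open scoped MeasureTheory Real

namespace Pool.Agent.Helper85.BD

private theorem mean_add' {f g : ℝ → ℝ} (hf : Continuous f) (hg : Continuous g) :
    mean (fun t => f t + g t) = mean f + mean g := by
  unfold mean
  rw [intervalIntegral.integral_add (hf.intervalIntegrable _ _) (hg.intervalIntegrable _ _)]
  ring

private theorem mean_smul' (f : ℝ → ℝ) (c : ℝ) : mean (fun t => c * f t) = c * mean f := by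
  unfold mean
  rw [intervalIntegral.integral_const_mul]
  ring

private theorem mean_const' (c : ℝ) : mean (fun _ => c) = c := by
  unfold mean
  rw [intervalIntegral.integral_const]
  have : (0 : ℝ) < π := Real.pi_pos
  simp only [smul_eq_mul]
  field_simp
  ring

private theorem mean_mono' {f g : ℝ → ℝ} (hf : Continuous f) (hg : Continuous g)
    (h : ∀ t, f t ≤ g t) : mean f ≤ mean g := by
  unfold mean
  have hp : (0 : ℝ) < π := Real.pi_pos
  refine mul_le_mul_of_nonneg_left ?_ (by positivity)
  exact intervalIntegral.integral_mono_on (by linarith) (hf.intervalIntegrable _ _)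
    (hg.intervalIntegrable _ _) (fun t _ => h t)

private theorem mean_quad {f : ℝ → ℝ} (hf : Continuous f) (s c : ℝ) :
    mean (fun t => (s - c * f t) ^ 2) = (s - c * mean f) ^ 2 + c ^ 2 * vari f := by
  have e : (fun t => (s - c * f t) ^ 2) =
      fun t => (s ^ 2 + (-2 * s * c) * f t) + c ^ 2 * (f t ^ 2) := by
    funext t; ring
  rw [e, mean_add' (by fun_prop) (by fun_prop), mean_add' (by fun_prop) (by fun_prop),
    mean_const', mean_smul', mean_smul' (fun t => f t ^ 2)]
  unfold vari
  ring

theorem vari_eq {f : ℝ → ℝ} (hf : Continuous f) : vari f = mean fun t => (f t - mean f) ^ 2 := by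
  have h := mean_quad hf (mean f) 1
  have e : (fun t => (mean f - 1 * f t) ^ 2) = fun t => (f t - mean f) ^ 2 := by
    funext t; ring
  rw [e] at h
  rw [h]
  ring

theorem vari_nonneg {f : ℝ → ℝ} (hf : Continuous f) : 0 ≤ vari f := by
  rw [vari_eq hf]
  have h := mean_mono' (f := fun _ => (0 : ℝ)) (g := fun t => (f t - mean f) ^ 2)
    (by fun_prop) (by fun_prop) (fun t => by positivity)
  rwa [mean_const'] at h

/-- If `|f| ≤ B` then the variance is at most `B ^ 2`. -/
theorem vari_le {f : ℝ → ℝ} (hf : Continuous f) {B : ℝ} (hB : ∀ t, |f t| ≤ B) : vari f ≤ B ^ 2 := by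
  have h := mean_mono' (f := fun t => f t ^ 2) (g := fun _ => B ^ 2)
    (by fun_prop) (by fun_prop) (fun t => by
      have h1 := hB t
      rw [← sq_abs (f t)]
      exact pow_le_pow_left₀ (abs_nonneg _) h1 2)
  rw [mean_const'] at h
  unfold vari
  have h2 : 0 ≤ mean f ^ 2 := by positivity
  linarith

theorem abs_mean_le {f : ℝ → ℝ} (hf : Continuous f) {B : ℝ} (hB : ∀ t, |f t| ≤ B) :
    |mean f| ≤ B := by
  have h1 := mean_mono' (f := f) (g := fun _ => B) hf (by fun_prop) (fun t => (abs_le.1 (hB t)).2)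
  have h2 := mean_mono' (f := fun _ => -B) (g := f) (by fun_prop) hf (fun t => (abs_le.1 (hB t)).1)
  rw [mean_const'] at h1 h2
  exact abs_le.2 ⟨h2, h1⟩

/-- The variance depends continuously on the function. -/
theorem abs_vari_sub_le {f g : ℝ → ℝ} (hf : Continuous f) (hg : Continuous g) {B η : ℝ}
    (hfB : ∀ t, |f t| ≤ B) (hgB : ∀ t, |g t| ≤ B) (h : ∀ t, |f t - g t| ≤ η) :
    |vari f - vari g| ≤ 4 * B * η := by
  have hη : 0 ≤ η := (abs_nonneg _).trans (h 0)
  have hB : 0 ≤ B := (abs_nonneg _).trans (hfB 0)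
  have msub : ∀ {u v : ℝ → ℝ}, Continuous u → Continuous v →
      mean u - mean v = mean (fun t => u t - v t) := by
    intro u v hu hv
    have h1 := mean_add' hu (g := fun t => (-1) * v t) (by fun_prop)
    rw [mean_smul'] at h1
    have e : (fun t => u t - v t) = fun t => u t + (-1) * v t := by funext t; ring
    rw [e, h1]
    ring
  have key : ∀ t, |f t ^ 2 - g t ^ 2| ≤ 2 * B * η := by
    intro t
    have e : f t ^ 2 - g t ^ 2 = (f t + g t) * (f t - g t) := by ring
    rw [e, abs_mul]
    have h1 : |f t + g t| ≤ 2 * B := (abs_add_le _ _).trans (by linarith [hfB t, hgB t])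
    exact mul_le_mul h1 (h t) (abs_nonneg _) (by linarith)
  have h1 : |mean (fun t => f t ^ 2) - mean (fun t => g t ^ 2)| ≤ 2 * B * η := by
    rw [msub (by fun_prop) (by fun_prop)]
    exact abs_mean_le (by fun_prop) key
  have h2 : |mean f - mean g| ≤ η := by
    rw [msub hf hg]
    exact abs_mean_le (by fun_prop) h
  have h3 : |mean f ^ 2 - mean g ^ 2| ≤ 2 * B * η := by
    have e : mean f ^ 2 - mean g ^ 2 = (mean f + mean g) * (mean f - mean g) := by ring
    rw [e, abs_mul]
    have h4 : |mean f + mean g| ≤ 2 * B :=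
      (abs_add_le _ _).trans (by linarith [abs_mean_le hf hfB, abs_mean_le hg hgB])
    exact mul_le_mul h4 h2 (abs_nonneg _) (by linarith)
  have e : vari f - vari g = (mean (fun t => f t ^ 2) - mean (fun t => g t ^ 2)) -
      (mean f ^ 2 - mean g ^ 2) := by
    unfold vari; ring
  rw [e]
  have h5 := abs_sub (mean (fun t => f t ^ 2) - mean (fun t => g t ^ 2))
      (mean f ^ 2 - mean g ^ 2)
  linarith

theorem vari_smul (f : ℝ → ℝ) (c : ℝ) : vari (fun t => c * f t) = c ^ 2 * vari f := by
  unfold vari
  have e : (fun t => (c * f t) ^ 2) = fun t => c ^ 2 * (f t ^ 2) := by funext t; ring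
  rw [e, mean_smul' (fun t => f t ^ 2), mean_smul']
  ring

/-- The integral which gives the area of a section. -/
theorem integral_sq {f : ℝ → ℝ} (hf : Continuous f) (s c : ℝ) :
    ∫ t in (-π)..π, (s - c * f t) ^ 2 / 2 = π * ((s - c * mean f) ^ 2 + c ^ 2 * vari f) := by
  rw [← mean_quad hf s c, intervalIntegral.integral_div]
  unfold mean
  have hp : (0 : ℝ) < π := Real.pi_pos
  field_simp

/-- The variance of a nonconstant continuous function is positive. -/
theorem vari_pos {f : ℝ → ℝ} (hf : Continuous f) {s t : ℝ} (hs : s ∈ Icc (-π) π)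
    (ht : t ∈ Icc (-π) π) (h : f s ≠ f t) : 0 < vari f := by
  rw [vari_eq hf]
  have hp : (0 : ℝ) < π := Real.pi_pos
  have hex : ∃ c ∈ Icc (-π) π, 0 < (f c - mean f) ^ 2 := by
    by_cases h1 : f s = mean f
    · refine ⟨t, ht, ?_⟩
      have h2 : f t - mean f ≠ 0 := fun h3 => h (by linarith)
      positivity
    · refine ⟨s, hs, ?_⟩
      have h2 : f s - mean f ≠ 0 := fun h3 => h1 (by linarith)
      positivity
  have hpos := intervalIntegral.integral_pos (f := fun t => (f t - mean f) ^ 2)
    (a := -π) (b := π) (by linarith) (by fun_prop) (fun x _ => by positivity) hex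
  have e : (mean fun t => (f t - mean f) ^ 2) =
      (2 * π)⁻¹ * ∫ t in (-π)..π, (f t - mean f) ^ 2 := rfl
  rw [e]
  positivity

theorem vari_cos_pow {N : ℕ} (hN : 2 ≤ N) : 0 < vari fun t => Real.cos t ^ (N - 1) := by
  have hp : (0 : ℝ) < π := Real.pi_pos
  refine vari_pos (by fun_prop) (s := 0) (t := π / 2) ⟨by linarith, by linarith⟩
    ⟨by linarith, by linarith⟩ ?_
  rw [Real.cos_zero, Real.cos_pi_div_two, one_pow, zero_pow (by omega)]
  exact one_ne_zero

end Pool.Agent.Helper85.BD
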