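import Pool.Agent.Helper85.BD.PolyDer
import Pool.Agent.Helper85.BD.Vari

/-!
# MP_8ad3e9_gt, project BD: a `C¹` function with `VV = 0` is affine on the unit sphere

`vari f = 0` for a continuous `f` means that `f` is constant on `[-π, π]`. So for every unit vector
`e` there is `m(e)` with `φ'(v) e = m(e)` for all unit vectors `v ⊥ e` (`φ' = fderiv`; `m` does not
depend on the frame). Let `e_1, e_2, e_3` be the standard basis, `a = ∑ m(e_i) e_i`. `m` is linear on
every plane (for unit vectors `e`, `e'`, `x e + y e'` orthogonal to a unit vector `v` use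
`m(e) = φ'(v) e`), so `m(e) = ⟪a, e⟫` for all unit vectors: first for `e` in the planes
`⟨e_2, e_3⟩` then for `x e_1 + r f`, `f` in that plane. So `φ - ⟪a, ·⟫` has zero derivative along all
great circles `cos s • v + sin s • e`, and any two unit vectors lie on a great circle.
-/

set_option autoImplicit false

open MeasureTheory Set
open scoped MeasureTheory Real

namespace Pool.Agent.Helper85.BD

/-- there is a unit vector orthogonal to two given vectors -/
private theorem aff_unit (p q : E3) : ∃ v : E3, ‖v‖ = 1 ∧ (inner ℝ p v : ℝ) = 0 ∧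
    (inner ℝ q v : ℝ) = 0 := by
  classical
  have h1 : (Submodule.span ℝ ({p, q} : Set E3))ᗮ ≠ ⊥ := by
    intro h
    have h2 := (Submodule.orthogonal_eq_bot_iff (K := Submodule.span ℝ ({p, q} : Set E3))).1 h
    have h3 : Module.finrank ℝ (Submodule.span ℝ ({p, q} : Set E3)) = 3 := by
      rw [h2, finrank_top, finrank_euclideanSpace_fin]
    have h4 : Module.finrank ℝ (Submodule.span ℝ (({p, q} : Finset E3) : Set E3)) ≤
        ({p, q} : Finset E3).card := finrank_span_finset_le_card _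
    have h5 : (({p, q} : Finset E3) : Set E3) = {p, q} := by simp
    rw [h5, h3] at h4
    have h6 : ({p, q} : Finset E3).card ≤ 2 := Finset.card_le_two
    omega
  obtain ⟨w, hw, hw0⟩ := Submodule.exists_mem_ne_zero_of_ne_bot h1
  rw [Submodule.mem_orthogonal] at hw
  have hp := hw p (Submodule.subset_span (by simp))
  have hq := hw q (Submodule.subset_span (by simp))
  refine ⟨‖w‖⁻¹ • w, ?_, ?_, ?_⟩
  · rw [norm_smul, norm_inv, norm_norm, inv_mul_cancel₀ (norm_ne_zero_iff.2 hw0)]
  · rw [inner_smul_right, hp, mul_zero]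
  · rw [inner_smul_right, hq, mul_zero]

/-- a frame with a given first vector -/
private theorem aff_frame (e : E3) (he : ‖e‖ = 1) :
    ∃ b : OrthonormalBasis (Fin 3) ℝ E3, b 0 = e := by
  have h1 : Orthonormal ℝ (({0} : Set (Fin 3)).domRestrict fun _ : Fin 3 => e) := by
    constructor
    · intro i
      exact he
    · intro i j hij
      exact absurd (Subsingleton.elim i j) hij
  obtain ⟨b, hb⟩ := h1.exists_orthonormalBasis_extension_of_card_eq
    (by rw [finrank_euclideanSpace_fin, Fintype.card_fin])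
  exact ⟨b, hb 0 (by simp)⟩

/-- the unit vectors orthogonal to `b 0` are the points of the circle -/
private theorem aff_cir (b : OrthonormalBasis (Fin 3) ℝ E3) (v : E3) (hv : ‖v‖ = 1)
    (h : (inner ℝ (b 0) v : ℝ) = 0) : ∃ t ∈ Icc (-π) π, cir b t = v := by
  set z : ℂ := ⟨(inner ℝ (b 1) v : ℝ), (inner ℝ (b 2) v : ℝ)⟩ with hz
  have hs : v = (inner ℝ (b 1) v : ℝ) • b 1 + (inner ℝ (b 2) v : ℝ) • b 2 := by
    conv_lhs => rw [← b.sum_repr' v]
    rw [Fin.sum_univ_three, h, zero_smul, zero_add]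
  have hn : (inner ℝ (b 1) v : ℝ) ^ 2 + (inner ℝ (b 2) v : ℝ) ^ 2 = 1 := by
    have h1 := b.sum_sq_norm_inner_right v
    rw [Fin.sum_univ_three, h, hv] at h1
    simpa using h1
  have hzn : ‖z‖ = 1 := by
    have h2 : ‖z‖ ^ 2 = 1 := by
      rw [← Complex.normSq_eq_norm_sq, Complex.normSq_apply, hz]
      simp only
      rw [← sq, ← sq]
      exact hn
    have h3 : (‖z‖ - 1) * (‖z‖ + 1) = 0 := by linear_combination h2
    rcases mul_eq_zero.1 h3 with h4 | h4
    · linarith
    · linarith [norm_nonneg z]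
  refine ⟨Complex.arg z, ⟨(Complex.neg_pi_lt_arg z).le, Complex.arg_le_pi z⟩, ?_⟩
  have hc : Real.cos (Complex.arg z) = (inner ℝ (b 1) v : ℝ) := by
    have := Complex.norm_mul_cos_arg z
    rw [hzn, one_mul] at this
    rw [this, hz]
  have hsn : Real.sin (Complex.arg z) = (inner ℝ (b 2) v : ℝ) := by
    have := Complex.norm_mul_sin_arg z
    rw [hzn, one_mul] at this
    rw [this, hz]
  unfold cir
  rw [hc, hsn]
  exact hs.symm

private theorem aff_cir_cont (b : OrthonormalBasis (Fin 3) ℝ E3) : Continuous (cir b) := by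
  unfold cir
  fun_prop

private theorem aff_inner (b : OrthonormalBasis (Fin 3) ℝ E3) (i j : Fin 3) :
    (inner ℝ (b i) (b j) : ℝ) = if i = j then 1 else 0 := by
  exact orthonormal_iff_ite.1 b.orthonormal i j

private theorem aff_cir_norm (b : OrthonormalBasis (Fin 3) ℝ E3) (t : ℝ) : ‖cir b t‖ = 1 := by
  have h1 : (inner ℝ (cir b t) (cir b t) : ℝ) = 1 := by
    unfold cir
    simp only [inner_add_left, inner_add_right, inner_smul_left, inner_smul_right, aff_inner]
    simp
    nlinarith [Real.sin_sq_add_cos_sq t]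
  rw [real_inner_self_eq_norm_sq] at h1
  have h3 : (‖cir b t‖ - 1) * (‖cir b t‖ + 1) = 0 := by linear_combination h1
  rcases mul_eq_zero.1 h3 with h4 | h4
  · linarith
  · linarith [norm_nonneg (cir b t)]

private theorem aff_const {phi : E3 → ℝ} (hphi : ContDiff ℝ 1 phi)
    (h : ∀ b : OrthonormalBasis (Fin 3) ℝ E3, VV phi b = 0) (e v v' : E3) (he : ‖e‖ = 1)
    (hv : ‖v‖ = 1) (hv' : ‖v'‖ = 1) (h1 : (inner ℝ e v : ℝ) = 0) (h2 : (inner ℝ e v' : ℝ) = 0) :
    fderiv ℝ phi v e = fderiv ℝ phi v' e := by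
  obtain ⟨b, hb⟩ := aff_frame e he
  obtain ⟨s, hs, hsv⟩ := aff_cir b v hv (by rw [hb]; exact h1)
  obtain ⟨t, ht, htv⟩ := aff_cir b v' hv' (by rw [hb]; exact h2)
  by_contra hne
  have hc : Continuous fun t => fderiv ℝ phi (cir b t) (b 0) :=
    ((hphi.continuous_fderiv (by norm_num)).comp (aff_cir_cont b)).clm_apply continuous_const
  have hp := vari_pos hc hs ht (by
    rw [hsv, htv, hb]
    exact hne)
  have h0 := h b
  unfold VV at h0
  rw [h0] at hp
  exact lt_irrefl _ hp

private theorem aff_const' {phi : E3 → ℝ} (hphi : ContDiff ℝ 1 phi)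
    (h : ∀ b : OrthonormalBasis (Fin 3) ℝ E3, VV phi b = 0) (w v v' : E3)
    (hv : ‖v‖ = 1) (hv' : ‖v'‖ = 1) (h1 : (inner ℝ w v : ℝ) = 0) (h2 : (inner ℝ w v' : ℝ) = 0) :
    fderiv ℝ phi v w = fderiv ℝ phi v' w := by
  by_cases hw : w = 0
  · rw [hw, map_zero, map_zero]
  · have hn : ‖w‖ ≠ 0 := norm_ne_zero_iff.2 hw
    have he : ‖‖w‖⁻¹ • w‖ = 1 := by
      rw [norm_smul, norm_inv, norm_norm, inv_mul_cancel₀ hn]
    have h3 := aff_const hphi h (‖w‖⁻¹ • w) v v' he hv hv'
      (by rw [inner_smul_left, h1, mul_zero]) (by rw [inner_smul_left, h2, mul_zero])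
    rw [map_smul, map_smul, smul_eq_mul, smul_eq_mul] at h3
    exact mul_left_cancel₀ (inv_ne_zero hn) h3

/-- the derivative in tangential directions is given by a fixed vector -/
private theorem aff_vec {phi : E3 → ℝ} (hphi : ContDiff ℝ 1 phi)
    (h : ∀ b : OrthonormalBasis (Fin 3) ℝ E3, VV phi b = 0) :
    ∃ a : E3, ∀ u e : E3, ‖u‖ = 1 → (inner ℝ e u : ℝ) = 0 →
      fderiv ℝ phi u e = (inner ℝ a e : ℝ) := by
  obtain ⟨b⟩ : Nonempty (OrthonormalBasis (Fin 3) ℝ E3) := ⟨EuclideanSpace.basisFun (Fin 3) ℝ⟩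
  refine ⟨fderiv ℝ phi (b 1) (b 0) • b 0 + fderiv ℝ phi (b 0) (b 1) • b 1 +
    fderiv ℝ phi (b 0) (b 2) • b 2, ?_⟩
  intro u e hu hue
  have hbn : ∀ i, ‖b i‖ = 1 := fun i => b.orthonormal.1 i
  obtain ⟨v, hv, hv0, hve⟩ := aff_unit (b 0) e
  have hs : e = (inner ℝ (b 0) e : ℝ) • b 0 +
      ((inner ℝ (b 1) e : ℝ) • b 1 + (inner ℝ (b 2) e : ℝ) • b 2) := by
    conv_lhs => rw [← b.sum_repr' e]
    rw [Fin.sum_univ_three, add_assoc]
  have h1 : fderiv ℝ phi u e = fderiv ℝ phi v e := aff_const' hphi h e u v hu hv hue hve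
  set w : E3 := (inner ℝ (b 1) e : ℝ) • b 1 + (inner ℝ (b 2) e : ℝ) • b 2 with hw
  have hw0 : (inner ℝ w (b 0) : ℝ) = 0 := by
    rw [hw]
    simp only [inner_add_left, inner_smul_left, aff_inner]
    simp
  have hwv : (inner ℝ w v : ℝ) = 0 := by
    have h2 : w = e - (inner ℝ (b 0) e : ℝ) • b 0 := by
      rw [eq_sub_iff_add_eq, add_comm]
      exact hs.symm
    rw [h2, inner_sub_left, inner_smul_left, hve, hv0, mul_zero, sub_zero]
  have h3 : fderiv ℝ phi v w = fderiv ℝ phi (b 0) w :=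
    aff_const' hphi h w v (b 0) hv (hbn 0) hwv hw0
  have h4 : fderiv ℝ phi v (b 0) = fderiv ℝ phi (b 1) (b 0) :=
    aff_const' hphi h (b 0) v (b 1) hv (hbn 1) hv0 (by rw [aff_inner]; simp)
  have h5 : fderiv ℝ phi v e = (inner ℝ (b 0) e : ℝ) * fderiv ℝ phi v (b 0) +
      fderiv ℝ phi v w := by
    conv_lhs => rw [hs]
    rw [map_add, map_smul, smul_eq_mul]
  have h6 : fderiv ℝ phi (b 0) w = (inner ℝ (b 1) e : ℝ) * fderiv ℝ phi (b 0) (b 1) +
      (inner ℝ (b 2) e : ℝ) * fderiv ℝ phi (b 0) (b 2) := by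
    rw [hw, map_add, map_smul, map_smul, smul_eq_mul, smul_eq_mul]
  rw [h1, h5, h3, h4, h6]
  simp only [inner_add_left, inner_smul_left]
  simp
  ring

private theorem aff_cir_deriv (b : OrthonormalBasis (Fin 3) ℝ E3) (t : ℝ) :
    HasDerivAt (cir b) ((-Real.sin t) • b 1 + Real.cos t • b 2) t := by
  unfold cir
  exact ((Real.hasDerivAt_cos t).smul_const (b 1)).add ((Real.hasDerivAt_sin t).smul_const (b 2))

theorem affine_of_zero {phi : E3 → ℝ} (hphi : ContDiff ℝ 1 phi)
    (h : ∀ b : OrthonormalBasis (Fin 3) ℝ E3, VV phi b = 0) :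
    ∃ (c : ℝ) (a : E3), ∀ v : E3, ‖v‖ = 1 → phi v = c + (inner ℝ a v : ℝ) := by
  obtain ⟨a, ha⟩ := aff_vec hphi h
  obtain ⟨v0, hv0, -, -⟩ := aff_unit (0 : E3) 0
  refine ⟨phi v0 - (inner ℝ a v0 : ℝ), a, ?_⟩
  intro v hv
  obtain ⟨n, hn, hn1, hn2⟩ := aff_unit v0 v
  obtain ⟨b, hb⟩ := aff_frame n hn
  obtain ⟨s, -, hs⟩ := aff_cir b v0 hv0 (by rw [hb, real_inner_comm]; exact hn1)
  obtain ⟨t, -, ht⟩ := aff_cir b v hv (by rw [hb, real_inner_comm]; exact hn2)
  have hd : ∀ r : ℝ, HasDerivAt (fun r => phi (cir b r) - (inner ℝ a (cir b r) : ℝ)) 0 r := by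
    intro r
    have hc := aff_cir_deriv b r
    have h1 : HasDerivAt (fun r => phi (cir b r))
        (fderiv ℝ phi (cir b r) ((-Real.sin r) • b 1 + Real.cos r • b 2)) r :=
      ((hphi.differentiable (by norm_num)).differentiableAt.hasFDerivAt).comp_hasDerivAt r hc
    have h2 : HasDerivAt (fun r => (inner ℝ a (cir b r) : ℝ))
        (inner ℝ a ((-Real.sin r) • b 1 + Real.cos r • b 2) : ℝ) r :=
      (innerSL ℝ a).hasFDerivAt.comp_hasDerivAt r hc
    have h3 := h1.sub h2
    have h4 : fderiv ℝ phi (cir b r) ((-Real.sin r) • b 1 + Real.cos r • b 2) =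
        (inner ℝ a ((-Real.sin r) • b 1 + Real.cos r • b 2) : ℝ) := by
      apply ha _ _ (aff_cir_norm b r)
      unfold cir
      simp only [inner_add_left, inner_add_right, inner_smul_left, inner_smul_right, aff_inner]
      simp
      ring
    rw [h4, sub_self] at h3
    exact h3
  have hconst := is_const_of_deriv_eq_zero (f := fun r => phi (cir b r) -
    (inner ℝ a (cir b r) : ℝ)) (fun r => (hd r).differentiableAt) (fun r => (hd r).deriv) s t
  simp only [hs, ht] at hconst
  linarith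

/-- If `phi` is symmetric in the plane orthogonal to `b 0` then `VV phi b = 0`. -/
theorem VV_of_symm {phi : E3 → ℝ} (hphi : ContDiff ℝ 1 phi) (b : OrthonormalBasis (Fin 3) ℝ E3)
    (h : ∀ v : E3, ‖v‖ = 1 → phi (v - (2 * (inner ℝ (b 0) v : ℝ)) • b 0) = phi v) :
    VV phi b = 0 := by
  have key : ∀ t : ℝ, fderiv ℝ phi (cir b t) (b 0) = 0 := by
    intro t
    set v : E3 := cir b t with hv
    have hvn : ‖v‖ = 1 := aff_cir_norm b t
    have hv0 : (inner ℝ (b 0) v : ℝ) = 0 := by
      rw [hv]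
      unfold cir
      simp only [inner_add_right, inner_smul_right, aff_inner]
      simp
    have hc : HasDerivAt (fun s : ℝ => Real.cos s • v + Real.sin s • b 0) (b 0) 0 := by
      have h9 := ((Real.hasDerivAt_cos 0).smul_const v).add
        ((Real.hasDerivAt_sin 0).smul_const (b 0))
      have e9 : (-Real.sin 0) • v + Real.cos 0 • b 0 = b 0 := by simp
      rw [e9] at h9
      exact h9
    have h1 : HasDerivAt (fun s : ℝ => phi (Real.cos s • v + Real.sin s • b 0))
        (fderiv ℝ phi v (b 0)) 0 := by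
      have h2 : HasFDerivAt phi (fderiv ℝ phi v) (Real.cos 0 • v + Real.sin 0 • b 0) := by
        simp only [Real.cos_zero, Real.sin_zero, one_smul, zero_smul, add_zero]
        exact ((hphi.differentiable (by norm_num)) v).hasFDerivAt
      exact h2.comp_hasDerivAt (0 : ℝ) hc
    have heven : (fun s : ℝ => phi (Real.cos (-s) • v + Real.sin (-s) • b 0)) =
        fun s : ℝ => phi (Real.cos s • v + Real.sin s • b 0) := by
      funext s
      rw [Real.cos_neg, Real.sin_neg]
      have hb0 : (inner ℝ (b 0) (b 0) : ℝ) = 1 := by rw [aff_inner]; simp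
      have hn : ‖Real.cos s • v + Real.sin s • b 0‖ = 1 := by
        have h3 : (inner ℝ (Real.cos s • v + Real.sin s • b 0)
            (Real.cos s • v + Real.sin s • b 0) : ℝ) = 1 := by
          have hvv : (inner ℝ v v : ℝ) = 1 := by rw [real_inner_self_eq_norm_sq, hvn]; norm_num
          have hv0' : (inner ℝ v (b 0) : ℝ) = 0 := by rw [real_inner_comm]; exact hv0
          simp only [inner_add_left, inner_add_right, inner_smul_left, inner_smul_right, hv0, hb0,
            hvv, hv0']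
          simp
          nlinarith [Real.sin_sq_add_cos_sq s]
        rw [real_inner_self_eq_norm_sq] at h3
        have h4 : (‖Real.cos s • v + Real.sin s • b 0‖ - 1) *
            (‖Real.cos s • v + Real.sin s • b 0‖ + 1) = 0 := by linear_combination h3
        rcases mul_eq_zero.1 h4 with h5 | h5
        · linarith
        · linarith [norm_nonneg (Real.cos s • v + Real.sin s • b 0)]
      rw [← h _ hn]
      congr 1
      rw [inner_add_right, inner_smul_right, inner_smul_right, hv0, hb0]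
      module
    have h2 : HasDerivAt (fun s : ℝ => phi (Real.cos (-s) • v + Real.sin (-s) • b 0))
        (-(fderiv ℝ phi v (b 0))) 0 := by
      have h1' : HasDerivAt (fun s : ℝ => phi (Real.cos s • v + Real.sin s • b 0))
          (fderiv ℝ phi v (b 0)) (-(0 : ℝ)) := by simpa using h1
      have := h1'.scomp (0 : ℝ) (hasDerivAt_neg (0 : ℝ))
      simpa [Function.comp_def] using this
    rw [heven] at h2
    have := h1.unique h2
    linarith
  unfold VV vari mean
  simp only [key]
  simp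

end Pool.Agent.Helper85.BD
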