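import Pool.Agent.Helper85.BD.Defs

/-!
# MP_8ad3e9_gt, project BD: two-dimensional Hausdorff measure and the area of the complex plane
-/

set_option autoImplicit false

open MeasureTheory Set
open scoped MeasureTheory Real

namespace Pool.Agent.Helper85.BD

private lemma haus_norm (b : OrthonormalBasis (Fin 3) ℝ E3) (x y : ℝ) :
    ‖x • b 1 + y • b 2‖ ^ 2 = x ^ 2 + y ^ 2 := by
  have h11 : (inner ℝ (b 1) (b 1) : ℝ) = 1 := by
    rw [real_inner_self_eq_norm_sq, b.norm_eq_one, one_pow]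
  have h22 : (inner ℝ (b 2) (b 2) : ℝ) = 1 := by
    rw [real_inner_self_eq_norm_sq, b.norm_eq_one, one_pow]
  have h12 : (inner ℝ (b 1) (b 2) : ℝ) = 0 := b.inner_eq_zero (by decide)
  have h21 : (inner ℝ (b 2) (b 1) : ℝ) = 0 := b.inner_eq_zero (by decide)
  rw [← real_inner_self_eq_norm_sq]
  simp only [inner_add_left, inner_add_right, real_inner_smul_left, real_inner_smul_right, h11,
    h22, h12, h21]
  ring

private lemma haus_isometry (b : OrthonormalBasis (Fin 3) ℝ E3) (t : ℝ) :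
    Isometry (fun z : ℂ => t • b 0 + pt b z) := by
  refine Isometry.of_dist_eq fun z w => ?_
  rw [dist_eq_norm, dist_eq_norm]
  have h : t • b 0 + pt b z - (t • b 0 + pt b w) =
      (z.re - w.re) • b 1 + (z.im - w.im) • b 2 := by
    unfold pt
    module
  rw [h]
  have h1 := haus_norm b (z.re - w.re) (z.im - w.im)
  have h2 : ‖z - w‖ ^ 2 = (z.re - w.re) ^ 2 + (z.im - w.im) ^ 2 := by
    rw [← Complex.normSq_eq_norm_sq, Complex.normSq_apply, Complex.sub_re, Complex.sub_im]
    ring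
  have h3 : ‖(z.re - w.re) • b 1 + (z.im - w.im) • b 2‖ ^ 2 = ‖z - w‖ ^ 2 := by rw [h1, h2]
  exact (sq_eq_sq₀ (norm_nonneg _) (norm_nonneg _)).1 h3

/-- Hausdorff measure of a set in a plane is a constant times the area of its coordinate set. -/
theorem exists_haus : ∃ c : ENNReal, c ≠ 0 ∧ c ≠ ⊤ ∧
    ∀ (b : OrthonormalBasis (Fin 3) ℝ E3) (t : ℝ) (S : Set ℂ),
      (μH[2] : Measure E3) ((fun z : ℂ => t • b 0 + pt b z) '' S) = c * volume S := by
  have hfin : (Module.finrank ℝ ℂ : ℝ) = 2 := by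
    rw [Complex.finrank_real_complex]
    norm_num
  have hH : Measure.IsAddHaarMeasure (μH[2] : Measure ℂ) := by
    have := isAddHaarMeasure_hausdorffMeasure (E := ℂ)
    rwa [hfin] at this
  have hs := Measure.isAddLeftInvariant_eq_smul (μH[2] : Measure ℂ) (volume : Measure ℂ)
  refine ⟨(Measure.addHaarScalarFactor (μH[2] : Measure ℂ) (volume : Measure ℂ) : ENNReal), ?_,
    ENNReal.coe_ne_top, fun b t S => ?_⟩
  · rw [Ne, ENNReal.coe_eq_zero]
    exact (Measure.addHaarScalarFactor_pos_of_isAddHaarMeasure _ _).ne'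
  · rw [(haus_isometry b t).hausdorffMeasure_image (Or.inl (by norm_num))]
    exact congrArg (fun m : Measure ℂ => m S) hs

/-- The coordinates of a point orthogonal to `b 0`. -/
noncomputable def crd (b : OrthonormalBasis (Fin 3) ℝ E3) (x : E3) : ℂ :=
  ⟨(inner ℝ (b 1) x : ℝ), (inner ℝ (b 2) x : ℝ)⟩

theorem dotc_crd (b : OrthonormalBasis (Fin 3) ℝ E3) (w : ℂ) (x : E3) :
    dotc w (crd b x) = (inner ℝ (pt b w) x : ℝ) := by
  unfold dotc crd pt
  rw [inner_add_left, real_inner_smul_left, real_inner_smul_left]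

private lemma haus_crd (b : OrthonormalBasis (Fin 3) ℝ E3) (x : E3) :
    (inner ℝ (b 0) x : ℝ) • b 0 + pt b (crd b x) = x := by
  have h := b.sum_repr' x
  rw [Fin.sum_univ_three] at h
  unfold pt crd
  rw [← add_assoc]
  exact h

theorem projArea_eq {c : ENNReal} (hc : ∀ (b : OrthonormalBasis (Fin 3) ℝ E3) (t : ℝ) (S : Set ℂ),
      (μH[2] : Measure E3) ((fun z : ℂ => t • b 0 + pt b z) '' S) = c * volume S)
    (b : OrthonormalBasis (Fin 3) ℝ E3) (K : Set E3) :
    projArea K (b 0) = c * volume (crd b '' K) := by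
  rw [← hc b 0, image_image]
  unfold projArea
  congr 1
  refine image_congr fun x _ => ?_
  have h := haus_crd b x
  rw [zero_smul, zero_add]
  exact sub_eq_of_eq_add' h.symm

theorem secArea_eq {c : ENNReal} (hc : ∀ (b : OrthonormalBasis (Fin 3) ℝ E3) (t : ℝ) (S : Set ℂ),
      (μH[2] : Measure E3) ((fun z : ℂ => t • b 0 + pt b z) '' S) = c * volume S)
    (b : OrthonormalBasis (Fin 3) ℝ E3) (K : Set E3) :
    secArea K (b 0) = ⨆ t : ℝ, c * volume (crd b '' (K ∩ {x : E3 | (inner ℝ (b 0) x : ℝ) = t})) := by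
  unfold secArea
  refine iSup_congr fun t => ?_
  rw [← hc b t, image_image]
  congr 1
  symm
  have h : ∀ x ∈ K ∩ {x : E3 | (inner ℝ (b 0) x : ℝ) = t}, t • b 0 + pt b (crd b x) = id x := by
    intro x hx
    have h1 := haus_crd b x
    have h2 : (inner ℝ (b 0) x : ℝ) = t := hx.2
    rw [h2] at h1
    exact h1
  rw [image_congr h, image_id]

end Pool.Agent.Helper85.BD
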