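import Pool.Agent.Helper85.BD.Rad

/-!
# MP_8ad3e9_gt, project BD: comparison of areas of planar convex sets close to the disc, lower bound

`Q` is close to the unit disc and `L ⊆ Q` has support function at least the support function of `Q`
minus `u` minus `τ`, with `u` small and slowly varying.

Proof. `r(a) = rad Q a` for unit vectors `a`, `1 - κ ≤ r(a) ≤ 1 + κ`, see `Rad.lean`. Let `z = r a` with
`0 ≤ r ≤ r(a) - u a - err`, `err = m + τ + 6 κ (U + m + τ)`. CLAIM `z ∈ L`. If not, there is a unit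
vector `w` with `dotc w z > dotc w y` for all `y ∈ L` (`exists_sep`); with the `y` from the hypothesis
`h4` for `w` (`L` is not empty) and `r(a) a ∈ Q`: `r dotc w a > r(a) dotc w a - u w - τ`, and with
the point of `Q` from `h2`: `r dotc w a > 1 - κ - U - τ`, so `dotc w a ≥ (1 - 2 κ) / (1 + κ) ≥ 1 - 3 κ`
(recall `U + m + τ ≤ κ`), `‖w - a‖ ^ 2 = 2 - 2 dotc w a ≤ 6 κ ≤ ρ ^ 2`, hence `u w ≤ u a + m` and
`(r(a) - r) (1 - 3 κ) ≤ (r(a) - r) dotc w a < u a + m + τ`: contradiction to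
`r(a) - r ≥ u a + err`. So `L ⊇ {z : ‖z‖ ≤ r(a) - u(a) - err, a = z / ‖z‖}` (the right side is
nonnegative). Integrate with `volume_region_real` and `volume_rad`:
`r(a) ^ 2 / 2 - (r(a) - x) ^ 2 / 2 ≤ r(a) x ≤ (1 + κ) x` with `x = u(a) + err`.
-/

set_option autoImplicit false

open MeasureTheory Set
open scoped MeasureTheory Real

namespace Pool.Agent.Helper85.BD

/-- The pointwise claim: the region below the radial function minus the error is in `L`. -/
private theorem region_mem (Q L : Set ℂ) (u : ℂ → ℝ) {κ U m τ ρ : ℝ}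
    (hN : NearDisc Q κ) (hL : IsCompact L) (hLc : Convex ℝ L)
    (hU : 0 ≤ U) (hm : 0 ≤ m) (hτ : 0 ≤ τ) (hUmτ : U + m + τ ≤ κ)
    (hρ0 : 0 < ρ) (hρ : 16 * κ ≤ ρ ^ 2)
    (hu0 : ∀ w : ℂ, ‖w‖ = 1 → 0 ≤ u w) (huU : ∀ w : ℂ, ‖w‖ = 1 → u w ≤ U)
    (hum : ∀ w w' : ℂ, ‖w‖ = 1 → ‖w'‖ = 1 → ‖w - w'‖ ≤ ρ → |u w - u w'| ≤ m)
    (h4 : ∀ w : ℂ, ‖w‖ = 1 → ∃ y ∈ L, ∀ z ∈ Q, dotc w z - u w - τ ≤ dotc w y)
    {a : ℂ} (ha : ‖a‖ = 1) {r : ℝ} (hr0 : 0 ≤ r)
    (hr : r ≤ rad Q a - u a - (m + τ + 6 * κ * (U + m + τ))) : (r : ℂ) * a ∈ L := by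
  obtain ⟨-, -, hκ0, hκ, -, h2⟩ := id hN
  have hne : L.Nonempty := by
    obtain ⟨y, hy, -⟩ := h4 1 (by simp)
    exact ⟨y, hy⟩
  by_contra hz
  obtain ⟨w, hw, hsep⟩ := exists_sep hL hLc hne hz
  obtain ⟨y, hy, hyQ⟩ := h4 w hw
  have hy' := hsep y hy
  rw [dotc_mul_right] at hy'
  obtain ⟨hR1, hR2⟩ := rad_bounds hN ha
  have hR0 : 0 ≤ rad Q a := by linarith
  have hmem : ((rad Q a : ℝ) : ℂ) * a ∈ Q := (mem_iff_le_rad hN ha hR0).2 le_rfl
  have e1 := hyQ _ hmem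
  rw [dotc_mul_right] at e1
  obtain ⟨z, hz, hz1⟩ := h2 w hw
  have e2 := hyQ z hz
  have hc1 : dotc w a ≤ 1 := dotc_le_one hw ha
  have huw := huU w hw
  have huw0 := hu0 w hw
  have hua := huU a ha
  have hua0 := hu0 a ha
  have hs0 : 0 ≤ U + m + τ := by linarith
  have hks : 0 ≤ κ * (U + m + τ) := mul_nonneg hκ0 hs0
  set c := dotc w a with hc
  set R := rad Q a with hR
  have e3 : 1 - 2 * κ < r * c := by linarith
  have hrR : r ≤ 1 + κ := by linarith
  have hc0 : 0 < c := by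
    by_contra h
    have h' : c ≤ 0 := not_lt.1 h
    have : r * c ≤ 0 := mul_nonpos_of_nonneg_of_nonpos hr0 h'
    linarith
  have e4 : 1 - 2 * κ < (1 + κ) * c := by
    have := mul_le_mul_of_nonneg_right hrR hc0.le
    linarith
  have e5 : 1 - 3 * κ ≤ c := by
    by_contra h
    have h' : c < 1 - 3 * κ := not_le.1 h
    have h1 : (1 + κ) * c < (1 + κ) * (1 - 3 * κ) := mul_lt_mul_of_pos_left h' (by linarith)
    nlinarith [mul_nonneg hκ0 hκ0]
  have e6 : ‖w - a‖ ≤ ρ := by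
    have h1 := norm_sub_sq_of_unit hw ha
    have h2 : ‖w - a‖ ^ 2 ≤ ρ ^ 2 := by rw [h1]; linarith
    exact (abs_le_of_sq_le_sq' h2 hρ0.le).2
  have e7 : u w ≤ u a + m := by
    have := hum w a hw ha e6
    have := (abs_le.1 this).2
    linarith
  have e8 : (R - r) * c < u a + m + τ := by
    have : (R - r) * c = R * c - r * c := by ring
    rw [this]; linarith
  have e9 : u a + (m + τ + 6 * κ * (U + m + τ)) ≤ R - r := by linarith
  have e10 : 0 ≤ R - r := by nlinarith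
  have e11 : (R - r) * (1 - 3 * κ) ≤ (R - r) * c := mul_le_mul_of_nonneg_left e5 e10
  have e12 : (u a + (m + τ + 6 * κ * (U + m + τ))) * (1 - 3 * κ) ≤ (R - r) * (1 - 3 * κ) :=
    mul_le_mul_of_nonneg_right e9 (by linarith)
  have e13 : 3 * κ * (u a + m + τ) ≤ 3 * (κ * (U + m + τ)) := by
    have : κ * (u a + m + τ) ≤ κ * (U + m + τ) := mul_le_mul_of_nonneg_left (by linarith) hκ0
    linarith
  have e14 : κ * (κ * (U + m + τ)) ≤ 1 / 16 * (κ * (U + m + τ)) :=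
    mul_le_mul_of_nonneg_right hκ hks
  nlinarith

theorem planar_lower (Q L : Set ℂ) (u : ℂ → ℝ) {κ U m τ ρ : ℝ}
    (hQ : IsCompact Q) (hQc : Convex ℝ Q) (hL : IsCompact L) (hLc : Convex ℝ L) (hLQ : L ⊆ Q)
    (hκ : κ ≤ 1 / 16) (hU : 0 ≤ U) (hm : 0 ≤ m) (hτ : 0 ≤ τ) (hUmτ : U + m + τ ≤ κ)
    (hρ0 : 0 < ρ) (hρ : 16 * κ ≤ ρ ^ 2)
    (h1 : ∀ w z : ℂ, ‖w‖ = 1 → z ∈ Q → dotc w z ≤ 1 + κ)
    (h2 : ∀ w : ℂ, ‖w‖ = 1 → ∃ z ∈ Q, 1 - κ ≤ dotc w z)
    (hu0 : ∀ w : ℂ, ‖w‖ = 1 → 0 ≤ u w) (huU : ∀ w : ℂ, ‖w‖ = 1 → u w ≤ U)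
    (hum : ∀ w w' : ℂ, ‖w‖ = 1 → ‖w'‖ = 1 → ‖w - w'‖ ≤ ρ → |u w - u w'| ≤ m)
    (huc : Continuous fun t : ℝ => u (Complex.exp (t * Complex.I)))
    (h4 : ∀ w : ℂ, ‖w‖ = 1 → ∃ y ∈ L, ∀ z ∈ Q, dotc w z - u w - τ ≤ dotc w y) :
    (volume Q).toReal - (∫ t in (-π)..π, u (Complex.exp (t * Complex.I))) -
      50 * (m + τ + κ * U) ≤ (volume L).toReal := by
  have hκ0 : 0 ≤ κ := by linarith
  have hN : NearDisc Q κ := ⟨hQ, hQc, hκ0, hκ, h1, h2⟩
  set err : ℝ := m + τ + 6 * κ * (U + m + τ) with herr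
  have hks : 0 ≤ κ * (U + m + τ) := mul_nonneg hκ0 (by linarith)
  have hks2 : κ * (U + m + τ) ≤ 1 / 16 * (U + m + τ) :=
    mul_le_mul_of_nonneg_right hκ (by linarith)
  have herr0 : 0 ≤ err := by rw [herr]; nlinarith
  have herr1 : err ≤ 1 / 4 := by rw [herr]; nlinarith
  set f : ℂ → ℝ := fun w => rad Q w - u w - err with hf
  have hf0 : ∀ w : ℂ, ‖w‖ = 1 → 0 ≤ f w := by
    intro w hw
    have e1 := (rad_bounds hN hw).1
    have e2 := huU w hw
    simp only [hf]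
    linarith
  have hf2 : ∀ w : ℂ, ‖w‖ = 1 → f w ≤ 2 := by
    intro w hw
    have e1 := (rad_bounds hN hw).2
    have e2 := hu0 w hw
    simp only [hf]
    linarith
  have hfc : Continuous fun t : ℝ => f (Complex.exp (t * Complex.I)) := by
    simp only [hf]
    exact ((continuous_rad hN).sub huc).sub continuous_const
  have hreg := volume_region_real f hfc.measurable hf0 hf2
  have hsub : {z : ℂ | ‖z‖ ≤ f (Complex.exp (z.arg * Complex.I))} ⊆ L := by
    intro z hz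
    have hz' : ‖z‖ ≤ f (Complex.exp (z.arg * Complex.I)) := hz
    have ha : ‖Complex.exp (z.arg * Complex.I)‖ = 1 := Complex.norm_exp_ofReal_mul_I _
    have := region_mem Q L u hN hL hLc hU hm hτ hUmτ hρ0 hρ hu0 huU hum h4 ha (norm_nonneg z)
      (by simpa only [hf, herr] using hz')
    rwa [Complex.norm_mul_exp_arg_mul_I] at this
  have hvol : (volume {z : ℂ | ‖z‖ ≤ f (Complex.exp (z.arg * Complex.I))}).toReal ≤
      (volume L).toReal :=
    ENNReal.toReal_mono hL.measure_lt_top.ne (measure_mono hsub)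
  rw [hreg] at hvol
  refine le_trans ?_ hvol
  rw [volume_rad hN]
  set K : ℝ := 15 / 2 * (m + τ + κ * U) with hK
  have hK0 : 0 ≤ m + τ + κ * U := by nlinarith [mul_nonneg hκ0 hU]
  have hrc := continuous_rad hN
  have hi1 : IntervalIntegrable (fun t : ℝ => rad Q (Complex.exp (t * Complex.I)) ^ 2 / 2)
      volume (-π) π := ((hrc.pow 2).div_const 2).intervalIntegrable _ _
  have hi2 : IntervalIntegrable (fun t : ℝ => u (Complex.exp (t * Complex.I)))
      volume (-π) π := huc.intervalIntegrable _ _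
  have hi3 : IntervalIntegrable (fun t : ℝ => f (Complex.exp (t * Complex.I)) ^ 2 / 2)
      volume (-π) π := ((hfc.pow 2).div_const 2).intervalIntegrable _ _
  have hi4 : IntervalIntegrable (fun _ : ℝ => K) volume (-π) π :=
    continuous_const.intervalIntegrable _ _
  have hpi : -π ≤ π := by linarith [Real.pi_pos]
  have key : (∫ t in (-π)..π, (rad Q (Complex.exp (t * Complex.I)) ^ 2 / 2 -
      u (Complex.exp (t * Complex.I)) - K)) ≤
      ∫ t in (-π)..π, f (Complex.exp (t * Complex.I)) ^ 2 / 2 := by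
    refine intervalIntegral.integral_mono_on hpi ((hi1.sub hi2).sub hi4) hi3 ?_
    intro t _
    have ha : ‖Complex.exp ((t : ℂ) * Complex.I)‖ = 1 := Complex.norm_exp_ofReal_mul_I _
    obtain ⟨e1, e2⟩ := rad_bounds hN ha
    have e3 := hu0 _ ha
    have e4 := huU _ ha
    simp only [hf]
    set R := rad Q (Complex.exp ((t : ℂ) * Complex.I))
    set v := u (Complex.exp ((t : ℂ) * Complex.I))
    have hx0 : 0 ≤ v + err := by linarith
    have s1 : R * (v + err) ≤ (1 + κ) * (v + err) := mul_le_mul_of_nonneg_right e2 hx0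
    have s2 : κ * v ≤ κ * U := mul_le_mul_of_nonneg_left e4 hκ0
    have s3 : κ * err ≤ 1 / 16 * err := mul_le_mul_of_nonneg_right hκ herr0
    have s4 : κ * (m + τ) ≤ 1 / 16 * (m + τ) := mul_le_mul_of_nonneg_right hκ (by linarith)
    have s5 : R ^ 2 / 2 - (R - v - err) ^ 2 / 2 = R * (v + err) - (v + err) ^ 2 / 2 := by ring
    have s6 : 0 ≤ (v + err) ^ 2 / 2 := by positivity
    have s7 : err = m + τ + 6 * (κ * U) + 6 * (κ * (m + τ)) := by rw [herr]; ring
    have s8 : 0 ≤ κ * U := mul_nonneg hκ0 hU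
    have s9 : (1 + κ) * (v + err) ≤ v + K := by
      have : (1 + κ) * (v + err) = v + κ * v + err + κ * err := by ring
      rw [this, hK]
      linarith
    linarith
  have hsplit : (∫ t in (-π)..π, (rad Q (Complex.exp (t * Complex.I)) ^ 2 / 2 -
      u (Complex.exp (t * Complex.I)) - K)) =
      (∫ t in (-π)..π, rad Q (Complex.exp (t * Complex.I)) ^ 2 / 2) -
      (∫ t in (-π)..π, u (Complex.exp (t * Complex.I))) - (π - -π) * K := by
    rw [intervalIntegral.integral_sub (hi1.sub hi2) hi4, intervalIntegral.integral_sub hi1 hi2,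
      intervalIntegral.integral_const, smul_eq_mul]
  rw [hsplit] at key
  have hpi2 : π < 3.15 := Real.pi_lt_d2
  have h50 : (π - -π) * K ≤ 50 * (m + τ + κ * U) := by
    have : (π - -π) * K = 15 * π * (m + τ + κ * U) := by rw [hK]; ring
    rw [this]
    exact mul_le_mul_of_nonneg_right (by linarith) hK0
  linarith

end Pool.Agent.Helper85.BD
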