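import Pool.Agent.Helper85.BD.Supp

/-!
# MP_8ad3e9_gt, project BD: the support functions of the sections of a body close to the ball

`e`, `v` are orthonormal, `supp K` is `1` up to `κ` on the unit sphere and
`supp K (tilt v e l) = supp K v + ε l D` up to `τ ε |l|` for `|l| ≤ ρ`.
Since `supp K (v + l e) = sqrt (1 + l²) * supp K (tilt v e l)`, for `|l| ≤ ρ`
`supp K (v + l e) - l t = supp K v + (sqrt (1 + l²) - 1) * supp K (tilt v e l)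
   + (supp K (tilt v e l) - supp K v) - l t`.

UPPER: for `y ∈ K`, `⟪e, y⟫ = t`: `⟪v, y⟫ = ⟪v + l e, y⟫ - l t ≤ supp K (v + l e) - l t`; take
`l = t - ε D` (`|l| ≤ 4 B ε ≤ ρ`), use `sqrt (1 + l²) - 1 ≤ l² / 2`.
FAR: for `3 B ε ≤ |t|` take `l = 2 B ε` times the sign of `t`.
LOWER: use `exists_section` and `exists_mem_section`. For `|l| ≤ ρ`:
`sqrt (1 + l²) - 1 ≥ l² / 2 - l⁴ / 8 ≥ l² / 2 - ρ² l² / 8`, so with `s = t - ε D`, `κ' = κ + ρ² / 4`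
the value is at least `supp K v + l² / 2 * (1 - κ') - |l| (|s| + τ ε)
  ≥ supp K v - (|s| + τ ε)² / (2 (1 - κ'))`. For `|l| ≥ ρ`: `sqrt (1 + l²) ≥ 1 + ρ |l| / 3`, so the
value is at least `(1 - κ) (1 + ρ |l| / 3) - 3 B ε |l| ≥ 1 - κ + ρ² / 6 ≥ 1 + κ ≥ supp K v`.
-/

set_option autoImplicit false

open MeasureTheory Set
open scoped MeasureTheory Real

namespace Pool.Agent.Helper85.BD

theorem norm_tilt {v e : E3} (he : ‖e‖ = 1) (hv : ‖v‖ = 1) (hev : (inner ℝ e v : ℝ) = 0) (l : ℝ) :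
    ‖tilt v e l‖ = 1 := by
  have hve : (inner ℝ v e : ℝ) = 0 := by rw [real_inner_comm]; exact hev
  have h1 : ‖v + l • e‖ ^ 2 = 1 + l ^ 2 := by
    rw [norm_add_sq_real, inner_smul_right, hve, norm_smul, hv, he, Real.norm_eq_abs]
    rw [mul_one, sq_abs]
    ring
  have h2 : ‖v + l • e‖ = Real.sqrt (1 + l ^ 2) := by
    rw [← h1, Real.sqrt_sq (norm_nonneg _)]
  have h3 : 0 < Real.sqrt (1 + l ^ 2) := Real.sqrt_pos.mpr (by positivity)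
  rw [tilt, norm_smul, h2, Real.norm_eq_abs, abs_of_pos (inv_pos.mpr h3), inv_mul_cancel₀ h3.ne']

theorem supp_add_smul {K : Set E3} (hK : IsCompact K) (hne : K.Nonempty) (v e : E3) (l : ℝ) :
    supp K (v + l • e) = Real.sqrt (1 + l ^ 2) * supp K (tilt v e l) := by
  have h3 : 0 < Real.sqrt (1 + l ^ 2) := Real.sqrt_pos.mpr (by positivity)
  rw [← supp_smul hK hne h3.le, tilt, smul_smul, mul_inv_cancel₀ h3.ne', one_smul]

private theorem sqrt_up (l : ℝ) : Real.sqrt (1 + l ^ 2) ≤ 1 + l ^ 2 / 2 := by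
  apply Real.sqrt_le_iff.mpr
  constructor
  · positivity
  · nlinarith [sq_nonneg (l ^ 2)]

private theorem one_le_sqrt (l : ℝ) : 1 ≤ Real.sqrt (1 + l ^ 2) := by
  apply Real.le_sqrt_of_sq_le
  nlinarith [sq_nonneg l]

private theorem val_upper {K : Set E3} (hK : IsCompact K) (hne : K.Nonempty) {e v : E3}
    (he : ‖e‖ = 1) (hv : ‖v‖ = 1) (hev : (inner ℝ e v : ℝ) = 0) {ε κ τ ρ D : ℝ} (hκ : 0 ≤ κ)
    (g1 : ∀ u : E3, ‖u‖ = 1 → |supp K u - 1| ≤ κ)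
    (g2 : ∀ l : ℝ, |l| ≤ ρ → |supp K (tilt v e l) - supp K v - ε * l * D| ≤ τ * ε * |l|)
    {l : ℝ} (hl : |l| ≤ ρ) {y : E3} (hy : y ∈ K) {t : ℝ} (hyt : (inner ℝ e y : ℝ) = t) :
    (inner ℝ v y : ℝ) ≤ supp K v + l ^ 2 / 2 * (1 + κ) - l * (t - ε * D) + τ * ε * |l| := by
  have h1 := le_supp hK hy (v + l • e)
  rw [inner_add_left, inner_smul_left, hyt, supp_add_smul hK hne] at h1
  simp only [conj_trivial] at h1
  have h2 := (abs_le.mp (g1 _ (norm_tilt he hv hev l))).2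
  have h3 := (abs_le.mp (g2 l hl)).2
  have h4 := sqrt_up l
  have h5 := one_le_sqrt l
  set S := Real.sqrt (1 + l ^ 2)
  set T := supp K (tilt v e l)
  have h6 : (S - 1) * T ≤ (S - 1) * (1 + κ) :=
    mul_le_mul_of_nonneg_left (by linarith) (by linarith)
  have h7 : (S - 1) * (1 + κ) ≤ l ^ 2 / 2 * (1 + κ) :=
    mul_le_mul_of_nonneg_right (by linarith) (by linarith)
  nlinarith

theorem sec_upper {K : Set E3} (hK : IsCompact K) (hne : K.Nonempty) {e v : E3} (he : ‖e‖ = 1)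
    (hv : ‖v‖ = 1) (hev : (inner ℝ e v : ℝ) = 0) {ε κ τ B ρ D : ℝ} (hε : 0 ≤ ε) (hκ : 0 ≤ κ)
    (hτ : 0 ≤ τ) (hB : 0 ≤ B) (hρ : 4 * B * ε ≤ ρ)
    (g1 : ∀ u : E3, ‖u‖ = 1 → |supp K u - 1| ≤ κ) (hD : |D| ≤ B)
    (g2 : ∀ l : ℝ, |l| ≤ ρ → |supp K (tilt v e l) - supp K v - ε * l * D| ≤ τ * ε * |l|)
    {t : ℝ} (ht : |t| ≤ 3 * B * ε) {y : E3} (hy : y ∈ K) (hyt : (inner ℝ e y : ℝ) = t) :
    (inner ℝ v y : ℝ) ≤ supp K v - (t - ε * D) ^ 2 / 2 + ε ^ 2 * errS B κ ρ τ := by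
  have hs : |t - ε * D| ≤ 4 * B * ε := by
    have h1 : |ε * D| ≤ B * ε := by
      rw [abs_mul, abs_of_nonneg hε, mul_comm]
      exact mul_le_mul_of_nonneg_right hD hε
    calc |t - ε * D| ≤ |t| + |ε * D| := abs_sub _ _
      _ ≤ 4 * B * ε := by linarith
  have h1 := val_upper hK hne he hv hev hκ g1 g2 (l := t - ε * D) (hs.trans hρ) hy hyt
  set s := t - ε * D
  have h2 : s ^ 2 ≤ (4 * B * ε) ^ 2 := by
    rw [← sq_abs s]
    exact pow_le_pow_left₀ (abs_nonneg _) hs 2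
  have h3 : κ * s ^ 2 ≤ κ * (4 * B * ε) ^ 2 := mul_le_mul_of_nonneg_left h2 hκ
  have h4 : τ * ε * |s| ≤ τ * ε * (4 * B * ε) := mul_le_mul_of_nonneg_left hs (by positivity)
  have h5 : 0 ≤ B ^ 2 * ε ^ 2 * κ := by positivity
  have h6 : 0 ≤ B ^ 2 * ε ^ 2 * ρ ^ 2 := by positivity
  have h7 : 0 ≤ τ * ε * (B * ε) := by positivity
  have h8 : 0 ≤ ε ^ 2 * τ ^ 2 := by positivity
  have h9 : ε ^ 2 * errS B κ ρ τ = 16 * (B ^ 2 * ε ^ 2 * κ) + 16 * (B ^ 2 * ε ^ 2 * ρ ^ 2)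
      + 8 * (τ * ε * (B * ε)) + ε ^ 2 * τ ^ 2 := by
    unfold errS
    ring
  rw [h9]
  nlinarith

theorem sec_far {K : Set E3} (hK : IsCompact K) (hne : K.Nonempty) {e v : E3} (he : ‖e‖ = 1)
    (hv : ‖v‖ = 1) (hev : (inner ℝ e v : ℝ) = 0) {ε κ τ B ρ D : ℝ} (hε : 0 ≤ ε) (hκ : 0 ≤ κ)
    (hτ : 0 ≤ τ) (hB : 0 ≤ B) (hρ : 4 * B * ε ≤ ρ)
    (g1 : ∀ u : E3, ‖u‖ = 1 → |supp K u - 1| ≤ κ) (hD : |D| ≤ B)
    (g2 : ∀ l : ℝ, |l| ≤ ρ → |supp K (tilt v e l) - supp K v - ε * l * D| ≤ τ * ε * |l|)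
    {t : ℝ} (ht : 3 * B * ε ≤ |t|) {y : E3} (hy : y ∈ K) (hyt : (inner ℝ e y : ℝ) = t) :
    (inner ℝ v y : ℝ) ≤ supp K v - 2 * B ^ 2 * ε ^ 2 + ε ^ 2 * errS B κ ρ τ := by
  have hBε : 0 ≤ B * ε := mul_nonneg hB hε
  have h5 : 0 ≤ B ^ 2 * ε ^ 2 * κ := by positivity
  have h6 : 0 ≤ B ^ 2 * ε ^ 2 * ρ ^ 2 := by positivity
  have h7 : 0 ≤ τ * ε * (B * ε) := by positivity
  have h8 : 0 ≤ ε ^ 2 * τ ^ 2 := by positivity
  have h9 : ε ^ 2 * errS B κ ρ τ = 16 * (B ^ 2 * ε ^ 2 * κ) + 16 * (B ^ 2 * ε ^ 2 * ρ ^ 2)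
      + 8 * (τ * ε * (B * ε)) + ε ^ 2 * τ ^ 2 := by
    unfold errS
    ring
  rw [h9]
  have hD' := abs_le.mp hD
  have hab : |2 * B * ε| = 2 * B * ε := abs_of_nonneg (by positivity)
  have hab' : |-(2 * B * ε)| = 2 * B * ε := by rw [abs_neg, hab]
  rcases le_total 0 t with h0 | h0
  · rw [abs_of_nonneg h0] at ht
    have hl : |2 * B * ε| ≤ ρ := by rw [hab]; nlinarith
    have h1 := val_upper hK hne he hv hev hκ g1 g2 (l := 2 * B * ε) hl hy hyt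
    rw [hab] at h1
    have h2 : (2 * B * ε) * (3 * B * ε) ≤ (2 * B * ε) * t :=
      mul_le_mul_of_nonneg_left ht (by positivity)
    have h3 : (2 * B * ε) * (ε * D) ≤ (2 * B * ε) * (ε * B) :=
      mul_le_mul_of_nonneg_left (mul_le_mul_of_nonneg_left hD'.2 hε) (by positivity)
    nlinarith
  · rw [abs_of_nonpos h0] at ht
    have hl : |-(2 * B * ε)| ≤ ρ := by rw [hab']; nlinarith
    have h1 := val_upper hK hne he hv hev hκ g1 g2 (l := -(2 * B * ε)) hl hy hyt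
    rw [hab'] at h1
    have h2 : (2 * B * ε) * (3 * B * ε) ≤ (2 * B * ε) * (-t) :=
      mul_le_mul_of_nonneg_left ht (by positivity)
    have h3 : (2 * B * ε) * (ε * (-D)) ≤ (2 * B * ε) * (ε * B) :=
      mul_le_mul_of_nonneg_left (mul_le_mul_of_nonneg_left (by linarith [hD'.1]) hε)
        (by positivity)
    nlinarith

private theorem sqrt_low {l : ℝ} (hl : |l| ≤ 1) :
    1 + l ^ 2 / 2 - l ^ 4 / 8 ≤ Real.sqrt (1 + l ^ 2) := by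
  apply Real.le_sqrt_of_sq_le
  have h1 : l ^ 2 ≤ 1 := by
    rw [← sq_abs]
    exact pow_le_one₀ (abs_nonneg _) hl
  have h2 : 0 ≤ l ^ 2 := sq_nonneg l
  have h3 : (1 + l ^ 2 / 2 - l ^ 4 / 8) ^ 2
      = 1 + l ^ 2 - (l ^ 2) ^ 3 / 8 + (l ^ 2) ^ 4 / 64 := by ring
  rw [h3]
  have h4 : (l ^ 2) ^ 4 ≤ (l ^ 2) ^ 3 := pow_le_pow_of_le_one h2 h1 (by norm_num)
  have h5 : 0 ≤ (l ^ 2) ^ 3 := by positivity
  linarith

private theorem sqrt_far {l ρ : ℝ} (hρ0 : 0 < ρ) (hρ1 : ρ ≤ 1) (hl : ρ ≤ |l|) :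
    1 + ρ * |l| / 3 ≤ Real.sqrt (1 + l ^ 2) := by
  apply Real.le_sqrt_of_sq_le
  rw [← sq_abs l]
  set a := |l|
  have ha : 0 < a := lt_of_lt_of_le hρ0 hl
  have h1 : ρ * a ≤ a * a := mul_le_mul_of_nonneg_right hl ha.le
  have h2 : ρ ^ 2 * a ^ 2 ≤ 1 * a ^ 2 := mul_le_mul_of_nonneg_right (by nlinarith) (sq_nonneg a)
  nlinarith

theorem sec_lower {K : Set E3} (hK : IsCompact K) (hc : Convex ℝ K) (hne : K.Nonempty) {e v : E3}
    (he : ‖e‖ = 1) (hv : ‖v‖ = 1) (hev : (inner ℝ e v : ℝ) = 0) {ε κ τ B ρ D : ℝ} (hε : 0 ≤ ε)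
    (hκ : 0 ≤ κ) (hκρ : 16 * κ ≤ ρ ^ 2) (hρ1 : ρ ≤ 1) (hρ0 : 0 < ρ) (hτ : 0 ≤ τ) (hB : 1 ≤ B)
    (hρ : 24 * B * ε ≤ ρ) (g1 : ∀ u : E3, ‖u‖ = 1 → |supp K u - 1| ≤ κ) (hD : |D| ≤ B)
    (g2 : ∀ l : ℝ, |l| ≤ ρ → |supp K (tilt v e l) - supp K v - ε * l * D| ≤ τ * ε * |l|)
    {t : ℝ} (ht : |t| ≤ 3 * B * ε) :
    ∃ y ∈ K, (inner ℝ e y : ℝ) = t ∧
      supp K v - (t - ε * D) ^ 2 / 2 - ε ^ 2 * errS B κ ρ τ ≤ (inner ℝ v y : ℝ) := by
  have hρ2 : ρ ^ 2 ≤ 1 := pow_le_one₀ hρ0.le hρ1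
  have hκ1 : κ ≤ 1 / 16 := by linarith
  have hBε : 0 ≤ B * ε := mul_nonneg (by linarith) hε
  have hne' : ∃ x ∈ K, (inner ℝ e x : ℝ) = t := by
    refine exists_mem_section hK hc hne (κ := κ) ?_ ?_ ?_
    · have := (abs_le.mp (g1 e he)).1
      linarith
    · have := (abs_le.mp (g1 (-e) (by rw [norm_neg]; exact he))).1
      linarith
    · nlinarith
  refine exists_section hK hc hne' ?_
  have hs : |t - ε * D| ≤ 4 * B * ε := by
    have h1 : |ε * D| ≤ B * ε := by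
      rw [abs_mul, abs_of_nonneg hε, mul_comm]
      exact mul_le_mul_of_nonneg_right hD hε
    calc |t - ε * D| ≤ |t| + |ε * D| := abs_sub _ _
      _ ≤ 4 * B * ε := by linarith
  have h5 : 0 ≤ B ^ 2 * ε ^ 2 * κ := by positivity
  have h6 : 0 ≤ B ^ 2 * ε ^ 2 * ρ ^ 2 := by positivity
  have h7 : 0 ≤ τ * ε * (B * ε) := by positivity
  have h8 : 0 ≤ ε ^ 2 * τ ^ 2 := by positivity
  have h9 : ε ^ 2 * errS B κ ρ τ = 16 * (B ^ 2 * ε ^ 2 * κ) + 16 * (B ^ 2 * ε ^ 2 * ρ ^ 2)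
      + 8 * (τ * ε * (B * ε)) + ε ^ 2 * τ ^ 2 := by
    unfold errS
    ring
  intro l
  rw [h9, supp_add_smul hK hne]
  have hT := abs_le.mp (g1 _ (norm_tilt he hv hev l))
  have hT1 := hT.1
  have hv1 := (abs_le.mp (g1 v hv)).2
  rcases le_total |l| ρ with hl | hl
  · have h3 := (abs_le.mp (g2 l hl)).1
    have h4 := sqrt_low (hl.trans hρ1)
    set S := Real.sqrt (1 + l ^ 2)
    set T := supp K (tilt v e l)
    have hl2 : l ^ 2 ≤ ρ ^ 2 := by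
      rw [← sq_abs]
      exact pow_le_pow_left₀ (abs_nonneg _) hl 2
    have hl0 : 0 ≤ l ^ 2 := sq_nonneg l
    have ha : l ^ 2 / 2 * (1 - ρ ^ 2 / 4) ≤ S - 1 := by nlinarith
    have hb0 : 0 ≤ l ^ 2 / 2 * (1 - ρ ^ 2 / 4) := by
      apply mul_nonneg (by positivity)
      linarith
    have hb : l ^ 2 / 2 * (1 - ρ ^ 2 / 4) * (1 - κ) ≤ (S - 1) * T := by
      calc l ^ 2 / 2 * (1 - ρ ^ 2 / 4) * (1 - κ) ≤ l ^ 2 / 2 * (1 - ρ ^ 2 / 4) * T :=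
            mul_le_mul_of_nonneg_left (by linarith) hb0
        _ ≤ (S - 1) * T := mul_le_mul_of_nonneg_right ha (by linarith)
    have hc' : l ^ 2 / 2 * (1 - (κ + ρ ^ 2 / 4)) ≤ l ^ 2 / 2 * (1 - ρ ^ 2 / 4) * (1 - κ) := by
      have : 0 ≤ l ^ 2 / 2 * (ρ ^ 2 / 4 * κ) := by positivity
      nlinarith
    have hls : l * (t - ε * D) ≤ |l| * |t - ε * D| := by
      rw [← abs_mul]
      exact le_abs_self _
    set s := t - ε * D with hsdef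
    set k := κ + ρ ^ 2 / 4 with hk
    have hk0 : 0 ≤ k := by positivity
    have hk1 : k ≤ 5 / 16 := by linarith
    set A := |s| + τ * ε with hA
    have hA0 : 0 ≤ A := by positivity
    have hval : supp K v + l ^ 2 / 2 * (1 - k) - |l| * A ≤ S * T - l * t := by
      have e1 : S * T - l * t = (S - 1) * T + (T - supp K v - ε * l * D) + supp K v - l * s := by
        rw [hsdef]; ring
      rw [e1, hA]
      nlinarith
    -- complete the square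
    have hsq : l ^ 2 / 2 * (1 - k) - |l| * A ≥ -(A ^ 2 / 2 * (1 + 2 * k)) := by
      rw [← sq_abs l]
      set a := |l|
      have ha0 : 0 ≤ a := abs_nonneg l
      have e2 : 1 ≤ (1 - k) * (1 + 2 * k) := by nlinarith
      have e3 : 0 < 1 - k := by linarith
      have e4 : 0 ≤ ((1 - k) * a - A) ^ 2 := sq_nonneg _
      have e5 : A ^ 2 ≤ A ^ 2 * ((1 - k) * (1 + 2 * k)) := by
        nlinarith [sq_nonneg A]
      have e6 : 0 ≤ (1 - k) * (a ^ 2 / 2 * (1 - k) - a * A + A ^ 2 / 2 * (1 + 2 * k)) := by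
        nlinarith
      have e7 := nonneg_of_mul_nonneg_right e6 e3
      linarith
    have hs2 : |s| ^ 2 ≤ (4 * B * ε) ^ 2 := pow_le_pow_left₀ (abs_nonneg _) hs 2
    have hA2 : A ^ 2 / 2 * (1 + 2 * k) ≤ s ^ 2 / 2 + (16 * (B ^ 2 * ε ^ 2 * κ)
        + 16 * (B ^ 2 * ε ^ 2 * ρ ^ 2) + 8 * (τ * ε * (B * ε)) + ε ^ 2 * τ ^ 2) := by
      have f1 : A ^ 2 / 2 * (1 + 2 * k) = |s| ^ 2 / 2 + k * |s| ^ 2
          + (1 + 2 * k) * (τ * ε * |s|) + (1 / 2 + k) * (ε ^ 2 * τ ^ 2) := by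
        rw [hA]; ring
      rw [f1, sq_abs]
      have f2 : k * s ^ 2 ≤ k * (4 * B * ε) ^ 2 := by
        rw [← sq_abs s]
        exact mul_le_mul_of_nonneg_left hs2 hk0
      have f3 : k * (4 * B * ε) ^ 2 = 16 * (B ^ 2 * ε ^ 2 * κ) + 4 * (B ^ 2 * ε ^ 2 * ρ ^ 2) := by
        rw [hk]; ring
      have f4 : τ * ε * |s| ≤ τ * ε * (4 * B * ε) := mul_le_mul_of_nonneg_left hs (by positivity)
      have f5 : (1 + 2 * k) * (τ * ε * |s|) ≤ (1 + 2 * k) * (τ * ε * (4 * B * ε)) :=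
        mul_le_mul_of_nonneg_left f4 (by positivity)
      have f6 : (1 + 2 * k) * (τ * ε * (4 * B * ε)) ≤ 8 * (τ * ε * (B * ε)) := by
        have : (1 + 2 * k) * 4 * (τ * ε * (B * ε)) ≤ 8 * (τ * ε * (B * ε)) :=
          mul_le_mul_of_nonneg_right (by linarith) h7
        linarith
      have f7 : (1 / 2 + k) * (ε ^ 2 * τ ^ 2) ≤ 1 * (ε ^ 2 * τ ^ 2) :=
        mul_le_mul_of_nonneg_right (by linarith) h8
      linarith
    linarith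
  · have h4 := sqrt_far hρ0 hρ1 hl
    set S := Real.sqrt (1 + l ^ 2)
    set T := supp K (tilt v e l)
    set a := |l| with ha
    have ha0 : 0 < a := lt_of_lt_of_le hρ0 hl
    have hb : (1 + ρ * a / 3) * (1 - κ) ≤ S * T := by
      calc (1 + ρ * a / 3) * (1 - κ) ≤ (1 + ρ * a / 3) * T :=
            mul_le_mul_of_nonneg_left (by linarith) (by positivity)
        _ ≤ S * T := mul_le_mul_of_nonneg_right h4 (by linarith)
    have hlt : l * t ≤ a * (ρ / 8) := by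
      calc l * t ≤ |l * t| := le_abs_self _
        _ = a * |t| := by rw [abs_mul]
        _ ≤ a * (ρ / 8) := mul_le_mul_of_nonneg_left (by nlinarith) ha0.le
    have hρa : ρ * ρ ≤ ρ * a := mul_le_mul_of_nonneg_left hl hρ0.le
    have hκa : κ * (ρ * a) ≤ 1 / 16 * (ρ * a) :=
      mul_le_mul_of_nonneg_right hκ1 (by positivity)
    have hsn : 0 ≤ (t - ε * D) ^ 2 := sq_nonneg _
    nlinarith

end Pool.Agent.Helper85.BD
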