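import Pool.Agent.Helper85.BD.PlanUp
import Pool.Agent.Helper85.BD.PlanLow
import Pool.Agent.Helper85.BD.Vari
import Pool.Agent.Helper85.BD.Haus
import Pool.Agent.Helper85.BD.Sect

/-!
# MP_8ad3e9_gt, project BD: the difference of the projection area and the maximal section area
-/

set_option autoImplicit false

open MeasureTheory Set
open scoped MeasureTheory Real

namespace Pool.Agent.Helper85.BD

/-- The constant `c` converts areas of the complex plane to Hausdorff measures. -/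
def IsHaus (c : ENNReal) : Prop := c ≠ 0 ∧ c ≠ ⊤ ∧
    ∀ (b : OrthonormalBasis (Fin 3) ℝ E3) (t : ℝ) (S : Set ℂ),
      (μH[2] : Measure E3) ((fun z : ℂ => t • b 0 + pt b z) '' S) = c * volume S

private theorem continuous_crd (b : OrthonormalBasis (Fin 3) ℝ E3) : Continuous (crd b) := by
  have h : crd b = fun x : E3 => ((inner ℝ (b 1) x : ℝ) : ℂ) +
      ((inner ℝ (b 2) x : ℝ) : ℂ) * Complex.I := by
    funext x
    apply Complex.ext <;> simp [crd]
  rw [h]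
  fun_prop

private theorem isLinear_crd (b : OrthonormalBasis (Fin 3) ℝ E3) : IsLinearMap ℝ (crd b) := by
  constructor
  · intro x y
    apply Complex.ext <;> simp [crd, inner_add_right]
  · intro c x
    apply Complex.ext <;> simp [crd, inner_smul_right]

private theorem norm_pt (b : OrthonormalBasis (Fin 3) ℝ E3) {w : ℂ} (hw : ‖w‖ = 1) :
    ‖pt b w‖ = 1 := by
  have h11 : inner ℝ (b 1) (b 1) = (1 : ℝ) := by
    rw [real_inner_self_eq_norm_sq, b.norm_eq_one, one_pow]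
  have h22 : inner ℝ (b 2) (b 2) = (1 : ℝ) := by
    rw [real_inner_self_eq_norm_sq, b.norm_eq_one, one_pow]
  have h12 : inner ℝ (b 1) (b 2) = (0 : ℝ) := b.orthonormal.inner_eq_zero (by decide)
  have h21 : inner ℝ (b 2) (b 1) = (0 : ℝ) := b.orthonormal.inner_eq_zero (by decide)
  have h1 : ‖pt b w‖ ^ 2 = 1 := by
    rw [← real_inner_self_eq_norm_sq]
    unfold pt
    rw [inner_add_left, inner_add_right, inner_add_right, inner_smul_left, inner_smul_left,
      inner_smul_left, inner_smul_left, inner_smul_right, inner_smul_right, inner_smul_right,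
      inner_smul_right, h11, h22, h12, h21]
    have h3 : ‖w‖ ^ 2 = 1 := by rw [hw, one_pow]
    rw [Complex.sq_norm, Complex.normSq_apply] at h3
    simp
    linarith
  have h2 : 0 ≤ ‖pt b w‖ := norm_nonneg _
  nlinarith

private theorem inner_pt (b : OrthonormalBasis (Fin 3) ℝ E3) (w : ℂ) :
    (inner ℝ (b 0) (pt b w) : ℝ) = 0 := by
  have h1 : inner ℝ (b 0) (b 1) = (0 : ℝ) := b.orthonormal.inner_eq_zero (by decide)
  have h2 : inner ℝ (b 0) (b 2) = (0 : ℝ) := b.orthonormal.inner_eq_zero (by decide)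
  unfold pt
  rw [inner_add_right, inner_smul_right, inner_smul_right, h1, h2]
  simp

/-- The error terms. -/
private theorem err_bound {κ τ B ρ ε : ℝ} (hε : 0 ≤ ε) (hτ : 0 ≤ τ) (hτ1 : τ ≤ 1)
    (hρ1 : ρ ≤ 1) (hρ0 : 0 < ρ) (hB : 1 ≤ B) (hκ0 : 0 ≤ κ) (hκρ : 16 * κ ≤ ρ ^ 2) :
    50 * (4 * B * τ * ε ^ 2 + ε ^ 2 * errS B κ ρ τ + κ * (8 * B ^ 2 * ε ^ 2)) ≤
      1000 * B ^ 2 * (τ + ρ ^ 2) * ε ^ 2 ∧
    8 * B ^ 2 * ε ^ 2 + 4 * B * τ * ε ^ 2 + ε ^ 2 * errS B κ ρ τ ≤ 100 * B ^ 2 * ε ^ 2 ∧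
    0 ≤ errS B κ ρ τ := by
  have hB0 : 0 ≤ B := by linarith
  have hBB : B ≤ B ^ 2 := by nlinarith
  have hB2 : 1 ≤ B ^ 2 := by nlinarith
  have hρ2 : ρ ^ 2 ≤ 1 := by nlinarith
  have hττ : τ ^ 2 ≤ τ := by nlinarith
  have hBτ : B * τ ≤ B ^ 2 * τ := mul_le_mul_of_nonneg_right hBB hτ
  have hτB : τ ≤ B ^ 2 * τ := by nlinarith
  have hBκ : B ^ 2 * κ ≤ B ^ 2 * (ρ ^ 2 / 16) := by
    apply mul_le_mul_of_nonneg_left _ (by positivity)
    linarith
  have hBτ1 : B ^ 2 * τ ≤ B ^ 2 := by nlinarith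
  have hBρ : B ^ 2 * ρ ^ 2 ≤ B ^ 2 := by nlinarith [sq_nonneg B]
  have hε2 : 0 ≤ ε ^ 2 := by positivity
  unfold errS
  refine ⟨?_, ?_, by positivity⟩
  · have : 50 * (4 * B * τ + (16 * B ^ 2 * (κ + ρ ^ 2) + 8 * B * τ + τ ^ 2) +
        κ * (8 * B ^ 2)) ≤ 1000 * B ^ 2 * (τ + ρ ^ 2) := by
      have hρρ : 0 ≤ B ^ 2 * ρ ^ 2 := by positivity
      have hB2τ : 0 ≤ B ^ 2 * τ := by positivity
      nlinarith
    nlinarith
  · have : 8 * B ^ 2 + 4 * B * τ + (16 * B ^ 2 * (κ + ρ ^ 2) + 8 * B * τ + τ ^ 2) ≤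
        100 * B ^ 2 := by
      nlinarith
    nlinarith

theorem core {K : Set E3} (hK : IsCompact K) (hc : Convex ℝ K) (hne : K.Nonempty) {c : ENNReal}
    (hcH : IsHaus c) (b : OrthonormalBasis (Fin 3) ℝ E3) (D : ℂ → ℝ) {ε κ τ B ρ : ℝ}
    (hε : 0 ≤ ε) (hτ : 0 ≤ τ) (hτ1 : τ ≤ 1) (hρ0 : 0 < ρ) (hρ1 : ρ ≤ 1) (hB : 1 ≤ B)
    (hκρ : 16 * κ ≤ ρ ^ 2) (hερ : 24 * B * ε ≤ ρ) (hεκ : 100 * B ^ 2 * ε ^ 2 ≤ κ)
    (hDc : Continuous fun t : ℝ => D (Complex.exp (t * Complex.I)))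
    (hD : ∀ w : ℂ, ‖w‖ = 1 → |D w| ≤ B)
    (hDm : ∀ w w' : ℂ, ‖w‖ = 1 → ‖w'‖ = 1 → ‖w - w'‖ ≤ ρ → |D w - D w'| ≤ τ)
    (g1 : ∀ u : E3, ‖u‖ = 1 → |supp K u - 1| ≤ κ)
    (g2 : ∀ w : ℂ, ‖w‖ = 1 → ∀ l : ℝ, |l| ≤ ρ →
      |supp K (tilt (pt b w) (b 0) l) - supp K (pt b w) - ε * l * D w| ≤ τ * ε * |l|) :
    projArea K (b 0) ≠ ⊤ ∧ secArea K (b 0) ≠ ⊤ ∧
    |(projArea K (b 0)).toReal - (secArea K (b 0)).toReal -
      c.toReal * (π * ε ^ 2 * vari fun t => D (Complex.exp (t * Complex.I)))| ≤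
      c.toReal * (1000 * B ^ 2 * (τ + ρ ^ 2)) * ε ^ 2 := by
  obtain ⟨hc0, hct, hcH'⟩ := hcH
  have hB0 : 0 ≤ B := by linarith
  have hκ0 : 0 ≤ κ := le_trans (by positivity) hεκ
  have hρ2 : ρ ^ 2 ≤ 1 := by nlinarith
  have hκ16 : κ ≤ 1 / 16 := by linarith
  have hb0 : ‖b 0‖ = 1 := b.norm_eq_one 0
  have hε4 : 4 * B * ε ≤ ρ := by
    have : 0 ≤ B * ε := by positivity
    linarith
  obtain ⟨herr1, herr2, herr3⟩ := err_bound hε hτ hτ1 hρ1 hρ0 hB hκ0 hκρ
  have hε2 : 0 ≤ ε ^ 2 := by positivity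
  -- the shadow
  set Q : Set ℂ := crd b '' K with hQ
  have hQK : IsCompact Q := hK.image (continuous_crd b)
  have hQc : Convex ℝ Q := hc.is_linear_image (isLinear_crd b)
  have h1 : ∀ w z : ℂ, ‖w‖ = 1 → z ∈ Q → dotc w z ≤ 1 + κ := by
    rintro w _ hw ⟨x, hx, rfl⟩
    rw [dotc_crd]
    have h3 := le_supp hK hx (pt b w)
    have h4 := abs_le.1 (g1 (pt b w) (norm_pt b hw))
    linarith
  have h2 : ∀ w : ℂ, ‖w‖ = 1 → ∃ z ∈ Q, dotc w z = supp K (pt b w) := by
    intro w hw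
    obtain ⟨x, hx, hx2⟩ := exists_supp hK hne (pt b w)
    exact ⟨crd b x, ⟨x, hx, rfl⟩, by rw [dotc_crd, hx2]⟩
  have h2' : ∀ w : ℂ, ‖w‖ = 1 → ∃ z ∈ Q, 1 - κ ≤ dotc w z := by
    intro w hw
    obtain ⟨z, hz, hz2⟩ := h2 w hw
    have h4 := abs_le.1 (g1 (pt b w) (norm_pt b hw))
    exact ⟨z, hz, by linarith⟩
  -- the sections
  set L : ℝ → Set ℂ := fun t => crd b '' (K ∩ {x : E3 | (inner ℝ (b 0) x : ℝ) = t}) with hL
  have hLQ : ∀ t, L t ⊆ Q := fun t => image_mono inter_subset_left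
  have hfin : volume Q ≠ ⊤ := hQK.measure_lt_top.ne
  have hfinL : ∀ t, volume (L t) ≠ ⊤ := fun t =>
    (lt_of_le_of_lt (measure_mono (hLQ t)) hQK.measure_lt_top).ne
  set d : ℝ → ℝ := fun t => D (Complex.exp (t * Complex.I)) with hd
  have hunit : ∀ t : ℝ, ‖Complex.exp (t * Complex.I)‖ = 1 := fun t => Complex.norm_exp_ofReal_mul_I t
  have hdB : ∀ t, |d t| ≤ B := fun t => hD _ (hunit t)
  have hVle : vari d ≤ B ^ 2 := vari_le hDc hdB
  have hV0 : 0 ≤ vari d := vari_nonneg hDc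
  have hmean : |mean d| ≤ B := abs_mean_le hDc hdB
  set E : ℝ := 1000 * B ^ 2 * (τ + ρ ^ 2) * ε ^ 2 with hE
  -- properties of the functions `u`
  have hu : ∀ t : ℝ, |t| ≤ 3 * B * ε → (∀ w : ℂ, ‖w‖ = 1 → (t - ε * D w) ^ 2 / 2 ≤ 8 * B ^ 2 * ε ^ 2) ∧
      (∀ w w' : ℂ, ‖w‖ = 1 → ‖w'‖ = 1 → ‖w - w'‖ ≤ ρ →
        |(t - ε * D w) ^ 2 / 2 - (t - ε * D w') ^ 2 / 2| ≤ 4 * B * τ * ε ^ 2) := by
    intro t ht
    have hs : ∀ w : ℂ, ‖w‖ = 1 → |t - ε * D w| ≤ 4 * B * ε := by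
      intro w hw
      have h3 : |ε * D w| ≤ ε * B := by
        rw [abs_mul, abs_of_nonneg hε]
        exact mul_le_mul_of_nonneg_left (hD w hw) hε
      calc |t - ε * D w| ≤ |t| + |ε * D w| := abs_sub _ _
        _ ≤ 3 * B * ε + ε * B := add_le_add ht h3
        _ = 4 * B * ε := by ring
    constructor
    · intro w hw
      have h3 := hs w hw
      have h4 : (t - ε * D w) ^ 2 ≤ (4 * B * ε) ^ 2 := by
        rw [← sq_abs (t - ε * D w)]
        exact pow_le_pow_left₀ (abs_nonneg _) h3 2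
      nlinarith
    · intro w w' hw hw' hww
      have h3 := hs w hw
      have h4 := hs w' hw'
      have h5 := hDm w w' hw hw' hww
      have e1 : (t - ε * D w) ^ 2 / 2 - (t - ε * D w') ^ 2 / 2 =
          (ε * (D w' - D w)) * (((t - ε * D w) + (t - ε * D w')) / 2) := by ring
      rw [e1, abs_mul, abs_mul, abs_of_nonneg hε, abs_sub_comm]
      have h6 : |((t - ε * D w) + (t - ε * D w')) / 2| ≤ 4 * B * ε := by
        rw [abs_div, abs_of_pos (by norm_num : (0:ℝ) < 2)]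
        have := abs_add_le (t - ε * D w) (t - ε * D w')
        linarith
      calc ε * |D w - D w'| * |((t - ε * D w) + (t - ε * D w')) / 2| ≤ ε * τ * (4 * B * ε) := by
            apply mul_le_mul _ h6 (abs_nonneg _) (by positivity)
            exact mul_le_mul_of_nonneg_left h5 hε
        _ = 4 * B * τ * ε ^ 2 := by ring
  -- upper bound for all sections
  have hup : ∀ t : ℝ, (volume (L t)).toReal ≤ (volume Q).toReal - π * ε ^ 2 * vari d + E := by
    intro t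
    rcases le_or_gt |t| (3 * B * ε) with ht | ht
    · obtain ⟨hu1, hu2⟩ := hu t ht
      have h3 := planar_upper Q (L t) (fun w => (t - ε * D w) ^ 2 / 2) (κ := κ)
        (U := 8 * B ^ 2 * ε ^ 2) (m := 4 * B * τ * ε ^ 2) (τ := ε ^ 2 * errS B κ ρ τ) (ρ := ρ)
        hQK hQc (hLQ t) hκ16 (by positivity) (by positivity) (by positivity)
        (by linarith) hρ0 hκρ h1 h2' (fun w _ => by positivity) hu1 hu2
        (by
          have h4 : Continuous fun s : ℝ => (t - ε * d s) ^ 2 / 2 := by fun_prop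
          exact h4) (by
          rintro w _ hw ⟨y, ⟨hy, hyt⟩, rfl⟩
          obtain ⟨z, hz, hz2⟩ := h2 w hw
          refine ⟨z, hz, ?_⟩
          rw [dotc_crd, hz2]
          exact sec_upper hK hne hb0 (norm_pt b hw) (inner_pt b w) hε hκ0 hτ hB0 hε4 g1 (hD w hw)
            (g2 w hw) ht hy hyt)
      have h5 : ∫ s in (-π)..π, (t - ε * D (Complex.exp (s * Complex.I))) ^ 2 / 2 =
          π * ((t - ε * mean d) ^ 2 + ε ^ 2 * vari d) := integral_sq hDc t ε
      rw [h5] at h3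
      have h6 : π * ε ^ 2 * vari d ≤ π * ((t - ε * mean d) ^ 2 + ε ^ 2 * vari d) := by
        have : 0 ≤ π * (t - ε * mean d) ^ 2 := by positivity
        nlinarith
      linarith
    · have h3 := planar_upper Q (L t) (fun _ => 2 * B ^ 2 * ε ^ 2) (κ := κ)
        (U := 8 * B ^ 2 * ε ^ 2) (m := 4 * B * τ * ε ^ 2) (τ := ε ^ 2 * errS B κ ρ τ) (ρ := ρ)
        hQK hQc (hLQ t) hκ16 (by positivity) (by positivity) (by positivity)
        (by linarith) hρ0 hκρ h1 h2' (fun w _ => by positivity) (fun w _ => by nlinarith)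
        (fun w w' _ _ _ => by rw [sub_self, abs_zero]; positivity)
        continuous_const (by
          rintro w _ hw ⟨y, ⟨hy, hyt⟩, rfl⟩
          obtain ⟨z, hz, hz2⟩ := h2 w hw
          refine ⟨z, hz, ?_⟩
          rw [dotc_crd, hz2]
          exact sec_far hK hne hb0 (norm_pt b hw) (inner_pt b w) hε hκ0 hτ hB0 hε4 g1 (hD w hw)
            (g2 w hw) ht.le hy hyt)
      simp only [intervalIntegral.integral_const] at h3
      have e1 : (π - -π) • (2 * B ^ 2 * ε ^ 2) = 4 * (π * ε ^ 2 * B ^ 2) := by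
        rw [smul_eq_mul]; ring
      rw [e1] at h3
      have h6 : π * ε ^ 2 * vari d ≤ π * ε ^ 2 * B ^ 2 :=
        mul_le_mul_of_nonneg_left hVle (by positivity)
      have h7 : 0 ≤ π * ε ^ 2 * B ^ 2 := by positivity
      linarith
  -- the section at the height `ε * mean d`
  have hlow : (volume Q).toReal - π * ε ^ 2 * vari d - E ≤ (volume (L (ε * mean d))).toReal := by
    have ht : |ε * mean d| ≤ 3 * B * ε := by
      rw [abs_mul, abs_of_nonneg hε]
      have := mul_le_mul_of_nonneg_left hmean hε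
      have h0 : 0 ≤ ε * B := by positivity
      linarith
    set t := ε * mean d with ht0
    obtain ⟨hu1, hu2⟩ := hu t ht
    have hLK : IsCompact (L t) := by
      have hcl : IsClosed {x : E3 | (inner ℝ (b 0) x : ℝ) = t} :=
        isClosed_eq (by fun_prop) continuous_const
      exact (hK.inter_right hcl).image (continuous_crd b)
    have hLc : Convex ℝ (L t) := by
      refine Convex.is_linear_image ?_ (isLinear_crd b)
      refine hc.inter ?_
      have : Convex ℝ ((innerSL ℝ (b 0) : E3 →L[ℝ] ℝ).toLinearMap ⁻¹' {t}) :=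
        (convex_singleton t).linear_preimage _
      exact this
    have h3 := planar_lower Q (L t) (fun w => (t - ε * D w) ^ 2 / 2) (κ := κ)
      (U := 8 * B ^ 2 * ε ^ 2) (m := 4 * B * τ * ε ^ 2) (τ := ε ^ 2 * errS B κ ρ τ) (ρ := ρ)
      hQK hQc hLK hLc (hLQ t) hκ16 (by positivity) (by positivity) (by positivity)
      (by linarith) hρ0 hκρ h1 h2' (fun w _ => by positivity) hu1 hu2
      (by
        have h4 : Continuous fun s : ℝ => (t - ε * d s) ^ 2 / 2 := by fun_prop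
        exact h4) (by
        intro w hw
        obtain ⟨y, hy, hyt, hy2⟩ := sec_lower hK hc hne hb0 (norm_pt b hw) (inner_pt b w) hε hκ0
          hκρ hρ1 hρ0 hτ hB hερ g1 (hD w hw) (g2 w hw) ht
        refine ⟨crd b y, ⟨y, ⟨hy, hyt⟩, rfl⟩, ?_⟩
        rintro _ ⟨x, hx, rfl⟩
        rw [dotc_crd, dotc_crd]
        have := le_supp hK hx (pt b w)
        linarith)
    have h5 : ∫ s in (-π)..π, (t - ε * D (Complex.exp (s * Complex.I))) ^ 2 / 2 =
        π * ((t - ε * mean d) ^ 2 + ε ^ 2 * vari d) := integral_sq hDc t ε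
    rw [h5, ht0, sub_self] at h3
    linarith
  -- conversion
  have hP : projArea K (b 0) = c * volume Q := projArea_eq hcH' b K
  have hM : secArea K (b 0) = ⨆ t : ℝ, c * volume (L t) := secArea_eq hcH' b K
  set X : ℝ := (volume Q).toReal - π * ε ^ 2 * vari d + E with hX
  have hX0 : 0 ≤ X := ENNReal.toReal_nonneg.trans (hup 0)
  have hMle : secArea K (b 0) ≤ c * ENNReal.ofReal X := by
    rw [hM]
    refine iSup_le fun t => ?_
    gcongr
    rw [← ENNReal.ofReal_toReal (hfinL t)]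
    exact ENNReal.ofReal_le_ofReal (hup t)
  have hXt : c * ENNReal.ofReal X ≠ ⊤ := ENNReal.mul_ne_top hct ENNReal.ofReal_ne_top
  have hMt : secArea K (b 0) ≠ ⊤ := (lt_of_le_of_lt hMle (lt_top_iff_ne_top.2 hXt)).ne
  have hPt : projArea K (b 0) ≠ ⊤ := by
    rw [hP]
    exact ENNReal.mul_ne_top hct hfin
  refine ⟨hPt, hMt, ?_⟩
  have hA : 0 ≤ c.toReal := ENNReal.toReal_nonneg
  have hPr : (projArea K (b 0)).toReal = c.toReal * (volume Q).toReal := by
    rw [hP, ENNReal.toReal_mul]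
  have hMr1 : (secArea K (b 0)).toReal ≤ c.toReal * X := by
    have := ENNReal.toReal_mono hXt hMle
    rwa [ENNReal.toReal_mul, ENNReal.toReal_ofReal hX0] at this
  have hMr2 : c.toReal * ((volume Q).toReal - π * ε ^ 2 * vari d - E) ≤
      (secArea K (b 0)).toReal := by
    have h3 : c * volume (L (ε * mean d)) ≤ secArea K (b 0) := by
      rw [hM]
      exact le_iSup (fun t => c * volume (L t)) _
    have h4 := ENNReal.toReal_mono hMt h3
    rw [ENNReal.toReal_mul] at h4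
    exact (mul_le_mul_of_nonneg_left hlow hA).trans h4
  rw [hPr]
  have e2 : c.toReal * (1000 * B ^ 2 * (τ + ρ ^ 2)) * ε ^ 2 = c.toReal * E := by
    rw [hE]; ring
  rw [e2, abs_le]
  constructor <;> nlinarith

end Pool.Agent.Helper85.BD
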