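import Mathlib

/-!
# MP_8ad3e9_gt, project BD: definitions

Convex bodies in 3-space whose projection area and maximal section area differ by a constant,
near the ball.
-/

set_option autoImplicit false

open MeasureTheory Set
open scoped MeasureTheory Real

namespace Pool.Agent.Helper85.BD

/-- Euclidean 3-space. -/
abbrev E3 : Type := EuclideanSpace ℝ (Fin 3)

/-- The support function of `K`. -/
noncomputable def supp (K : Set E3) (v : E3) : ℝ :=
  sSup ((fun x : E3 => (inner ℝ v x : ℝ)) '' K)

/-- The area of the projection of `K` along the unit vector `e`. -/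
noncomputable def projArea (K : Set E3) (e : E3) : ENNReal :=
  μH[2] ((fun x : E3 => x - (inner ℝ e x : ℝ) • e) '' K)

/-- The largest area of a section of `K` orthogonal to the unit vector `e`. -/
noncomputable def secArea (K : Set E3) (e : E3) : ENNReal :=
  ⨆ t : ℝ, μH[2] (K ∩ {x : E3 | (inner ℝ e x : ℝ) = t})

/-- The point of the unit circle of the plane spanned by `b 1`, `b 2` with complex coordinate
`w`. -/
noncomputable def pt (b : OrthonormalBasis (Fin 3) ℝ E3) (w : ℂ) : E3 := w.re • b 1 + w.im • b 2

/-- The same for the angle `t`. -/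
noncomputable def cir (b : OrthonormalBasis (Fin 3) ℝ E3) (t : ℝ) : E3 :=
  Real.cos t • b 1 + Real.sin t • b 2

/-- The mean of a function over the circle. -/
noncomputable def mean (f : ℝ → ℝ) : ℝ := (2 * π)⁻¹ * ∫ t in (-π)..π, f t

/-- The variance of a function over the circle. -/
noncomputable def vari (f : ℝ → ℝ) : ℝ := mean (fun t => f t ^ 2) - mean f ^ 2

/-- The variance, over the great circle orthogonal to `b 0`, of the derivative of `phi` in the
direction `b 0`. -/
noncomputable def VV (phi : E3 → ℝ) (b : OrthonormalBasis (Fin 3) ℝ E3) : ℝ :=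
  vari fun t => fderiv ℝ phi (cir b t) (b 0)

/-- The real number `w.re * z.re + w.im * z.im`. -/
def dotc (w z : ℂ) : ℝ := w.re * z.re + w.im * z.im

/-- The unit vector in the direction `v + l e` (for orthonormal `v`, `e`). -/
noncomputable def tilt (v e : E3) (l : ℝ) : E3 := (Real.sqrt (1 + l ^ 2))⁻¹ • (v + l • e)

/-- A linear combination of functions. -/
noncomputable def comb {m : ℕ} (q : Fin m → E3 → ℝ) (x : Fin m → ℝ) (v : E3) : ℝ :=
  ∑ i, x i * q i v

/-- The common error of the section estimates. -/
noncomputable def errS (B κ ρ τ : ℝ) : ℝ := 16 * B ^ 2 * (κ + ρ ^ 2) + 8 * B * τ + τ ^ 2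

end Pool.Agent.Helper85.BD
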