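import Pool.Agent.Helper85.BD.PolyDer

/-!
# MP_8ad3e9_gt, project BD: a basis of the polynomial functions of bounded degree on the unit
sphere modulo the affine functions
-/

set_option autoImplicit false

open MeasureTheory Set
open scoped MeasureTheory Real

namespace Pool.Agent.Helper85.BD

/-- Restriction of polynomials to the sphere. -/
private noncomputable def resS : MvPolynomial (Fin 3) ℝ →ₗ[ℝ] ({v : E3 // ‖v‖ = 1} → ℝ) where
  toFun p := fun v => ev p v
  map_add' p q := by
    funext v
    simp [ev]
  map_smul' c p := by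
    funext v
    simp [ev]

/-- The affine functions on the sphere. -/
private noncomputable def affS : Submodule ℝ ({v : E3 // ‖v‖ = 1} → ℝ) where
  carrier := {f | ∃ (c : ℝ) (a : E3), ∀ v, f v = c + (inner ℝ a (v : E3) : ℝ)}
  add_mem' := by
    rintro f g ⟨c, a, h⟩ ⟨c', a', h'⟩
    refine ⟨c + c', a + a', fun v => ?_⟩
    rw [Pi.add_apply, h, h', inner_add_left]
    ring
  zero_mem' := ⟨0, 0, fun v => by simp⟩
  smul_mem' := by
    rintro t f ⟨c, a, h⟩
    refine ⟨t * c, t • a, fun v => ?_⟩
    rw [Pi.smul_apply, h, real_inner_smul_left, smul_eq_mul]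
    ring

/-- The span of the monomials with exponents at most `N`. -/
private noncomputable def spanN (N : ℕ) : Submodule ℝ (MvPolynomial (Fin 3) ℝ) :=
  Submodule.span ℝ (Set.range fun f : Fin 3 → Fin (N + 1) =>
    MvPolynomial.monomial (Finsupp.equivFunOnFinite.symm fun i => ((f i : ℕ))) (1 : ℝ))

private theorem mem_spanN {N : ℕ} {p : MvPolynomial (Fin 3) ℝ} (hp : p.totalDegree ≤ N) :
    p ∈ spanN N := by
  rw [← MvPolynomial.support_sum_monomial_coeff p]
  refine Submodule.sum_mem _ fun d hd => ?_
  have h1 : ∀ i, d i ≤ N := fun i => by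
    have h2 := MvPolynomial.le_totalDegree hd
    have h3 : d i ≤ d.sum fun _ e => e := by
      rw [Finsupp.sum_fintype _ _ (fun _ => rfl)]
      exact Finset.single_le_sum (f := fun i => d i) (fun _ _ => Nat.zero_le _)
        (Finset.mem_univ i)
    omega
  have h2 : MvPolynomial.monomial d (MvPolynomial.coeff d p) =
      (MvPolynomial.coeff d p) • MvPolynomial.monomial d (1 : ℝ) := by
    rw [MvPolynomial.smul_monomial, smul_eq_mul, mul_one]
  rw [h2]
  refine Submodule.smul_mem _ _ (Submodule.subset_span ⟨fun i => ⟨d i, by have := h1 i; omega⟩, ?_⟩)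
  show MvPolynomial.monomial (Finsupp.equivFunOnFinite.symm fun i => d i) (1 : ℝ) = _
  have h4 : (Finsupp.equivFunOnFinite.symm fun i => d i) = d :=
    Finsupp.equivFunOnFinite.symm_apply_apply d
  rw [h4]

/-- There are finitely many polynomials which, together with the affine functions, span the
restrictions to the sphere of the polynomials of degree at most `N`, and of which no nontrivial
linear combination is affine on the sphere. (Choose a maximal set of monomials of degree at most `N`
which is linearly independent in the space of all functions on the sphere modulo the affine ones,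
`exists_linearIndependent`.) -/
theorem exists_family (N : ℕ) : ∃ (m : ℕ) (q : Fin m → MvPolynomial (Fin 3) ℝ),
    (∀ p : MvPolynomial (Fin 3) ℝ, p.totalDegree ≤ N → ∃ (c : ℝ) (a : E3) (x : Fin m → ℝ),
      ∀ v : E3, ‖v‖ = 1 → ev p v = c + (inner ℝ a v : ℝ) + comb (fun i => ev (q i)) x v) ∧
    (∀ (c : ℝ) (a : E3) (x : Fin m → ℝ),
      (∀ v : E3, ‖v‖ = 1 → comb (fun i => ev (q i)) x v = c + (inner ℝ a v : ℝ)) → x = 0) := by
  classical
  have hfin : Module.Finite ℝ (spanN N) := by
    unfold spanN
    exact Module.Finite.span_of_finite ℝ (Set.finite_range _)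
  set L : MvPolynomial (Fin 3) ℝ →ₗ[ℝ] (({v : E3 // ‖v‖ = 1} → ℝ) ⧸ affS) :=
    affS.mkQ.comp resS with hL
  have hfin2 : Module.Finite ℝ ((spanN N).map L) := Module.Finite.map _ _
  set bas := Module.finBasis ℝ ((spanN N).map L) with hbas
  have hex : ∀ i, ∃ p : MvPolynomial (Fin 3) ℝ, L p = ((bas i : (spanN N).map L) : _ ⧸ affS) := by
    intro i
    obtain ⟨p, -, hp⟩ := (Submodule.mem_map.1 (bas i).2)
    exact ⟨p, hp⟩
  choose q hq using hex
  have hcomb : ∀ (x : Fin (Module.finrank ℝ ((spanN N).map L)) → ℝ) (v : {v : E3 // ‖v‖ = 1}),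
      resS (∑ i, x i • q i) v = comb (fun i => ev (q i)) x v := by
    intro x v
    rw [map_sum, Finset.sum_apply]
    unfold comb
    refine Finset.sum_congr rfl fun i _ => ?_
    rw [map_smul, Pi.smul_apply, smul_eq_mul]
    rfl
  refine ⟨_, q, fun p hp => ?_, fun c a x hx => ?_⟩
  · have hpm : L p ∈ (spanN N).map L := Submodule.mem_map_of_mem (mem_spanN hp)
    set x : Fin (Module.finrank ℝ ((spanN N).map L)) → ℝ := fun i => bas.repr ⟨L p, hpm⟩ i with hx
    have h1 : L p = L (∑ i, x i • q i) := by
      have h2 := bas.sum_repr ⟨L p, hpm⟩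
      have h3 : ((∑ i, bas.repr ⟨L p, hpm⟩ i • bas i : (spanN N).map L) : _ ⧸ affS) = L p := by
        rw [h2]
      rw [map_sum, ← h3, Submodule.coe_sum]
      refine Finset.sum_congr rfl fun i _ => ?_
      rw [map_smul, hq i]
      rfl
    have h2 : resS p - resS (∑ i, x i • q i) ∈ affS := by
      rw [← Submodule.Quotient.eq]
      exact h1
    obtain ⟨c, a, hca⟩ := h2
    refine ⟨c, a, x, fun v hv => ?_⟩
    have h3 := hca ⟨v, hv⟩
    rw [Pi.sub_apply, hcomb] at h3
    have h4 : resS p ⟨v, hv⟩ = ev p v := rfl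
    rw [h4] at h3
    linarith
  · have h1 : L (∑ i, x i • q i) = 0 := by
      have h3 : resS (∑ i, x i • q i) ∈ affS := ⟨c, a, fun v => by rw [hcomb]; exact hx v v.2⟩
      exact (Submodule.Quotient.mk_eq_zero _).2 h3
    have h2 : ∑ i, x i • bas i = 0 := by
      apply Subtype.ext
      rw [Submodule.coe_sum, Submodule.coe_zero, ← h1, map_sum]
      refine Finset.sum_congr rfl fun i _ => ?_
      rw [map_smul, hq i]
      rfl
    funext i
    exact (Fintype.linearIndependent_iff.1 bas.linearIndependent x h2) i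

end Pool.Agent.Helper85.BD
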