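import Pool.Agent.Helper85.BD.Unif

/-!
# MP_8ad3e9_gt, project BD: compactness in the finite-dimensional space of first variations
-/

set_option autoImplicit false

open MeasureTheory Set Filter
open scoped MeasureTheory Real Topology

namespace Pool.Agent.Helper85.BD

variable {m : ℕ}

private theorem norm_cir (b : OrthonormalBasis (Fin 3) ℝ E3) (t : ℝ) : ‖cir b t‖ = 1 := by
  have h11 : inner ℝ (b 1) (b 1) = (1 : ℝ) := by
    rw [real_inner_self_eq_norm_sq, b.norm_eq_one, one_pow]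
  have h22 : inner ℝ (b 2) (b 2) = (1 : ℝ) := by
    rw [real_inner_self_eq_norm_sq, b.norm_eq_one, one_pow]
  have h12 : inner ℝ (b 1) (b 2) = (0 : ℝ) := b.orthonormal.inner_eq_zero (by decide)
  have h21 : inner ℝ (b 2) (b 1) = (0 : ℝ) := b.orthonormal.inner_eq_zero (by decide)
  have h1 : ‖cir b t‖ ^ 2 = 1 := by
    rw [← real_inner_self_eq_norm_sq]
    unfold cir
    rw [inner_add_left, inner_add_right, inner_add_right, inner_smul_left, inner_smul_left,
      inner_smul_left, inner_smul_left, inner_smul_right, inner_smul_right, inner_smul_right,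
      inner_smul_right, h11, h22, h12, h21]
    have h3 := Real.cos_sq_add_sin_sq t
    simp
    nlinarith
  have h2 : 0 ≤ ‖cir b t‖ := norm_nonneg _
  nlinarith

private theorem continuous_cir' (b : OrthonormalBasis (Fin 3) ℝ E3) : Continuous (cir b) := by
  unfold cir
  fun_prop

theorem VV_zero (b : OrthonormalBasis (Fin 3) ℝ E3) : VV (fun _ => (0 : ℝ)) b = 0 := by
  unfold VV vari mean
  simp

/-- The functions in the family are linearly independent modulo the affine functions. -/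
theorem indep_of_VV {q : Fin m → E3 → ℝ} (hq : ∀ i, ContDiff ℝ 1 (q i))
    (hV : ∀ x : Fin m → ℝ,
      (∀ b b' : OrthonormalBasis (Fin 3) ℝ E3, VV (comb q x) b = VV (comb q x) b') → x = 0)
    (c : ℝ) (a : E3) (x : Fin m → ℝ)
    (h : ∀ v : E3, ‖v‖ = 1 → comb q x v = c + (inner ℝ a v : ℝ)) : x = 0 := by
  apply hV
  have h1 : ∀ b : OrthonormalBasis (Fin 3) ℝ E3, VV (comb q x) b = 0 := by
    intro b
    have hg : ContDiff ℝ 1 fun v : E3 => (fun _ : E3 => (0 : ℝ)) v + (c + (inner ℝ a v : ℝ)) := by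
      have h2 : ContDiff ℝ 1 fun v : E3 => (inner ℝ a v : ℝ) := contDiff_const.inner ℝ contDiff_id
      exact contDiff_const.add (contDiff_const.add h2)
    rw [VV_congr (contDiff_comb hq x) hg (fun v hv => by rw [h v hv, zero_add]) b,
      VV_add_affine contDiff_const c a b, VV_zero]
  intro b b'
  rw [h1, h1]

/-- The sup norm on the sphere controls the coefficients. -/
theorem exists_norm {q : Fin m → E3 → ℝ} (hq : ∀ i, ContDiff ℝ 1 (q i))
    (hind : ∀ (c : ℝ) (a : E3) (x : Fin m → ℝ),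
      (∀ v : E3, ‖v‖ = 1 → comb q x v = c + (inner ℝ a v : ℝ)) → x = 0) :
    ∃ C0 : ℝ, 1 ≤ C0 ∧ ∀ (c : ℝ) (a : E3) (x : Fin m → ℝ) (M : ℝ),
      (∀ v : E3, ‖v‖ = 1 → |c + (inner ℝ a v : ℝ) + comb q x v| ≤ M) →
      |c| ≤ C0 * M ∧ ∀ i, |x i| ≤ C0 * M := by
  let S := Metric.sphere (0 : E3) 1
  have hcont : ∀ X : ℝ × E3 × (Fin m → ℝ), Continuous fun v : S =>
      X.1 + (inner ℝ X.2.1 (v : E3) : ℝ) + comb q X.2.2 (v : E3) := by
    intro X
    have h1 : Continuous fun v : E3 => X.1 + (inner ℝ X.2.1 v : ℝ) + comb q X.2.2 v := by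
      have h2 := (contDiff_comb hq X.2.2).continuous
      fun_prop
    exact h1.comp continuous_subtype_val
  let T : (ℝ × E3 × (Fin m → ℝ)) →ₗ[ℝ] C(S, ℝ) :=
    { toFun := fun X => ⟨fun v : S => X.1 + (inner ℝ X.2.1 (v : E3) : ℝ) + comb q X.2.2 (v : E3),
        hcont X⟩
      map_add' := by
        intro X Y
        ext v
        show (X.1 + Y.1) + (inner ℝ (X.2.1 + Y.2.1) (v : E3) : ℝ) + comb q (X.2.2 + Y.2.2) (v : E3) =
          (X.1 + (inner ℝ X.2.1 (v : E3) : ℝ) + comb q X.2.2 (v : E3)) +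
          (Y.1 + (inner ℝ Y.2.1 (v : E3) : ℝ) + comb q Y.2.2 (v : E3))
        have h1 : comb q (X.2.2 + Y.2.2) (v : E3) = comb q X.2.2 (v : E3) + comb q Y.2.2 (v : E3) := by
          unfold comb
          rw [← Finset.sum_add_distrib]
          refine Finset.sum_congr rfl fun i _ => ?_
          rw [Pi.add_apply]
          ring
        rw [h1, inner_add_left]
        ring
      map_smul' := by
        intro r X
        ext v
        show r * X.1 + (inner ℝ (r • X.2.1) (v : E3) : ℝ) + comb q (r • X.2.2) (v : E3) =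
          r * (X.1 + (inner ℝ X.2.1 (v : E3) : ℝ) + comb q X.2.2 (v : E3))
        have h1 : comb q (r • X.2.2) (v : E3) = r * comb q X.2.2 (v : E3) := by
          unfold comb
          rw [Finset.mul_sum]
          refine Finset.sum_congr rfl fun i _ => ?_
          rw [Pi.smul_apply, smul_eq_mul]
          ring
        rw [h1, real_inner_smul_left]
        ring }
  have hT : ∀ (X : ℝ × E3 × (Fin m → ℝ)) (v : S), T X v =
      X.1 + (inner ℝ X.2.1 (v : E3) : ℝ) + comb q X.2.2 (v : E3) := fun _ _ => rfl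
  have hker : LinearMap.ker T = ⊥ := by
    rw [LinearMap.ker_eq_bot']
    rintro ⟨c, a, x⟩ h
    have h1 : ∀ v : E3, ‖v‖ = 1 → c + (inner ℝ a v : ℝ) + comb q x v = 0 := by
      intro v hv
      have h2 := hT (c, a, x) ⟨v, mem_sphere_zero_iff_norm.2 hv⟩
      rw [h] at h2
      exact h2.symm
    have hx : x = 0 := by
      refine hind (-c) (-a) x fun v hv => ?_
      have := h1 v hv
      rw [inner_neg_left]
      linarith
    have h3 : ∀ v : E3, ‖v‖ = 1 → c + (inner ℝ a v : ℝ) = 0 := by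
      intro v hv
      have h4 := h1 v hv
      have h5 : comb q x v = 0 := by
        rw [hx]; unfold comb; simp
      linarith
    have h6 : ∀ v : E3, ‖v‖ = 1 → c = 0 ∧ (inner ℝ a v : ℝ) = 0 := by
      intro v hv
      have h4 := h3 v hv
      have h5 := h3 (-v) (by rw [norm_neg, hv])
      rw [inner_neg_right] at h5
      constructor <;> linarith
    have hc : c = 0 := by
      refine (h6 (EuclideanSpace.single 0 1) ?_).1
      simp
    have ha : a = 0 := by
      by_contra hne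
      have hn : ‖a‖ ≠ 0 := norm_ne_zero_iff.2 hne
      have h7 := (h6 (‖a‖⁻¹ • a) (by
        rw [norm_smul, norm_inv, norm_norm, inv_mul_cancel₀ hn])).2
      rw [inner_smul_right, real_inner_self_eq_norm_sq] at h7
      have h8 : ‖a‖⁻¹ * ‖a‖ ^ 2 = ‖a‖ := by field_simp
      rw [h8] at h7
      exact hn h7
    rw [hc, ha, hx]
    rfl
  obtain ⟨K, hK, hanti⟩ := T.exists_antilipschitzWith hker
  refine ⟨max 1 K, le_max_left _ _, fun c a x M hM => ?_⟩
  have h0 : 0 ≤ M := by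
    refine (abs_nonneg _).trans (hM (EuclideanSpace.single 0 1) ?_)
    simp
  have h1 : ‖T (c, a, x)‖ ≤ M := by
    rw [ContinuousMap.norm_le _ h0]
    intro v
    rw [hT, Real.norm_eq_abs]
    exact hM v (mem_sphere_zero_iff_norm.1 v.2)
  have h2 : ‖((c, a, x) : ℝ × E3 × (Fin m → ℝ))‖ ≤ K * ‖T (c, a, x)‖ :=
    hanti.le_mul_norm (map_zero T) _
  have h3 : ‖((c, a, x) : ℝ × E3 × (Fin m → ℝ))‖ ≤ max 1 (K : ℝ) * M := by
    refine h2.trans ?_
    exact mul_le_mul (le_max_right _ _) h1 (norm_nonneg _) (by positivity)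
  constructor
  · have h4 : ‖c‖ ≤ ‖((c, a, x) : ℝ × E3 × (Fin m → ℝ))‖ :=
      norm_fst_le ((c, a, x) : ℝ × E3 × (Fin m → ℝ))
    rw [Real.norm_eq_abs] at h4
    exact h4.trans h3
  · intro i
    have h4 : ‖((a, x) : E3 × (Fin m → ℝ))‖ ≤ ‖((c, a, x) : ℝ × E3 × (Fin m → ℝ))‖ :=
      norm_snd_le ((c, a, x) : ℝ × E3 × (Fin m → ℝ))
    have h5 : ‖x‖ ≤ ‖((a, x) : E3 × (Fin m → ℝ))‖ :=
      norm_snd_le ((a, x) : E3 × (Fin m → ℝ))
    have h6 : ‖x i‖ ≤ ‖x‖ := norm_le_pi_norm x i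
    rw [Real.norm_eq_abs] at h6
    exact h6.trans (h5.trans (h4.trans h3))

/-- Continuity of the variance in the coefficients. -/
theorem VV_comb_sub_le {q : Fin m → E3 → ℝ} (hq : ∀ i, ContDiff ℝ 1 (q i)) {B : ℝ}
    (hB : ∀ (x : Fin m → ℝ) (M : ℝ), 0 ≤ M → (∀ i, |x i| ≤ M) → ∀ v : E3, ‖v‖ ≤ 2 →
      ‖fderiv ℝ (comb q x) v‖ ≤ B * M ∧ |comb q x v| ≤ B * M) {x y : Fin m → ℝ}
    (hx : ‖x‖ ≤ 1) (hy : ‖y‖ ≤ 1) (b : OrthonormalBasis (Fin 3) ℝ E3) :
    |VV (comb q x) b - VV (comb q y) b| ≤ 4 * B * (B * ‖x - y‖) := by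
  have hb0 : ‖b 0‖ = 1 := b.norm_eq_one 0
  have hc : ∀ z : Fin m → ℝ, Continuous fun t => fderiv ℝ (comb q z) (cir b t) (b 0) := by
    intro z
    exact (((contDiff_comb hq z).continuous_fderiv (by norm_num)).comp
      (continuous_cir' b)).clm_apply continuous_const
  have hbd : ∀ (z : Fin m → ℝ) (M : ℝ), 0 ≤ M → (∀ i, |z i| ≤ M) → ∀ t,
      |fderiv ℝ (comb q z) (cir b t) (b 0)| ≤ B * M := by
    intro z M hM hz t
    have h1 := (fderiv ℝ (comb q z) (cir b t)).le_opNorm (b 0)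
    rw [hb0, mul_one, Real.norm_eq_abs] at h1
    exact h1.trans (hB z M hM hz _ (by rw [norm_cir]; norm_num)).1
  have hx1 : ∀ i, |x i| ≤ 1 := fun i => by
    have := (norm_le_pi_norm x i).trans hx
    rwa [Real.norm_eq_abs] at this
  have hy1 : ∀ i, |y i| ≤ 1 := fun i => by
    have := (norm_le_pi_norm y i).trans hy
    rwa [Real.norm_eq_abs] at this
  have hxy : ∀ i, |(x - y) i| ≤ ‖x - y‖ := fun i => by
    have := norm_le_pi_norm (x - y) i
    rwa [Real.norm_eq_abs] at this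
  refine abs_vari_sub_le (hc x) (hc y) (fun t => ?_) (fun t => ?_) fun t => ?_
  · have := hbd x 1 zero_le_one hx1 t
    rwa [mul_one] at this
  · have := hbd y 1 zero_le_one hy1 t
    rwa [mul_one] at this
  · have h1 := hbd (x - y) ‖x - y‖ (norm_nonneg _) hxy t
    have e1 : fderiv ℝ (comb q (x - y)) (cir b t) (b 0) =
        fderiv ℝ (comb q x) (cir b t) (b 0) - fderiv ℝ (comb q y) (cir b t) (b 0) := by
      rw [fderiv_comb hq, fderiv_comb hq, fderiv_comb hq, ContinuousLinearMap.sum_apply,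
        ContinuousLinearMap.sum_apply, ContinuousLinearMap.sum_apply, ← Finset.sum_sub_distrib]
      refine Finset.sum_congr rfl fun i _ => ?_
      rw [ContinuousLinearMap.smul_apply, ContinuousLinearMap.smul_apply,
        ContinuousLinearMap.smul_apply, Pi.sub_apply, sub_smul]
    rw [e1] at h1
    exact h1

/-- A uniform gap. -/
theorem exists_gap {q : Fin m → E3 → ℝ} (hq : ∀ i, ContDiff ℝ 1 (q i))
    (hV : ∀ x : Fin m → ℝ,
      (∀ b b' : OrthonormalBasis (Fin 3) ℝ E3, VV (comb q x) b = VV (comb q x) b') → x = 0) :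
    ∃ γ : ℝ, 0 < γ ∧ ∀ x : Fin m → ℝ, ‖x‖ = 1 → ∃ b b' : OrthonormalBasis (Fin 3) ℝ E3,
      γ ≤ |VV (comb q x) b - VV (comb q x) b'| := by
  obtain ⟨B, hB1, hB⟩ := exists_bound_comb hq
  by_contra hcon
  push Not at hcon
  have hex : ∀ n : ℕ, ∃ x : Fin m → ℝ, ‖x‖ = 1 ∧ ∀ b b' : OrthonormalBasis (Fin 3) ℝ E3,
      |VV (comb q x) b - VV (comb q x) b'| < 1 / ((n : ℝ) + 1) :=
    fun n => hcon _ (by positivity)
  choose x hx1 hx2 using hex
  obtain ⟨z, hz, φ, hφ, hlim⟩ := (isCompact_sphere (0 : Fin m → ℝ) 1).tendsto_subseq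
    (fun n => mem_sphere_zero_iff_norm.2 (hx1 n))
  have hz1 : ‖z‖ = 1 := mem_sphere_zero_iff_norm.1 hz
  have hconv : ∀ b : OrthonormalBasis (Fin 3) ℝ E3,
      Tendsto (fun n => VV (comb q (x (φ n))) b) atTop (𝓝 (VV (comb q z) b)) := by
    intro b
    rw [tendsto_iff_norm_sub_tendsto_zero]
    have h1 : Tendsto (fun n => 4 * B * (B * ‖x (φ n) - z‖)) atTop (𝓝 (4 * B * (B * 0))) := by
      have h2 : Tendsto (fun n => ‖x (φ n) - z‖) atTop (𝓝 0) := by
        rw [← tendsto_iff_norm_sub_tendsto_zero]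
        exact hlim
      exact (h2.const_mul B).const_mul (4 * B)
    rw [mul_zero, mul_zero] at h1
    refine squeeze_zero (fun n => norm_nonneg _) (fun n => ?_) h1
    rw [Real.norm_eq_abs]
    exact VV_comb_sub_le hq hB (hx1 _).le hz1.le b
  have hz0 : z = 0 := by
    apply hV
    intro b b'
    have h1 : Tendsto (fun n => |VV (comb q (x (φ n))) b - VV (comb q (x (φ n))) b'|) atTop
        (𝓝 |VV (comb q z) b - VV (comb q z) b'|) := ((hconv b).sub (hconv b')).abs
    have h2 : Tendsto (fun n => 1 / (((φ n : ℕ) : ℝ) + 1)) atTop (𝓝 0) :=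
      tendsto_one_div_add_atTop_nhds_zero_nat.comp hφ.tendsto_atTop
    have h3 : |VV (comb q z) b - VV (comb q z) b'| ≤ 0 :=
      le_of_tendsto_of_tendsto' h1 h2 fun n => (hx2 (φ n) b b').le
    have h4 := le_antisymm h3 (abs_nonneg _)
    exact sub_eq_zero.1 (abs_eq_zero.1 h4)
  rw [hz0, norm_zero] at hz1
  exact zero_ne_one hz1

end Pool.Agent.Helper85.BD
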