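import Pool.Agent.Helper85.BD.Supp

/-!
# MP_8ad3e9_gt, project BD: translations and dilations
-/

set_option autoImplicit false

open MeasureTheory Set
open scoped MeasureTheory Real

namespace Pool.Agent.Helper85.BD

/-- The body `c⁻¹ (K - a)`. -/
def resc (K : Set E3) (c : ℝ) (a : E3) : Set E3 := (fun x : E3 => c⁻¹ • (x - a)) '' K

theorem resc_compact {K : Set E3} (hK : IsCompact K) (c : ℝ) (a : E3) : IsCompact (resc K c a) := by
  unfold resc
  exact hK.image (by fun_prop)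

theorem resc_convex {K : Set E3} (hK : Convex ℝ K) (c : ℝ) (a : E3) : Convex ℝ (resc K c a) := by
  rintro _ ⟨x, hx, rfl⟩ _ ⟨y, hy, rfl⟩ α β hα hβ hαβ
  refine ⟨α • x + β • y, hK hx hy hα hβ hαβ, ?_⟩
  have h : a = α • a + β • a := by rw [← add_smul, hαβ, one_smul]
  show c⁻¹ • (α • x + β • y - a) = α • (c⁻¹ • (x - a)) + β • (c⁻¹ • (y - a))
  rw [smul_comm α, smul_comm β, ← smul_add]
  congr 1
  rw [smul_sub, smul_sub]
  nth_rewrite 1 [h]
  abel

theorem supp_resc {K : Set E3} (hK : IsCompact K) (hne : K.Nonempty) {c : ℝ} (hc : 0 < c) (a v : E3) :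
    supp (resc K c a) v = c⁻¹ * (supp K v - (inner ℝ a v : ℝ)) := by
  obtain ⟨x0, hx0, hmax⟩ := hK.exists_isMaxOn hne
    (f := fun x : E3 => (inner ℝ v x : ℝ)) (by fun_prop)
  have hcomm : (inner ℝ a v : ℝ) = inner ℝ v a := real_inner_comm _ _
  have h1 : supp K v = inner ℝ v x0 := by
    refine IsGreatest.csSup_eq ⟨⟨x0, hx0, rfl⟩, ?_⟩
    rintro _ ⟨x, hx, rfl⟩
    exact hmax hx
  have hval : ∀ x : E3, (inner ℝ v (c⁻¹ • (x - a)) : ℝ) = c⁻¹ * (inner ℝ v x - inner ℝ v a) := by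
    intro x
    rw [real_inner_smul_right, inner_sub_right]
  have h2 : supp (resc K c a) v = c⁻¹ * (inner ℝ v x0 - inner ℝ v a) := by
    refine IsGreatest.csSup_eq ⟨⟨c⁻¹ • (x0 - a), ⟨x0, hx0, rfl⟩, hval x0⟩, ?_⟩
    rintro _ ⟨_, ⟨x, hx, rfl⟩, rfl⟩
    have h3 : (inner ℝ v x : ℝ) ≤ inner ℝ v x0 := hmax hx
    show (inner ℝ v (c⁻¹ • (x - a)) : ℝ) ≤ _
    rw [hval x]
    have hc' : (0 : ℝ) ≤ c⁻¹ := (inv_pos.2 hc).le
    exact mul_le_mul_of_nonneg_left (by linarith) hc'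
  rw [h2, h1, hcomm]

open scoped Pointwise in
private theorem haus_resc (S : Set E3) {c : ℝ} (hc : 0 < c) (b : E3) :
    μH[2] ((fun z : E3 => c⁻¹ • (z - b)) '' S) = ENNReal.ofReal (c⁻¹ ^ 2) * μH[2] S := by
  have hc' : (0 : ℝ) < c⁻¹ := inv_pos.2 hc
  have h1 : (fun z : E3 => c⁻¹ • (z - b)) '' S = c⁻¹ • ((fun z : E3 => z - b) '' S) := by
    rw [← Set.image_smul, Set.image_image]
  have h2 : μH[2] ((fun z : E3 => z - b) '' S) = μH[2] S :=
    (IsometryEquiv.subRight b).hausdorffMeasure_image 2 S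
  rw [h1, Measure.hausdorffMeasure_smul₀ (by norm_num) hc'.ne', h2, ENNReal.smul_def, smul_eq_mul]
  congr 1
  rw [ENNReal.ofReal, ENNReal.coe_inj]
  apply NNReal.eq
  rw [NNReal.coe_rpow, coe_nnnorm, Real.norm_of_nonneg hc'.le, Real.coe_toNNReal _ (by positivity)]
  norm_num

theorem projArea_resc (K : Set E3) {c : ℝ} (hc : 0 < c) (a : E3) {e : E3} (he : ‖e‖ = 1) :
    projArea (resc K c a) e = ENNReal.ofReal (c⁻¹ ^ 2) * projArea K e := by
  unfold projArea resc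
  rw [← haus_resc _ hc (a - (inner ℝ e a : ℝ) • e), Set.image_image, Set.image_image]
  congr 1
  refine Set.image_congr fun x _ => ?_
  rw [real_inner_smul_right, inner_sub_right, mul_smul, ← smul_sub, sub_smul]
  congr 1
  abel

theorem secArea_resc (K : Set E3) {c : ℝ} (hc : 0 < c) (a : E3) {e : E3} (he : ‖e‖ = 1) :
    secArea (resc K c a) e = ENNReal.ofReal (c⁻¹ ^ 2) * secArea K e := by
  unfold secArea
  rw [ENNReal.mul_iSup]
  have hc0 : c ≠ 0 := hc.ne'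
  have hsurj : Function.Surjective (fun t : ℝ => c * t + (inner ℝ e a : ℝ)) := by
    intro s
    refine ⟨c⁻¹ * (s - (inner ℝ e a : ℝ)), ?_⟩
    show c * (c⁻¹ * (s - (inner ℝ e a : ℝ))) + (inner ℝ e a : ℝ) = s
    rw [mul_inv_cancel_left₀ hc0]
    ring
  rw [← hsurj.iSup_comp
    (g := fun s : ℝ => ENNReal.ofReal (c⁻¹ ^ 2) * μH[2] (K ∩ {x : E3 | (inner ℝ e x : ℝ) = s}))]
  refine iSup_congr fun t => ?_
  rw [← haus_resc _ hc a]
  congr 1
  unfold resc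
  ext y
  constructor
  · rintro ⟨⟨x, hx, rfl⟩, hy⟩
    refine ⟨x, ⟨hx, ?_⟩, rfl⟩
    have h1 : (inner ℝ e (c⁻¹ • (x - a)) : ℝ) = t := hy
    rw [real_inner_smul_right, inner_sub_right] at h1
    show (inner ℝ e x : ℝ) = c * t + (inner ℝ e a : ℝ)
    rw [← h1, mul_inv_cancel_left₀ hc0]
    ring
  · rintro ⟨x, ⟨hx, hy⟩, rfl⟩
    refine ⟨⟨x, hx, rfl⟩, ?_⟩
    have h1 : (inner ℝ e x : ℝ) = c * t + (inner ℝ e a : ℝ) := hy
    show (inner ℝ e (c⁻¹ • (x - a)) : ℝ) = t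
    rw [real_inner_smul_right, inner_sub_right, h1, add_sub_cancel_right,
      inv_mul_cancel_left₀ hc0]

end Pool.Agent.Helper85.BD
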