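import Pool.Agent.Helper85.BD.Frames
import Pool.Agent.Helper85.BD.Norms
import Pool.Agent.Helper85.BD.Scale

/-!
# MP_8ad3e9_gt, project BD: rigidity for a finite-dimensional family of first variations
-/

set_option autoImplicit false

open MeasureTheory Set Filter
open scoped MeasureTheory Real Topology

namespace Pool.Agent.Helper85.BD

theorem constDiff_resc {K : Set E3} (h : ConstDiff K) {c : ℝ} (hc : 0 < c) (a : E3) :
    ConstDiff (resc K c a) := by
  obtain ⟨d, hd⟩ := h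
  refine ⟨ENNReal.ofReal (c⁻¹ ^ 2) * d, fun e he => ?_⟩
  rw [projArea_resc K hc a he, secArea_resc K hc a he, hd e he, mul_add]

theorem family {m : ℕ} (q : Fin m → E3 → ℝ) (hq : ∀ i, ContDiff ℝ 1 (q i))
    (hV : ∀ x : Fin m → ℝ,
      (∀ b b' : OrthonormalBasis (Fin 3) ℝ E3, VV (comb q x) b = VV (comb q x) b') → x = 0) :
    ∃ δ : ℝ, 0 < δ ∧ ∀ K : Set E3, Convex ℝ K → IsCompact K → K.Nonempty → ConstDiff K →
      ∀ (c : ℝ) (a : E3), 0 < c →
      (∀ v : E3, ‖v‖ = 1 → |supp K v - (inner ℝ a v : ℝ) - c| ≤ δ * c) →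
      ∀ (a1 : E3) (y : Fin m → ℝ) (C : ℝ), 0 ≤ C →
      (∀ v w : E3, ‖v‖ = 1 → ‖w‖ = 1 →
        |(supp K v - comb q y v - (inner ℝ a1 v : ℝ)) -
          (supp K w - comb q y w - (inner ℝ a1 w : ℝ))| ≤ δ * C * ‖v - w‖) →
      ∃ a2 : E3, ∀ v w : E3, ‖v‖ = 1 → ‖w‖ = 1 →
        |(supp K v - (inner ℝ a2 v : ℝ)) - (supp K w - (inner ℝ a2 w : ℝ))| ≤ C * ‖v - w‖ := by
  obtain ⟨B, hB1, hB⟩ := exists_bound_comb hq
  obtain ⟨γ, hγ, hgap⟩ := exists_gap hq hV
  obtain ⟨C0, hC01, hC0⟩ := exists_norm hq (indep_of_VV hq hV)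
  have hB0 : 0 < B := by linarith
  have hC00 : 0 < C0 := by linarith
  -- the parameters
  set τ : ℝ := min 1 (γ / (4000 * B ^ 2)) with hτdef
  have hτ0 : 0 < τ := by positivity
  have hτ1 : τ ≤ 1 := min_le_left _ _
  have hτγ : τ ≤ γ / (4000 * B ^ 2) := min_le_right _ _
  have hev1 : ∀ᶠ ρ in 𝓝[>] (0 : ℝ), ρ < min 1 (γ / (4000 * B ^ 2)) :=
    mem_nhdsWithin_of_mem_nhds (Iio_mem_nhds hτ0)
  have hev2 : ∀ᶠ ρ in 𝓝[>] (0 : ℝ), 0 < ρ := self_mem_nhdsWithin
  obtain ⟨ρ, ⟨⟨hmod, htay⟩, hρlt⟩, hρ0⟩ :=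
    ((((ev_modulus_comb hq hτ0).and (ev_taylor_comb hq (half_pos hτ0))).and hev1).and hev2).exists
  have hρ1 : ρ ≤ 1 := hρlt.le.trans (min_le_left _ _)
  have hργ : ρ ^ 2 ≤ γ / (4000 * B ^ 2) := by
    have h1 : ρ ≤ γ / (4000 * B ^ 2) := hρlt.le.trans (min_le_right _ _)
    nlinarith
  set κ : ℝ := ρ ^ 2 / 16 with hκdef
  have hκ0 : 0 < κ := by positivity
  have hκ1 : κ ≤ 1 / 16 := by
    have : ρ ^ 2 ≤ 1 := by nlinarith
    linarith
  have hfinal : 1000 * B ^ 2 * (τ + ρ ^ 2) < γ := by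
    have h1 : τ + ρ ^ 2 ≤ γ / (4000 * B ^ 2) + γ / (4000 * B ^ 2) := add_le_add hτγ hργ
    have h2 : 1000 * B ^ 2 * (τ + ρ ^ 2) ≤ 1000 * B ^ 2 * (γ / (4000 * B ^ 2) + γ / (4000 * B ^ 2)) :=
      mul_le_mul_of_nonneg_left h1 (by positivity)
    have h3 : 1000 * B ^ 2 * (γ / (4000 * B ^ 2) + γ / (4000 * B ^ 2)) = γ / 2 := by
      field_simp
      ring
    linarith
  set δ : ℝ := κ * τ / (400 * C0 * B) with hδdef
  have hδ0 : 0 < δ := by positivity
  have hδmul : δ * (400 * C0 * B) = κ * τ := by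
    rw [hδdef]
    field_simp
  have hκτ : κ * τ ≤ κ := by nlinarith
  have hCB : 1 ≤ C0 * B := by nlinarith
  have hδCB : δ * (C0 * B) = κ * τ / 400 := by linarith
  have hδB : δ * B ≤ κ * τ / 400 := by
    have : δ * B ≤ δ * (C0 * B) := by
      apply mul_le_mul_of_nonneg_left _ hδ0.le
      nlinarith
    linarith
  have hδC : δ * C0 ≤ κ * τ / (400 * B) := by
    rw [le_div_iff₀ (by positivity)]
    linarith
  have hδ1 : δ ≤ κ * τ / 400 := by
    have : δ * 1 ≤ δ * (C0 * B) := mul_le_mul_of_nonneg_left hCB hδ0.le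
    linarith
  have hδ2 : δ ≤ 1 / 2 := by linarith
  refine ⟨δ, hδ0, fun K hKc hK hne hd c a hc hclose a1 y C hC hr => ?_⟩
  set r : E3 → ℝ := fun v => supp K v - comb q y v - (inner ℝ a1 v : ℝ) with hrdef
  have hr' : ∀ v w : E3, ‖v‖ = 1 → ‖w‖ = 1 → |r v - r w| ≤ δ * C * ‖v - w‖ := hr
  have hyi : ∀ i, |y i| ≤ ‖y‖ := fun i => by
    have := norm_le_pi_norm y i
    rwa [Real.norm_eq_abs] at this
  have hliy : ∀ v w : E3, ‖v‖ = 1 → ‖w‖ = 1 → |comb q y v - comb q y w| ≤ B * ‖y‖ * ‖v - w‖ :=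
    fun v w hv hw => lip_of_bound (contDiff_comb hq y)
      (fun u hu => (hB y ‖y‖ (norm_nonneg _) hyi u hu).1) hv hw
  by_cases hcase : B * ‖y‖ + δ * C ≤ C
  · refine ⟨a1, fun v w hv hw => ?_⟩
    have e1 : (supp K v - (inner ℝ a1 v : ℝ)) - (supp K w - (inner ℝ a1 w : ℝ)) =
        (comb q y v - comb q y w) + (r v - r w) := by
      rw [hrdef]
      ring
    rw [e1]
    refine (abs_add_le _ _).trans ?_
    have h1 := hliy v w hv hw
    have h2 := hr' v w hv hw
    have h3 : (B * ‖y‖ + δ * C) * ‖v - w‖ ≤ C * ‖v - w‖ :=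
      mul_le_mul_of_nonneg_right hcase (norm_nonneg _)
    linarith
  · exfalso
    push Not at hcase
    set ε' : ℝ := ‖y‖ with hε'
    have hδC2 : δ * C ≤ 1 / 2 * C := mul_le_mul_of_nonneg_right hδ2 hC
    have hε'0 : 0 < ε' := by
      by_contra h
      have h0 : ε' = 0 := le_antisymm (not_lt.1 h) (norm_nonneg _)
      rw [h0, mul_zero] at hcase
      linarith
    have hCle : C ≤ 2 * B * ε' := by linarith
    have hδCle : δ * C ≤ 2 * (δ * B) * ε' := by
      have := mul_le_mul_of_nonneg_left hCle hδ0.le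
      linarith
    have hr2 : ∀ v w : E3, ‖v‖ = 1 → ‖w‖ = 1 → |r v - r w| ≤ 2 * (δ * B) * ε' * ‖v - w‖ :=
      fun v w hv hw => (hr' v w hv hw).trans
        (mul_le_mul_of_nonneg_right hδCle (norm_nonneg _))
    set v0 : E3 := EuclideanSpace.single 0 1 with hv0
    have hv0n : ‖v0‖ = 1 := by simp [hv0]
    set c1 : ℝ := r v0 with hc1
    have hrc : ∀ v : E3, ‖v‖ = 1 → |r v - c1| ≤ 4 * (δ * B) * ε' := by
      intro v hv
      have h1 := hr2 v v0 hv hv0n
      have h2 : ‖v - v0‖ ≤ 2 := by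
        have := norm_sub_le v v0
        rw [hv, hv0n] at this
        linarith
      have h3 : 0 ≤ 2 * (δ * B) * ε' := by positivity
      have h4 := mul_le_mul_of_nonneg_left h2 h3
      linarith
    have hM : ∀ v : E3, ‖v‖ = 1 → |(c1 - c) + (inner ℝ (a1 - a) v : ℝ) + comb q y v| ≤
        δ * c + 4 * (δ * B) * ε' := by
      intro v hv
      have e1 : (c1 - c) + (inner ℝ (a1 - a) v : ℝ) + comb q y v =
          (supp K v - (inner ℝ a v : ℝ) - c) - (r v - c1) := by
        rw [inner_sub_left, hrdef]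
        ring
      rw [e1]
      refine (abs_sub _ _).trans ?_
      have h1 := hclose v hv
      have h2 := hrc v hv
      linarith
    obtain ⟨hcc, hyy⟩ := hC0 _ _ _ _ hM
    have hM0 : 0 ≤ δ * c + 4 * (δ * B) * ε' := by positivity
    have hεle : ε' ≤ C0 * (δ * c + 4 * (δ * B) * ε') := by
      rw [hε', pi_norm_le_iff_of_nonneg (by positivity)]
      intro i
      rw [Real.norm_eq_abs]
      exact hyy i
    have hsmall : C0 * (4 * (δ * B) * ε') ≤ 1 / 2 * ε' := by
      have h1 : C0 * (4 * (δ * B) * ε') = 4 * (δ * (C0 * B)) * ε' := by ring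
      rw [h1, hδCB]
      apply mul_le_mul_of_nonneg_right _ hε'0.le
      linarith
    have hε2 : ε' ≤ 2 * (C0 * δ) * c := by
      have h1 : C0 * (δ * c + 4 * (δ * B) * ε') = (C0 * δ) * c + C0 * (4 * (δ * B) * ε') := by ring
      rw [h1] at hεle
      linarith
    have hcc2 : |c1 - c| ≤ 2 * (C0 * δ) * c := by
      refine hcc.trans ?_
      have h1 : C0 * (δ * c + 4 * (δ * B) * ε') = (C0 * δ) * c + C0 * (4 * (δ * B) * ε') := by ring
      rw [h1]
      linarith
    have hC0δ : C0 * δ ≤ 1 / 8 := by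
      have h1 : κ * τ / (400 * B) ≤ 1 / 8 := by
        rw [div_le_iff₀ (by positivity)]
        linarith
      linarith
    have hc1c : c / 2 ≤ c1 := by
      have h1 := (abs_le.1 hcc2).1
      have h2 : 2 * (C0 * δ) * c ≤ 1 / 4 * c := by
        apply mul_le_mul_of_nonneg_right _ hc.le
        linarith
      linarith
    have hc10 : 0 < c1 := by linarith
    set ε : ℝ := ε' / c1 with hεdef
    have hε0 : 0 < ε := by positivity
    have hεc : c1⁻¹ * ε' = ε := by rw [hεdef]; field_simp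
    have hεle2 : ε ≤ 4 * (C0 * δ) := by
      rw [hεdef, div_le_iff₀ hc10]
      have : 4 * (C0 * δ) * (c / 2) ≤ 4 * (C0 * δ) * c1 :=
        mul_le_mul_of_nonneg_left hc1c (by positivity)
      linarith
    have hεB : ε * B ≤ κ / 100 := by
      have h1 : ε * B ≤ 4 * (C0 * δ) * B := mul_le_mul_of_nonneg_right hεle2 hB0.le
      have h2 : 4 * (C0 * δ) * B = 4 * (δ * (C0 * B)) := by ring
      rw [h2, hδCB] at h1
      linarith
    have hεκ1 : ε ≤ 1 := by
      have : ε * 1 ≤ ε * B := mul_le_mul_of_nonneg_left hB1 hε0.le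
      linarith
    -- the normalised coefficients
    set x : Fin m → ℝ := ε'⁻¹ • y with hx
    have hx1 : ‖x‖ = 1 := by
      rw [hx, norm_smul, norm_inv, Real.norm_of_nonneg hε'0.le, ← hε', inv_mul_cancel₀ hε'0.ne']
    have hxi : ∀ i, |x i| ≤ 1 := fun i => by
      have := norm_le_pi_norm x i
      rwa [Real.norm_eq_abs, hx1] at this
    have hcomb : ∀ v, comb q y v = ε' * comb q x v := by
      intro v
      unfold comb
      rw [Finset.mul_sum]
      refine Finset.sum_congr rfl fun i _ => ?_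
      rw [hx, Pi.smul_apply, smul_eq_mul, ← mul_assoc, ← mul_assoc, mul_inv_cancel₀ hε'0.ne',
        one_mul]
    set K' : Set E3 := resc K c1 a1 with hK'
    have hsupp : ∀ v, supp K' v = 1 + ε * comb q x v + c1⁻¹ * (r v - c1) := by
      intro v
      rw [hK', supp_resc hK hne hc10]
      have h1 : supp K v - (inner ℝ a1 v : ℝ) = ε' * comb q x v + r v := by
        rw [← hcomb, hrdef]
        ring
      rw [h1]
      have hinv : c1⁻¹ * c1 = 1 := inv_mul_cancel₀ hc10.ne'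
      generalize r v = rv
      generalize comb q x v = cv
      linear_combination cv * hεc + hinv
    have hBx : ∀ v : E3, ‖v‖ ≤ 2 → ‖fderiv ℝ (comb q x) v‖ ≤ B ∧ |comb q x v| ≤ B := by
      intro v hv
      have := hB x 1 zero_le_one hxi v hv
      rwa [mul_one] at this
    have hrc' : ∀ v : E3, ‖v‖ = 1 → |c1⁻¹ * (r v - c1)| ≤ 4 * δ * (ε * B) := by
      intro v hv
      rw [abs_mul, abs_of_pos (inv_pos.2 hc10)]
      have h1 := mul_le_mul_of_nonneg_left (hrc v hv) (inv_pos.2 hc10).le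
      have h2 : c1⁻¹ * (4 * (δ * B) * ε') = 4 * δ * (c1⁻¹ * ε' * B) := by ring
      rw [h2, hεc] at h1
      exact h1
    obtain ⟨b, b', hbb⟩ := hgap x hx1
    have hres := two_frames (K := K') (resc_compact hK c1 a1) (resc_convex hKc c1 a1)
      (hne.image _) (constDiff_resc hd hc10 a1) (contDiff_comb hq x) (ε := ε) (κ := κ) (τ := τ)
      (B := B) (ρ := ρ) hε0 hτ0.le hτ1 hρ0 hρ1 hB1 (by linarith) (by
        have h1 : 24 * B * ε ≤ κ := by linarith
        have h2 : κ ≤ ρ := by nlinarith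
        linarith) (by
        have h1 : 100 * B ^ 2 * ε ^ 2 = 100 * (ε * B) * (ε * B) := by ring
        rw [h1]
        have h2 : 0 ≤ ε * B := by positivity
        nlinarith)
      (fun v hv => (hBx v (by rw [hv]; norm_num)).1)
      (fun v w hv hw hvw => hmod x hxi v w (by rw [hv]; norm_num) (by rw [hw]; norm_num) hvw)
      (fun u hu => by
        rw [hsupp]
        have e1 : 1 + ε * comb q x u + c1⁻¹ * (r u - c1) - 1 =
            ε * comb q x u + c1⁻¹ * (r u - c1) := by ring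
        rw [e1]
        refine (abs_add_le _ _).trans ?_
        have h1 : |ε * comb q x u| ≤ ε * B := by
          rw [abs_mul, abs_of_pos hε0]
          exact mul_le_mul_of_nonneg_left (hBx u (by rw [hu]; norm_num)).2 hε0.le
        have h2 := hrc' u hu
        have h3 : 4 * δ * (ε * B) ≤ 2 * (ε * B) := by
          apply mul_le_mul_of_nonneg_right _ (by positivity)
          linarith
        linarith)
      (fun v e hv he hev l hl => by
        have hl1 : |l| ≤ 1 := hl.trans hρ1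
        rw [hsupp, hsupp]
        have e1 : 1 + ε * comb q x (tilt v e l) + c1⁻¹ * (r (tilt v e l) - c1) -
            (1 + ε * comb q x v + c1⁻¹ * (r v - c1)) - ε * l * fderiv ℝ (comb q x) v e =
            ε * (comb q x (tilt v e l) - comb q x v - l * fderiv ℝ (comb q x) v e) +
            c1⁻¹ * (r (tilt v e l) - r v) := by ring
        rw [e1]
        refine (abs_add_le _ _).trans ?_
        rw [abs_mul, abs_mul, abs_of_pos hε0, abs_of_pos (inv_pos.2 hc10)]
        have h1 := mul_le_mul_of_nonneg_left (htay x hxi v e hv he hev l hl) hε0.le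
        have h2 := hr2 (tilt v e l) v (norm_tilt he hv hev l) hv
        have h3 := norm_tilt_sub he hv hev hl1
        have h4 : 2 * (δ * B) * ε' * ‖tilt v e l - v‖ ≤ 2 * (δ * B) * ε' * (2 * |l|) :=
          mul_le_mul_of_nonneg_left h3 (by positivity)
        have h5 := mul_le_mul_of_nonneg_left (h2.trans h4) (inv_pos.2 hc10).le
        have h6 : c1⁻¹ * (2 * (δ * B) * ε' * (2 * |l|)) = 4 * (δ * B) * (c1⁻¹ * ε') * |l| := by
          ring
        rw [h6, hεc] at h5
        have h7 : 4 * (δ * B) * ε * |l| ≤ τ / 2 * ε * |l| := by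
          apply mul_le_mul_of_nonneg_right _ (abs_nonneg _)
          apply mul_le_mul_of_nonneg_right _ hε0.le
          nlinarith
        linarith)
      b b'
    linarith

/-- First variations in `C¹`. -/
theorem tangent {phi : E3 → ℝ} (hphi : ContDiff ℝ 1 phi) (K : ℕ → Set E3) (ε : ℕ → ℝ)
    (hK : ∀ j, Convex ℝ (K j) ∧ IsCompact (K j) ∧ (K j).Nonempty ∧ ConstDiff (K j))
    (hε : ∀ j, 0 < ε j) (hε0 : Filter.Tendsto ε Filter.atTop (nhds 0))
    (h1 : ∀ η : ℝ, 0 < η → ∀ᶠ j in Filter.atTop, ∀ v : E3, ‖v‖ = 1 →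
      |supp (K j) v - 1 - ε j * phi v| ≤ η * ε j)
    (h2 : ∀ η : ℝ, 0 < η → ∀ᶠ j in Filter.atTop, ∀ v w : E3, ‖v‖ = 1 → ‖w‖ = 1 →
      |(supp (K j) v - ε j * phi v) - (supp (K j) w - ε j * phi w)| ≤ η * ε j * ‖v - w‖)
    (b b' : OrthonormalBasis (Fin 3) ℝ E3) : VV phi b = VV phi b' := by
  obtain ⟨B, hB1, hB, hBphi⟩ := exists_bound hphi
  have hB0 : 0 < B := by linarith
  -- it is enough to bound the difference by every positive number
  by_contra hne
  set γ : ℝ := |VV phi b - VV phi b'| with hγdef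
  have hγ : 0 < γ := abs_pos.2 (sub_ne_zero.2 hne)
  set τ : ℝ := min 1 (γ / (4000 * B ^ 2)) with hτdef
  have hτ0 : 0 < τ := by positivity
  have hτ1 : τ ≤ 1 := min_le_left _ _
  have hτγ : τ ≤ γ / (4000 * B ^ 2) := min_le_right _ _
  have hev1 : ∀ᶠ ρ in 𝓝[>] (0 : ℝ), ρ < min 1 (γ / (4000 * B ^ 2)) :=
    mem_nhdsWithin_of_mem_nhds (Iio_mem_nhds hτ0)
  have hev2 : ∀ᶠ ρ in 𝓝[>] (0 : ℝ), 0 < ρ := self_mem_nhdsWithin
  obtain ⟨ρ, ⟨⟨hmod, htay⟩, hρlt⟩, hρ0⟩ :=
    ((((ev_modulus hphi hτ0).and (ev_taylor hphi (half_pos hτ0))).and hev1).and hev2).exists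
  have hρ1 : ρ ≤ 1 := hρlt.le.trans (min_le_left _ _)
  have hργ : ρ ^ 2 ≤ γ / (4000 * B ^ 2) := by
    have h1 : ρ ≤ γ / (4000 * B ^ 2) := hρlt.le.trans (min_le_right _ _)
    nlinarith
  set κ : ℝ := ρ ^ 2 / 16 with hκdef
  have hκ0 : 0 < κ := by positivity
  have hκ1 : κ ≤ 1 / 16 := by
    have : ρ ^ 2 ≤ 1 := by nlinarith
    linarith
  have hfinal : 1000 * B ^ 2 * (τ + ρ ^ 2) < γ := by
    have h1 : τ + ρ ^ 2 ≤ γ / (4000 * B ^ 2) + γ / (4000 * B ^ 2) := add_le_add hτγ hργ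
    have h2 : 1000 * B ^ 2 * (τ + ρ ^ 2) ≤ 1000 * B ^ 2 * (γ / (4000 * B ^ 2) + γ / (4000 * B ^ 2)) :=
      mul_le_mul_of_nonneg_left h1 (by positivity)
    have h3 : 1000 * B ^ 2 * (γ / (4000 * B ^ 2) + γ / (4000 * B ^ 2)) = γ / 2 := by
      field_simp
      ring
    linarith
  have hevε : ∀ᶠ j in atTop, ε j < κ / (100 * B) :=
    hε0.eventually (Iio_mem_nhds (by positivity))
  obtain ⟨j, ⟨hj1, hj2⟩, hj3⟩ :=
    (((h1 1 one_pos).and (h2 (τ / 4) (by positivity))).and hevε).exists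
  obtain ⟨hKc, hKk, hKn, hKd⟩ := hK j
  have hεj := hε j
  set e0 : ℝ := ε j with he0
  have hεB : e0 * B ≤ κ / 100 := by
    have h3 : e0 * B ≤ κ / (100 * B) * B := mul_le_mul_of_nonneg_right hj3.le hB0.le
    have h4 : κ / (100 * B) * B = κ / 100 := by field_simp
    linarith
  have hres := two_frames (K := K j) hKk hKc hKn hKd hphi (ε := e0) (κ := κ) (τ := τ)
      (B := B) (ρ := ρ) hεj hτ0.le hτ1 hρ0 hρ1 hB1 (by linarith) (by
        have h1 : 24 * B * e0 ≤ κ := by linarith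
        have h2 : κ ≤ ρ := by nlinarith
        linarith) (by
        have h1 : 100 * B ^ 2 * e0 ^ 2 = 100 * (e0 * B) * (e0 * B) := by ring
        rw [h1]
        have h2 : 0 ≤ e0 * B := by positivity
        nlinarith)
      (fun v hv => hB v (by rw [hv]; norm_num))
      (fun v w hv hw hvw => hmod v w (by rw [hv]; norm_num) (by rw [hw]; norm_num) hvw)
      (fun u hu => by
        have h3 := hj1 u hu
        have e1 : supp (K j) u - 1 = (supp (K j) u - 1 - e0 * phi u) + e0 * phi u := by ring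
        rw [e1]
        refine (abs_add_le _ _).trans ?_
        have h4 : |e0 * phi u| ≤ e0 * B := by
          rw [abs_mul, abs_of_pos hεj]
          exact mul_le_mul_of_nonneg_left (hBphi u (by rw [hu]; norm_num)) hεj.le
        have h5 : 1 * e0 ≤ e0 * B := by nlinarith
        linarith)
      (fun v e hv he hev l hl => by
        have hl1 : |l| ≤ 1 := hl.trans hρ1
        have e1 : supp (K j) (tilt v e l) - supp (K j) v - e0 * l * fderiv ℝ phi v e =
            e0 * (phi (tilt v e l) - phi v - l * fderiv ℝ phi v e) +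
            ((supp (K j) (tilt v e l) - e0 * phi (tilt v e l)) - (supp (K j) v - e0 * phi v)) := by
          ring
        rw [e1]
        refine (abs_add_le _ _).trans ?_
        rw [abs_mul, abs_of_pos hεj]
        have h3 := mul_le_mul_of_nonneg_left (htay v e hv he hev l hl) hεj.le
        have h4 := hj2 (tilt v e l) v (norm_tilt he hv hev l) hv
        have h5 := norm_tilt_sub he hv hev hl1
        have h6 : τ / 4 * e0 * ‖tilt v e l - v‖ ≤ τ / 4 * e0 * (2 * |l|) :=
          mul_le_mul_of_nonneg_left h5 (by positivity)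
        linarith)
      b b'
  linarith

end Pool.Agent.Helper85.BD
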