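import Pool.Agent.Helper85.BD.Family
import Pool.Agent.Helper85.BD.AffC1

/-!
# MP_8ad3e9_gt, project BD: finiteness of the areas and balls
-/

set_option autoImplicit false

open MeasureTheory Set
open scoped MeasureTheory Real

namespace Pool.Agent.Helper85.BD

theorem exists_basis {e : E3} (he : ‖e‖ = 1) : ∃ b : OrthonormalBasis (Fin 3) ℝ E3, b 0 = e := by
  have hv : Orthonormal ℝ (({0} : Set (Fin 3)).domRestrict fun _ : Fin 3 => e) := by
    constructor
    · intro i
      exact he
    · intro i j hij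
      exact absurd (Subsingleton.elim i j) hij
  obtain ⟨b, hb⟩ := hv.exists_orthonormalBasis_extension_of_card_eq
    (by rw [finrank_euclideanSpace])
  exact ⟨b, hb 0 rfl⟩

theorem continuous_crd' (b : OrthonormalBasis (Fin 3) ℝ E3) : Continuous (crd b) := by
  have h : crd b = fun x : E3 => ((inner ℝ (b 1) x : ℝ) : ℂ) +
      ((inner ℝ (b 2) x : ℝ) : ℂ) * Complex.I := by
    funext x
    apply Complex.ext <;> simp [crd]
  rw [h]
  fun_prop

theorem proj_ne_top {K : Set E3} (hK : IsCompact K) {e : E3} (he : ‖e‖ = 1) :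
    projArea K e ≠ ⊤ := by
  obtain ⟨b, rfl⟩ := exists_basis he
  obtain ⟨c, -, hc, h⟩ := exists_haus
  rw [projArea_eq h b K]
  exact ENNReal.mul_ne_top hc (hK.image (continuous_crd' b)).measure_lt_top.ne

theorem sec_le_proj (K : Set E3) {e : E3} (he : ‖e‖ = 1) :
    secArea K e ≤ projArea K e := by
  obtain ⟨b, rfl⟩ := exists_basis he
  obtain ⟨c, -, hc, h⟩ := exists_haus
  rw [projArea_eq h b K, secArea_eq h b K]
  exact iSup_le fun t => mul_le_mul_right (measure_mono (image_mono inter_subset_left)) c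

theorem constDiff_of_toReal {K : Set E3} (hK : IsCompact K)
    (h : ∃ a : ℝ, ∀ e : E3, ‖e‖ = 1 → (projArea K e).toReal - (secArea K e).toReal = a) :
    ConstDiff K := by
  obtain ⟨a, ha⟩ := h
  refine ⟨ENNReal.ofReal a, fun e he => ?_⟩
  have h1 := proj_ne_top hK he
  have h2 := sec_le_proj K he
  have h3 : secArea K e ≠ ⊤ := ne_top_of_le_ne_top h1 h2
  have h4 : (secArea K e).toReal ≤ (projArea K e).toReal := ENNReal.toReal_mono h1 h2
  have h5 := ha e he
  have h6 : (projArea K e).toReal = (secArea K e).toReal + a := by linarith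
  rw [← ENNReal.ofReal_toReal h1, h6, ENNReal.ofReal_add ENNReal.toReal_nonneg (by linarith),
    ENNReal.ofReal_toReal h3]

theorem ball_of_supp {K : Set E3} (hc : Convex ℝ K) (hK : IsCompact K) (hne : K.Nonempty)
    {a : E3} {r : ℝ} (h : ∀ v : E3, ‖v‖ = 1 → supp K v = r + (inner ℝ a v : ℝ)) :
    K = Metric.closedBall a r := by
  have hr : 0 ≤ r := by
    obtain ⟨e, he⟩ : ∃ e : E3, ‖e‖ = 1 :=
      ⟨EuclideanSpace.single 0 1, by simp⟩
    obtain ⟨x, hx⟩ := hne
    have h1 := le_supp hK hx e
    have h2 := le_supp hK hx (-e)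
    rw [h e he] at h1
    rw [h (-e) (by rw [norm_neg, he])] at h2
    rw [inner_neg_left, inner_neg_right] at h2
    linarith
  apply Subset.antisymm
  · intro x hx
    rw [Metric.mem_closedBall, dist_eq_norm]
    rcases eq_or_ne x a with h0 | h0
    · rw [h0, sub_self, norm_zero]
      exact hr
    · have hpos : 0 < ‖x - a‖ := norm_pos_iff.2 (sub_ne_zero.2 h0)
      set v : E3 := ‖x - a‖⁻¹ • (x - a) with hv
      have hv1 : ‖v‖ = 1 := by
        rw [hv, norm_smul, norm_inv, norm_norm, inv_mul_cancel₀ hpos.ne']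
      have h1 := le_supp hK hx v
      rw [h v hv1] at h1
      have h2 : (inner ℝ v (x - a) : ℝ) = ‖x - a‖ := by
        rw [hv, real_inner_smul_left, real_inner_self_eq_norm_sq]
        field_simp
      rw [inner_sub_right] at h2
      rw [← h2]
      have h3 : (inner ℝ v a : ℝ) = inner ℝ a v := real_inner_comm _ _
      linarith
  · intro x hx
    rw [Metric.mem_closedBall, dist_eq_norm] at hx
    by_contra hxK
    obtain ⟨f, u, hf1, hf2⟩ := geometric_hahn_banach_closed_point hc hK.isClosed hxK
    set w : E3 := (InnerProductSpace.toDual ℝ E3).symm f with hw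
    have hfw : ∀ y : E3, f y = inner ℝ w y := fun y => by
      rw [hw, InnerProductSpace.toDual_symm_apply]
    have hw0 : w ≠ 0 := by
      intro h0
      obtain ⟨y, hy⟩ := hne
      have h1 := hf1 y hy
      rw [hfw, h0, inner_zero_left] at h1
      rw [hfw, h0, inner_zero_left] at hf2
      linarith
    have hpos : 0 < ‖w‖ := norm_pos_iff.2 hw0
    set v : E3 := ‖w‖⁻¹ • w with hv
    have hv1 : ‖v‖ = 1 := by
      rw [hv, norm_smul, norm_inv, norm_norm, inv_mul_cancel₀ hpos.ne']
    obtain ⟨y, hy, hyv⟩ := exists_supp hK hne v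
    have h1 : (inner ℝ w y : ℝ) < inner ℝ w x := by
      rw [← hfw, ← hfw]
      exact (hf1 y hy).trans hf2
    have h2 : (inner ℝ v y : ℝ) < inner ℝ v x := by
      rw [hv, real_inner_smul_left, real_inner_smul_left]
      exact mul_lt_mul_of_pos_left h1 (inv_pos.2 hpos)
    rw [hyv, h v hv1] at h2
    have h3 : (inner ℝ v (x - a) : ℝ) ≤ r := by
      refine (real_inner_le_norm _ _).trans ?_
      rw [hv1, one_mul]
      exact hx
    rw [inner_sub_right] at h3
    have h4 : (inner ℝ v a : ℝ) = inner ℝ a v := real_inner_comm _ _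
    linarith

end Pool.Agent.Helper85.BD
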