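import Pool.Agent.Helper85.BD.PolyDer
import Pool.Agent.Helper85.BD.Vari

/-!
# MP_8ad3e9_gt, project BD: if `VV` is constant then the top form vanishes on the null cone

Let `p` have degree at most `N`, `2 ≤ N`, and let `VV (ev p)` be constant. Fix an orthonormal
basis `(a, b, n)`. For real `t` put `e(t) = cos t a + sin t b`, `e'(t) = - sin t a + cos t b`; the
circle orthogonal to `e(t)` is `cos s e'(t) + sin s n`. With `X = exp(i t)`, `z = a - i b`:
`X e(t) = (X² z + conj z) / 2`, `X e'(t) = (i X² z - i conj z) / 2`. So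
`X^N * fderiv (ev p) (cos s e'(t) + sin s n) (e(t))` is a polynomial in `X` of degree at most `2 N`
whose coefficients are polynomials in `(cos s, sin s)`, that is, the evaluation of some
`P : Polynomial (MvPolynomial (Fin 2) ℂ)`, with coefficient of `X^(2N)` equal to
`2^(-N) (i cos s)^(N-1) ∑ z_i (∂_i p_N)(z) = 2^(-N) (i cos s)^(N-1) N p_N(z)` (Euler), `p_N` the
homogeneous component of degree `N` (the component of degree `k < N` contributes
`X^(N-k) * (degree at most 2k)`, of degree less than `2N`).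
Let `Λ : MvPolynomial (Fin 2) ℂ → ℂ` be the mean of `f (cos s, sin s)` over the circle, a linear
functional, and `Q = (Λ applied to the coefficients of P²) - (Λ applied to the coefficients of P)²`,
a polynomial of degree at most `4 N`. Then `Q(exp(i t)) = exp(2 i N t) VV(t) = C exp(2 i N t)` for all
real `t`, so `Q = C X^(2N)` (infinitely many points), and the coefficient of `X^(4N)` of `Q`,
`(2^(-N) i^(N-1) N p_N(z))² (Λ(cos^(2N-2)) - Λ(cos^(N-1))²)`, is zero. The last factor is the variance
of the nonconstant continuous function `cos^(N-1)`, so it is positive. Hence `p_N(z) = 0`.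
-/

set_option autoImplicit false

open MeasureTheory Set
open scoped MeasureTheory Real

namespace Pool.Agent.Helper85.BD

/-- The complex mean over the circle. -/
private noncomputable def Lam (f : ℝ → ℂ) : ℂ := ((2 * π)⁻¹ : ℝ) * ∫ s in (-π)..π, f s

private theorem Lam_add {f g : ℝ → ℂ} (hf : Continuous f) (hg : Continuous g) :
    Lam (fun s => f s + g s) = Lam f + Lam g := by
  unfold Lam
  rw [intervalIntegral.integral_add (hf.intervalIntegrable _ _) (hg.intervalIntegrable _ _), mul_add]

private theorem Lam_mul_const (f : ℝ → ℂ) (c : ℂ) : Lam (fun s => f s * c) = Lam f * c := by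
  unfold Lam
  rw [intervalIntegral.integral_mul_const, mul_assoc]

private theorem Lam_ofReal (f : ℝ → ℝ) : Lam (fun s => ((f s : ℝ) : ℂ)) = ((mean f : ℝ) : ℂ) := by
  unfold Lam mean
  rw [intervalIntegral.integral_ofReal]
  push_cast
  ring

/-- Polynomial dependence on `y` with coefficients continuous in `s`. -/
private def IsPoly (F : ℂ → ℝ → ℂ) : Prop :=
  ∃ P : Polynomial C(ℝ, ℂ), ∀ y s, F y s = (P.eval (algebraMap ℂ C(ℝ, ℂ) y)) s

private theorem algMap_apply (y : ℂ) (s : ℝ) : (algebraMap ℂ C(ℝ, ℂ) y) s = y := by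
  rw [Algebra.algebraMap_eq_smul_one]
  simp

private theorem isPoly_cont {f : ℝ → ℂ} (hf : Continuous f) : IsPoly (fun _ s => f s) :=
  ⟨Polynomial.C ⟨f, hf⟩, fun y s => by simp⟩

private theorem isPoly_const (c : ℂ) : IsPoly (fun _ _ => c) := isPoly_cont continuous_const

private theorem isPoly_y : IsPoly (fun y _ => y) :=
  ⟨Polynomial.X, fun y s => by rw [Polynomial.eval_X]; exact (algMap_apply y s).symm⟩

private theorem IsPoly.add {F G : ℂ → ℝ → ℂ} (hF : IsPoly F) (hG : IsPoly G) :
    IsPoly (fun y s => F y s + G y s) := by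
  obtain ⟨P, hP⟩ := hF
  obtain ⟨Q, hQ⟩ := hG
  exact ⟨P + Q, fun y s => by simp [hP, hQ]⟩

private theorem IsPoly.sub {F G : ℂ → ℝ → ℂ} (hF : IsPoly F) (hG : IsPoly G) :
    IsPoly (fun y s => F y s - G y s) := by
  obtain ⟨P, hP⟩ := hF
  obtain ⟨Q, hQ⟩ := hG
  exact ⟨P - Q, fun y s => by simp [hP, hQ]⟩

private theorem IsPoly.mul {F G : ℂ → ℝ → ℂ} (hF : IsPoly F) (hG : IsPoly G) :
    IsPoly (fun y s => F y s * G y s) := by
  obtain ⟨P, hP⟩ := hF
  obtain ⟨Q, hQ⟩ := hG
  exact ⟨P * Q, fun y s => by simp [hP, hQ]⟩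

private theorem IsPoly.pow {F : ℂ → ℝ → ℂ} (hF : IsPoly F) (n : ℕ) :
    IsPoly (fun y s => F y s ^ n) := by
  obtain ⟨P, hP⟩ := hF
  exact ⟨P ^ n, fun y s => by simp [hP]⟩

private theorem IsPoly.sum {ι : Type} (S : Finset ι) {F : ι → ℂ → ℝ → ℂ}
    (hF : ∀ i ∈ S, IsPoly (F i)) : IsPoly (fun y s => ∑ i ∈ S, F i y s) := by
  classical
  induction S using Finset.induction_on with
  | empty => simpa using isPoly_const 0
  | insert a S ha ih =>
    simp only [Finset.sum_insert ha]
    exact (hF a (Finset.mem_insert_self _ _)).add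
      (ih fun i hi => hF i (Finset.mem_insert_of_mem hi))

private theorem IsPoly.aeval {W : Fin 3 → ℂ → ℝ → ℂ} (hW : ∀ j, IsPoly (W j))
    (q : MvPolynomial (Fin 3) ℝ) : IsPoly (fun y s => MvPolynomial.aeval (fun j => W j y s) q) := by
  induction q using MvPolynomial.induction_on with
  | C a => simpa using isPoly_const ((a : ℝ) : ℂ)
  | add p q hp hq => simpa using hp.add hq
  | mul_X p i hp => simpa using hp.mul (hW i)

private theorem IsPoly.continuous {F : ℂ → ℝ → ℂ} (hF : IsPoly F) (y : ℂ) :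
    Continuous (F y) := by
  obtain ⟨P, hP⟩ := hF
  have : F y = fun s => (P.eval (algebraMap ℂ C(ℝ, ℂ) y)) s := funext fun s => hP y s
  rw [this]
  exact (P.eval (algebraMap ℂ C(ℝ, ℂ) y)).continuous

/-- The mean of a polynomial in `y` is a polynomial in `y`. -/
private theorem IsPoly.lam {F : ℂ → ℝ → ℂ} (hF : IsPoly F) :
    ∃ Q : Polynomial ℂ, ∀ y, Lam (F y) = Q.eval y := by
  obtain ⟨P, hP⟩ := hF
  have key : ∀ P : Polynomial C(ℝ, ℂ), ∃ Q : Polynomial ℂ, ∀ y,
      Lam (fun s => (P.eval (algebraMap ℂ C(ℝ, ℂ) y)) s) = Q.eval y := by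
    intro P
    induction P using Polynomial.induction_on' with
    | add p q hp hq =>
      obtain ⟨Q1, h1⟩ := hp
      obtain ⟨Q2, h2⟩ := hq
      refine ⟨Q1 + Q2, fun y => ?_⟩
      have h3 : Polynomial.eval y (Q1 + Q2) = Polynomial.eval y Q1 + Polynomial.eval y Q2 :=
        Polynomial.eval_add
      rw [h3, ← h1, ← h2, ← Lam_add (ContinuousMap.continuous _)
        (ContinuousMap.continuous _)]
      simp
    | monomial n a =>
      refine ⟨Polynomial.monomial n (Lam a), fun y => ?_⟩
      have h3 : Polynomial.eval y (Polynomial.monomial n (Lam a)) = Lam a * y ^ n :=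
        Polynomial.eval_monomial
      rw [h3, ← Lam_mul_const]
      congr 1
      funext s
      rw [Polynomial.eval_monomial, ContinuousMap.mul_apply, ContinuousMap.pow_apply,
        algMap_apply]
  obtain ⟨Q, hQ⟩ := key P
  refine ⟨Q, fun y => ?_⟩
  rw [← hQ y]
  congr 1
  funext s
  exact hP y s

/-- The identity at `y = 0`. -/
private theorem lam_zero {F : ℂ → ℝ → ℂ} (hF : IsPoly F) {M : ℕ} (hM : M ≠ 0) (C : ℂ)
    (h : ∀ t : ℝ, Lam (fun s => F (Complex.exp (-(t * Complex.I))) s ^ 2)
      - Lam (F (Complex.exp (-(t * Complex.I)))) ^ 2 = C * Complex.exp (-(t * Complex.I)) ^ M) :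
    Lam (fun s => F 0 s ^ 2) = Lam (F 0) ^ 2 := by
  obtain ⟨Q1, h1⟩ := hF.lam
  obtain ⟨Q2, h2⟩ := (hF.pow 2).lam
  set Q : Polynomial ℂ := Q2 - Q1 ^ 2 - Polynomial.C C * Polynomial.X ^ M with hQ
  have hroot : ∀ t : ℝ, Q.IsRoot (Complex.exp (-(t * Complex.I))) := by
    intro t
    have := h t
    rw [h1, h2] at this
    simp only [hQ, Polynomial.IsRoot, Polynomial.eval_sub, Polynomial.eval_pow,
      Polynomial.eval_mul, Polynomial.eval_C, Polynomial.eval_X]
    rw [this, sub_self]
  have hinf : {x : ℂ | Q.IsRoot x}.Infinite := by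
    have hinj : Set.InjOn (fun t : ℝ => Complex.exp (-(t * Complex.I))) (Set.Ioo 0 1) := by
      intro a ha b hb hab
      have hab' : Complex.exp (-(a * Complex.I)) = Complex.exp (-(b * Complex.I)) := hab
      have h3 : (Complex.exp (-(a * Complex.I))).re = (Complex.exp (-(b * Complex.I))).re := by
        rw [hab']
      have h4 : ∀ c : ℝ, (Complex.exp (-(c * Complex.I))).re = Real.cos c := by
        intro c
        rw [Complex.exp_re]
        simp
      rw [h4, h4] at h3
      have hpi := Real.pi_gt_three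
      exact Real.injOn_cos ⟨ha.1.le, by linarith [ha.2]⟩ ⟨hb.1.le, by linarith [hb.2]⟩ h3
    have himg := (Set.Ioo_infinite (show (0 : ℝ) < 1 by norm_num)).image hinj
    refine himg.mono ?_
    rintro _ ⟨t, -, rfl⟩
    exact hroot t
  have hQ0 : Q = 0 := Polynomial.eq_zero_of_infinite_isRoot Q hinf
  have h5 : Q.eval 0 = 0 := by rw [hQ0]; simp
  simp only [hQ, Polynomial.eval_sub, Polynomial.eval_pow, Polynomial.eval_mul,
    Polynomial.eval_C, Polynomial.eval_X, zero_pow hM, mul_zero, sub_zero] at h5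
  rw [← h1, ← h2, sub_eq_zero] at h5
  exact h5

private theorem aeval_scale {q : MvPolynomial (Fin 3) ℝ} {k : ℕ} (hq : q.IsHomogeneous k)
    (x : ℂ) (w : Fin 3 → ℂ) :
    MvPolynomial.aeval (fun j => x * w j) q = x ^ k * MvPolynomial.aeval w q := by
  rw [MvPolynomial.aeval_def, MvPolynomial.aeval_def, MvPolynomial.eval₂_eq',
    MvPolynomial.eval₂_eq', Finset.mul_sum]
  refine Finset.sum_congr rfl fun d hd => ?_
  have hdeg : ∑ i, d i = k := by
    have := hq (MvPolynomial.mem_support_iff.1 hd)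
    rw [← this, Finsupp.weight_apply, Finsupp.sum_fintype _ _ (by simp)]
    simp
  simp_rw [mul_pow]
  rw [Finset.prod_mul_distrib, Finset.prod_pow_eq_pow_sum, hdeg]
  ring

/-- The rotated orthonormal basis. -/
private theorem exists_rot (b : OrthonormalBasis (Fin 3) ℝ E3) (t : ℝ) :
    ∃ B : OrthonormalBasis (Fin 3) ℝ E3, B 0 = Real.cos t • b 0 + Real.sin t • b 1 ∧
      B 1 = (-Real.sin t) • b 0 + Real.cos t • b 1 ∧ B 2 = b 2 := by
  have hb : ∀ i j : Fin 3, (inner ℝ (b i) (b j) : ℝ) = if i = j then 1 else 0 :=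
    fun i j => (orthonormal_iff_ite.1 b.orthonormal) i j
  set v : Fin 3 → E3 := ![Real.cos t • b 0 + Real.sin t • b 1,
    (-Real.sin t) • b 0 + Real.cos t • b 1, b 2] with hv
  have hon : Orthonormal ℝ v := by
    rw [orthonormal_iff_ite]
    intro i j
    have hcs := Real.cos_sq_add_sin_sq t
    have key : ∀ c1 c2 c3 d1 d2 d3 : ℝ, (inner ℝ (c1 • b 0 + c2 • b 1 + c3 • b 2)
        (d1 • b 0 + d2 • b 1 + d3 • b 2) : ℝ) = c1 * d1 + c2 * d2 + c3 * d3 := by
      intro c1 c2 c3 d1 d2 d3
      simp [inner_add_left, inner_add_right, inner_smul_left, inner_smul_right, hb]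
      ring
    have h0 : v 0 = Real.cos t • b 0 + Real.sin t • b 1 + (0 : ℝ) • b 2 := by simp [hv]
    have h1 : v 1 = (-Real.sin t) • b 0 + Real.cos t • b 1 + (0 : ℝ) • b 2 := by simp [hv]
    have h2 : v 2 = (0 : ℝ) • b 0 + (0 : ℝ) • b 1 + (1 : ℝ) • b 2 := by simp [hv]
    have hall : ∀ i j : Fin 3, (inner ℝ (v i) (v j) : ℝ) = if i = j then 1 else 0 := by
      intro i j
      fin_cases i <;> fin_cases j
      · change (inner ℝ (v 0) (v 0) : ℝ) = 1
        rw [h0, key]; nlinarith
      · change (inner ℝ (v 0) (v 1) : ℝ) = 0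
        rw [h0, h1, key]; ring
      · change (inner ℝ (v 0) (v 2) : ℝ) = 0
        rw [h0, h2, key]; ring
      · change (inner ℝ (v 1) (v 0) : ℝ) = 0
        rw [h0, h1, key]; ring
      · change (inner ℝ (v 1) (v 1) : ℝ) = 1
        rw [h1, key]; nlinarith
      · change (inner ℝ (v 1) (v 2) : ℝ) = 0
        rw [h1, h2, key]; ring
      · change (inner ℝ (v 2) (v 0) : ℝ) = 0
        rw [h0, h2, key]; ring
      · change (inner ℝ (v 2) (v 1) : ℝ) = 0
        rw [h1, h2, key]; ring
      · change (inner ℝ (v 2) (v 2) : ℝ) = 1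
        rw [h2, key]; ring
    exact hall i j
  have hcard : Fintype.card (Fin 3) = Module.finrank ℝ E3 := by simp
  have hspan : ⊤ ≤ Submodule.span ℝ (Set.range v) :=
    (hon.linearIndependent.span_eq_top_of_card_eq_finrank hcard).ge
  refine ⟨OrthonormalBasis.mk hon hspan, ?_, ?_, ?_⟩ <;> simp [hv]

theorem null_cone {N : ℕ} (hN : 2 ≤ N) {p : MvPolynomial (Fin 3) ℝ} (hp : p.totalDegree ≤ N)
    (h : ∀ b b' : OrthonormalBasis (Fin 3) ℝ E3, VV (ev p) b = VV (ev p) b')
    (b : OrthonormalBasis (Fin 3) ℝ E3) :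
    MvPolynomial.aeval (fun i : Fin 3 => ((b 0 i : ℝ) : ℂ) - Complex.I * ((b 1 i : ℝ) : ℂ))
      (MvPolynomial.homogeneousComponent N p) = 0 := by
  set z : Fin 3 → ℂ := fun i : Fin 3 => ((b 0 i : ℝ) : ℂ) - Complex.I * ((b 1 i : ℝ) : ℂ) with hz
  set zc : Fin 3 → ℂ := fun i : Fin 3 => ((b 0 i : ℝ) : ℂ) + Complex.I * ((b 1 i : ℝ) : ℂ) with hzc
  -- the polynomial functions
  set E : Fin 3 → ℂ → ℝ → ℂ := fun i y _ => z i / 2 + y ^ 2 * (zc i / 2) with hE
  set W : Fin 3 → ℂ → ℝ → ℂ := fun j y s =>
    (Real.cos s : ℂ) * (Complex.I * z j / 2 - y ^ 2 * (Complex.I * zc j / 2)) +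
      (Real.sin s : ℂ) * (y * ((b 2 j : ℝ) : ℂ)) with hW
  set F : ℂ → ℝ → ℂ := fun y s => ∑ i : Fin 3, E i y s * ∑ k ∈ Finset.range N,
    y ^ (N - 1 - k) * MvPolynomial.aeval (fun j => W j y s)
      (MvPolynomial.pderiv i (MvPolynomial.homogeneousComponent (k + 1) p)) with hF
  have hcos : IsPoly (fun _ s => (Real.cos s : ℂ)) :=
    isPoly_cont (Complex.continuous_ofReal.comp Real.continuous_cos)
  have hsin : IsPoly (fun _ s => (Real.sin s : ℂ)) :=
    isPoly_cont (Complex.continuous_ofReal.comp Real.continuous_sin)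
  have hEp : ∀ i, IsPoly (E i) := fun i =>
    (isPoly_const _).add ((isPoly_y.pow 2).mul (isPoly_const _))
  have hWp : ∀ j, IsPoly (W j) := fun j =>
    (hcos.mul ((isPoly_const _).sub ((isPoly_y.pow 2).mul (isPoly_const _)))).add
      (hsin.mul (isPoly_y.mul (isPoly_const _)))
  have hFp : IsPoly F :=
    IsPoly.sum _ fun i _ => (hEp i).mul (IsPoly.sum _ fun k _ =>
      (isPoly_y.pow _).mul (IsPoly.aeval hWp _))
  -- the decomposition of the derivative
  have hder : ∀ i : Fin 3, MvPolynomial.pderiv i p = ∑ k ∈ Finset.range N,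
      MvPolynomial.pderiv i (MvPolynomial.homogeneousComponent (k + 1) p) := by
    intro i
    have h1 : ∑ k ∈ Finset.range (N + 1), MvPolynomial.homogeneousComponent k p = p := by
      have h2 := MvPolynomial.sum_homogeneousComponent p
      have h3 : ∑ k ∈ Finset.range (N + 1), MvPolynomial.homogeneousComponent k p =
          ∑ k ∈ Finset.range (p.totalDegree + 1), MvPolynomial.homogeneousComponent k p := by
        symm
        refine Finset.sum_subset (fun k hk => ?_) fun k _ hk => ?_
        · simp only [Finset.mem_range] at hk ⊢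
          omega
        · refine MvPolynomial.homogeneousComponent_eq_zero _ _ ?_
          simp only [Finset.mem_range] at hk
          omega
      rw [h3, h2]
    conv_lhs => rw [← h1]
    rw [Finset.sum_range_succ', map_add, map_sum, MvPolynomial.homogeneousComponent_zero,
      MvPolynomial.pderiv_C, add_zero]
  have hhom : ∀ (i : Fin 3) (k : ℕ), (MvPolynomial.pderiv i
      (MvPolynomial.homogeneousComponent (k + 1) p)).IsHomogeneous k := by
    intro i k
    have h1 := (MvPolynomial.homogeneousComponent_isHomogeneous (k + 1) p).pderiv (i := i)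
    simpa using h1
  -- the identity on the circle
  have hcirc : ∀ t : ℝ, Lam (fun s => F (Complex.exp (-(t * Complex.I))) s ^ 2)
      - Lam (F (Complex.exp (-(t * Complex.I)))) ^ 2 =
      ((VV (ev p) b : ℝ) : ℂ) * Complex.exp (-(t * Complex.I)) ^ (2 * N) := by
    intro t
    obtain ⟨B, hB0, hB1, hB2⟩ := exists_rot b t
    set x : ℂ := Complex.exp (t * Complex.I) with hx
    set y : ℂ := Complex.exp (-(t * Complex.I)) with hy
    have hxy : x * y = 1 := by rw [hx, hy, ← Complex.exp_add]; simp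
    have hxv : x = (Real.cos t : ℂ) + (Real.sin t : ℂ) * Complex.I := by
      rw [hx, Complex.exp_mul_I]; push_cast; rfl
    have hyv : y = (Real.cos t : ℂ) - (Real.sin t : ℂ) * Complex.I := by
      rw [hy, ← neg_mul, Complex.exp_mul_I, Complex.cos_neg, Complex.sin_neg]; push_cast; ring
    have hII := Complex.I_mul_I
    have hEx : ∀ (i : Fin 3) (s : ℝ), ((B 0 i : ℝ) : ℂ) = x * E i y s := by
      intro i s
      have h1 : x * E i y s = (x * z i + y * zc i) / 2 := by
        have : x * E i y s = (x * z i + (x * y) * y * zc i) / 2 := by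
          simp only [hE]; ring
        rw [this, hxy, one_mul]
      rw [h1, hB0, hxv, hyv]
      simp only [hz, hzc, PiLp.add_apply, PiLp.smul_apply, smul_eq_mul]
      push_cast
      linear_combination ((Complex.sin t) * ((b 1 i : ℝ) : ℂ)) * hII
    have hWx : ∀ (j : Fin 3) (s : ℝ), ((cir B s j : ℝ) : ℂ) = x * W j y s := by
      intro j s
      have h1 : x * W j y s = (Real.cos s : ℂ) * (Complex.I * (x * z j - y * zc j) / 2) +
          (Real.sin s : ℂ) * ((b 2 j : ℝ) : ℂ) := by
        have : x * W j y s = (Real.cos s : ℂ) * (Complex.I * (x * z j - (x * y) * y * zc j) / 2) +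
          (Real.sin s : ℂ) * ((x * y) * ((b 2 j : ℝ) : ℂ)) := by
          simp only [hW]; ring
        rw [this, hxy, one_mul, one_mul]
      rw [h1, cir, hB1, hB2, hxv, hyv]
      simp only [hz, hzc, PiLp.add_apply, PiLp.smul_apply, smul_eq_mul]
      push_cast
      linear_combination (Complex.cos s * (-Complex.sin t * ((b 0 j : ℝ) : ℂ) +
        Complex.cos t * ((b 1 j : ℝ) : ℂ))) * hII
    set G : ℝ → ℝ := fun s => fderiv ℝ (ev p) (cir B s) (B 0) with hG
    have hFG : ∀ s, F y s = ((G s : ℝ) : ℂ) * y ^ N := by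
      intro s
      have hev : ∀ q : MvPolynomial (Fin 3) ℝ, ((ev q (cir B s) : ℝ) : ℂ) =
          MvPolynomial.aeval (fun j => x * W j y s) q := by
        intro q
        have h1 : (fun j => x * W j y s) = fun j => algebraMap ℝ ℂ (cir B s j) := by
          funext j; rw [← hWx j s]; rfl
        rw [h1, ev]
        exact (MvPolynomial.aeval_algebraMap_apply ℂ (fun j => cir B s j) q).symm
      have h2 : ((G s : ℝ) : ℂ) = ∑ i : Fin 3, (x * E i y s) * ∑ k ∈ Finset.range N,
          x ^ k * MvPolynomial.aeval (fun j => W j y s)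
            (MvPolynomial.pderiv i (MvPolynomial.homogeneousComponent (k + 1) p)) := by
        simp only [hG]
        rw [fderiv_ev]
        push_cast
        refine Finset.sum_congr rfl fun i _ => ?_
        rw [hEx i s, hev, hder i, map_sum]
        congr 1
        refine Finset.sum_congr rfl fun k _ => ?_
        rw [aeval_scale (hhom i k)]
      rw [h2, Finset.sum_mul]
      simp only [hF]
      refine Finset.sum_congr rfl fun i _ => ?_
      rw [Finset.mul_sum, Finset.mul_sum, Finset.sum_mul]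
      refine Finset.sum_congr rfl fun k hk => ?_
      have hk' : k < N := Finset.mem_range.1 hk
      have h3 : x ^ (k + 1) * y ^ N = y ^ (N - 1 - k) := by
        have : N = (k + 1) + (N - 1 - k) := by omega
        conv_lhs => rw [this]
        rw [pow_add y, ← mul_assoc, ← mul_pow, hxy, one_pow, one_mul]
      rw [← h3]
      ring
    have h1 : Lam (F y) = ((mean G : ℝ) : ℂ) * y ^ N := by
      have : F y = fun s => ((G s : ℝ) : ℂ) * y ^ N := funext hFG
      rw [this, Lam_mul_const, Lam_ofReal]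
    have h2 : Lam (fun s => F y s ^ 2) = ((mean (fun s => G s ^ 2) : ℝ) : ℂ) * y ^ (2 * N) := by
      have : (fun s => F y s ^ 2) = fun s => (((G s ^ 2 : ℝ)) : ℂ) * y ^ (2 * N) := by
        funext s
        rw [hFG s]
        push_cast
        ring
      rw [this, Lam_mul_const, Lam_ofReal]
    have h3 : VV (ev p) b = mean (fun s => G s ^ 2) - mean G ^ 2 := by
      rw [h b B]
      rfl
    rw [h1, h2, h3]
    push_cast
    ring
  have h0 := lam_zero hFp (M := 2 * N) (by omega) _ hcirc
  -- the value at zero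
  set κ : ℂ := (1 / 2) * (Complex.I / 2) ^ (N - 1) * (N * MvPolynomial.aeval z
    (MvPolynomial.homogeneousComponent N p)) with hκ
  have hF0 : ∀ s, F 0 s = ((Real.cos s ^ (N - 1) : ℝ) : ℂ) * κ := by
    intro s
    have hW0 : (fun j => W j 0 s) = fun j => ((Real.cos s : ℂ) * (Complex.I / 2)) * z j := by
      funext j
      simp only [hW]
      ring
    have heuler : ∑ i : Fin 3, z i * MvPolynomial.aeval z
        (MvPolynomial.pderiv i (MvPolynomial.homogeneousComponent N p)) =
        N * MvPolynomial.aeval z (MvPolynomial.homogeneousComponent N p) := by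
      have h1 := (MvPolynomial.homogeneousComponent_isHomogeneous N p).sum_X_mul_pderiv
      have h2 := congrArg (MvPolynomial.aeval z) h1
      simpa using h2
    have h1 : ∀ i : Fin 3, (∑ k ∈ Finset.range N, (0 : ℂ) ^ (N - 1 - k) *
        MvPolynomial.aeval (fun j => W j 0 s)
          (MvPolynomial.pderiv i (MvPolynomial.homogeneousComponent (k + 1) p))) =
        ((Real.cos s : ℂ) * (Complex.I / 2)) ^ (N - 1) * MvPolynomial.aeval z
          (MvPolynomial.pderiv i (MvPolynomial.homogeneousComponent N p)) := by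
      intro i
      rw [Finset.sum_eq_single (N - 1)]
      · have hN1 : N - 1 + 1 = N := by omega
        rw [Nat.sub_self, pow_zero, one_mul, hW0, aeval_scale (hhom i (N - 1)), hN1]
      · intro k hk hkN
        have hk' : k < N := Finset.mem_range.1 hk
        rw [zero_pow (by omega), zero_mul]
      · intro hk
        exact absurd (Finset.mem_range.2 (by omega)) hk
    simp only [hF]
    simp only [h1]
    have h2 : ∀ i : Fin 3, E i 0 s * (((Real.cos s : ℂ) * (Complex.I / 2)) ^ (N - 1) *
        MvPolynomial.aeval z (MvPolynomial.pderiv i (MvPolynomial.homogeneousComponent N p))) =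
        (((Real.cos s : ℂ) * (Complex.I / 2)) ^ (N - 1) * (1 / 2)) *
          (z i * MvPolynomial.aeval z
            (MvPolynomial.pderiv i (MvPolynomial.homogeneousComponent N p))) := by
      intro i
      simp only [hE]
      ring
    rw [Finset.sum_congr rfl fun i _ => h2 i, ← Finset.mul_sum, heuler, hκ, mul_pow]
    push_cast
    ring
  have h1 : Lam (F 0) = ((mean (fun s => Real.cos s ^ (N - 1)) : ℝ) : ℂ) * κ := by
    have : F 0 = fun s => ((Real.cos s ^ (N - 1) : ℝ) : ℂ) * κ := funext hF0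
    rw [this, Lam_mul_const, Lam_ofReal]
  have h2 : Lam (fun s => F 0 s ^ 2) =
      ((mean (fun s => (Real.cos s ^ (N - 1)) ^ 2) : ℝ) : ℂ) * κ ^ 2 := by
    have : (fun s => F 0 s ^ 2) = fun s => (((Real.cos s ^ (N - 1)) ^ 2 : ℝ) : ℂ) * κ ^ 2 := by
      funext s
      rw [hF0 s]
      push_cast
      ring
    rw [this, Lam_mul_const, Lam_ofReal]
  have h3 : ((vari (fun t => Real.cos t ^ (N - 1)) : ℝ) : ℂ) * κ ^ 2 = 0 := by
    have h4 : ((vari (fun t => Real.cos t ^ (N - 1)) : ℝ) : ℂ) * κ ^ 2 =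
        Lam (fun s => F 0 s ^ 2) - Lam (F 0) ^ 2 := by
      rw [h1, h2, vari]
      push_cast
      ring
    rw [h4, h0, sub_self]
  have hv := vari_cos_pow hN
  have hκ0 : κ = 0 := by
    rcases mul_eq_zero.1 h3 with h4 | h4
    · exact absurd (Complex.ofReal_eq_zero.1 h4) hv.ne'
    · exact pow_eq_zero_iff (by norm_num) |>.1 h4
  have hN0 : (N : ℂ) ≠ 0 := by
    exact_mod_cast (by omega : N ≠ 0)
  rw [hκ] at hκ0
  have hI : (Complex.I / 2) ^ (N - 1) ≠ 0 := pow_ne_zero _ (by simp)
  rcases mul_eq_zero.1 hκ0 with h4 | h4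
  · rcases mul_eq_zero.1 h4 with h5 | h5
    · norm_num at h5
    · exact absurd h5 hI
  · exact (mul_eq_zero.1 h4).resolve_left hN0

end Pool.Agent.Helper85.BD
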