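import Pool.Agent.Helper85.BD.Core

/-!
# MP_8ad3e9_gt, project BD: the variance is the same in two frames, up to a small error
-/

set_option autoImplicit false

open MeasureTheory Set
open scoped MeasureTheory Real

namespace Pool.Agent.Helper85.BD

/-- The areas of the projections and of the largest sections differ by a constant. -/
def ConstDiff (K : Set E3) : Prop :=
  ∃ a : ENNReal, ∀ e : E3, ‖e‖ = 1 → projArea K e = secArea K e + a

theorem pt_exp (b : OrthonormalBasis (Fin 3) ℝ E3) (t : ℝ) :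
    pt b (Complex.exp (t * Complex.I)) = cir b t := by
  unfold pt cir
  rw [Complex.exp_ofReal_mul_I_re, Complex.exp_ofReal_mul_I_im]

theorem norm_pt_eq (b : OrthonormalBasis (Fin 3) ℝ E3) (w : ℂ) : ‖pt b w‖ = ‖w‖ := by
  have h11 : inner ℝ (b 1) (b 1) = (1 : ℝ) := by
    rw [real_inner_self_eq_norm_sq, b.norm_eq_one, one_pow]
  have h22 : inner ℝ (b 2) (b 2) = (1 : ℝ) := by
    rw [real_inner_self_eq_norm_sq, b.norm_eq_one, one_pow]
  have h12 : inner ℝ (b 1) (b 2) = (0 : ℝ) := b.orthonormal.inner_eq_zero (by decide)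
  have h21 : inner ℝ (b 2) (b 1) = (0 : ℝ) := b.orthonormal.inner_eq_zero (by decide)
  have h1 : ‖pt b w‖ ^ 2 = ‖w‖ ^ 2 := by
    rw [← real_inner_self_eq_norm_sq, Complex.sq_norm, Complex.normSq_apply]
    unfold pt
    rw [inner_add_left, inner_add_right, inner_add_right, inner_smul_left, inner_smul_left,
      inner_smul_left, inner_smul_left, inner_smul_right, inner_smul_right, inner_smul_right,
      inner_smul_right, h11, h22, h12, h21]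
    simp
  exact (sq_eq_sq₀ (norm_nonneg _) (norm_nonneg _)).1 h1

theorem pt_sub (b : OrthonormalBasis (Fin 3) ℝ E3) (w w' : ℂ) : pt b w - pt b w' = pt b (w - w') := by
  unfold pt
  rw [Complex.sub_re, Complex.sub_im, sub_smul, sub_smul]
  abel

theorem inner_pt_zero (b : OrthonormalBasis (Fin 3) ℝ E3) (w : ℂ) :
    (inner ℝ (b 0) (pt b w) : ℝ) = 0 := by
  have h1 : inner ℝ (b 0) (b 1) = (0 : ℝ) := b.orthonormal.inner_eq_zero (by decide)
  have h2 : inner ℝ (b 0) (b 2) = (0 : ℝ) := b.orthonormal.inner_eq_zero (by decide)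
  unfold pt
  rw [inner_add_right, inner_smul_right, inner_smul_right, h1, h2]
  simp

theorem continuous_cir (b : OrthonormalBasis (Fin 3) ℝ E3) : Continuous (cir b) := by
  unfold cir
  fun_prop

/-- The estimates for a first variation `phi`, with parameters. -/
theorem frame_est {K : Set E3} (hK : IsCompact K) (hc : Convex ℝ K) (hne : K.Nonempty)
    {c : ENNReal} (hcH : IsHaus c) {phi : E3 → ℝ} (hphi : ContDiff ℝ 1 phi) {ε κ τ B ρ : ℝ}
    (hε : 0 ≤ ε) (hτ : 0 ≤ τ) (hτ1 : τ ≤ 1) (hρ0 : 0 < ρ) (hρ1 : ρ ≤ 1) (hB : 1 ≤ B)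
    (hκρ : 16 * κ ≤ ρ ^ 2) (hερ : 24 * B * ε ≤ ρ) (hεκ : 100 * B ^ 2 * ε ^ 2 ≤ κ)
    (hD : ∀ v : E3, ‖v‖ = 1 → ‖fderiv ℝ phi v‖ ≤ B)
    (hDm : ∀ v w : E3, ‖v‖ = 1 → ‖w‖ = 1 → ‖v - w‖ ≤ ρ → ‖fderiv ℝ phi v - fderiv ℝ phi w‖ ≤ τ)
    (g1 : ∀ u : E3, ‖u‖ = 1 → |supp K u - 1| ≤ κ)
    (g2 : ∀ v e : E3, ‖v‖ = 1 → ‖e‖ = 1 → (inner ℝ e v : ℝ) = 0 → ∀ l : ℝ, |l| ≤ ρ →
      |supp K (tilt v e l) - supp K v - ε * l * fderiv ℝ phi v e| ≤ τ * ε * |l|)
    (b : OrthonormalBasis (Fin 3) ℝ E3) :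
    projArea K (b 0) ≠ ⊤ ∧ secArea K (b 0) ≠ ⊤ ∧
    |(projArea K (b 0)).toReal - (secArea K (b 0)).toReal -
      c.toReal * (π * ε ^ 2 * VV phi b)| ≤
      c.toReal * (1000 * B ^ 2 * (τ + ρ ^ 2)) * ε ^ 2 := by
  have hb0 : ‖b 0‖ = 1 := b.norm_eq_one 0
  have hVV : VV phi b = vari fun t : ℝ =>
      fderiv ℝ phi (pt b (Complex.exp (t * Complex.I))) (b 0) := by
    unfold VV
    congr 1
    funext t
    rw [pt_exp]
  rw [hVV]
  have hfc : Continuous (fderiv ℝ phi) := hphi.continuous_fderiv (by norm_num)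
  refine core hK hc hne hcH b (fun w => fderiv ℝ phi (pt b w) (b 0)) hε hτ hτ1 hρ0 hρ1 hB hκρ hερ
    hεκ ?_ ?_ ?_ g1 ?_
  · have h1 : (fun t : ℝ => fderiv ℝ phi (pt b (Complex.exp (t * Complex.I))) (b 0)) =
        fun t : ℝ => fderiv ℝ phi (cir b t) (b 0) := by
      funext t
      rw [pt_exp]
    rw [h1]
    exact (hfc.comp (continuous_cir b)).clm_apply continuous_const
  · intro w hw
    have h1 := (fderiv ℝ phi (pt b w)).le_opNorm (b 0)
    rw [hb0, mul_one, Real.norm_eq_abs] at h1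
    exact h1.trans (hD _ (by rw [norm_pt_eq, hw]))
  · intro w w' hw hw' hww
    have h1 := (fderiv ℝ phi (pt b w) - fderiv ℝ phi (pt b w')).le_opNorm (b 0)
    rw [hb0, mul_one, Real.norm_eq_abs] at h1
    refine h1.trans (hDm _ _ (by rw [norm_pt_eq, hw]) (by rw [norm_pt_eq, hw']) ?_)
    rw [pt_sub, norm_pt_eq]
    exact hww
  · intro w hw l hl
    exact g2 _ _ (by rw [norm_pt_eq, hw]) hb0 (inner_pt_zero b w) l hl

theorem two_frames {K : Set E3} (hK : IsCompact K) (hc : Convex ℝ K) (hne : K.Nonempty)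
    (hd : ConstDiff K) {phi : E3 → ℝ} (hphi : ContDiff ℝ 1 phi) {ε κ τ B ρ : ℝ}
    (hε : 0 < ε) (hτ : 0 ≤ τ) (hτ1 : τ ≤ 1) (hρ0 : 0 < ρ) (hρ1 : ρ ≤ 1) (hB : 1 ≤ B)
    (hκρ : 16 * κ ≤ ρ ^ 2) (hερ : 24 * B * ε ≤ ρ) (hεκ : 100 * B ^ 2 * ε ^ 2 ≤ κ)
    (hD : ∀ v : E3, ‖v‖ = 1 → ‖fderiv ℝ phi v‖ ≤ B)
    (hDm : ∀ v w : E3, ‖v‖ = 1 → ‖w‖ = 1 → ‖v - w‖ ≤ ρ → ‖fderiv ℝ phi v - fderiv ℝ phi w‖ ≤ τ)
    (g1 : ∀ u : E3, ‖u‖ = 1 → |supp K u - 1| ≤ κ)
    (g2 : ∀ v e : E3, ‖v‖ = 1 → ‖e‖ = 1 → (inner ℝ e v : ℝ) = 0 → ∀ l : ℝ, |l| ≤ ρ →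
      |supp K (tilt v e l) - supp K v - ε * l * fderiv ℝ phi v e| ≤ τ * ε * |l|)
    (b b' : OrthonormalBasis (Fin 3) ℝ E3) :
    |VV phi b - VV phi b'| ≤ 1000 * B ^ 2 * (τ + ρ ^ 2) := by
  obtain ⟨c, hcH⟩ : ∃ c, IsHaus c := exists_haus
  obtain ⟨hP, hM, h1⟩ := frame_est hK hc hne hcH hphi hε.le hτ hτ1 hρ0 hρ1 hB hκρ hερ hεκ hD hDm g1
    g2 b
  obtain ⟨hP', hM', h1'⟩ := frame_est hK hc hne hcH hphi hε.le hτ hτ1 hρ0 hρ1 hB hκρ hερ hεκ hD hDm
    g1 g2 b'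
  obtain ⟨a, ha⟩ := hd
  have hb := ha (b 0) (b.norm_eq_one 0)
  have hb' := ha (b' 0) (b'.norm_eq_one 0)
  have hat : a ≠ ⊤ := by
    intro h
    rw [h, add_top] at hb
    exact hP hb
  have e1 : (projArea K (b 0)).toReal - (secArea K (b 0)).toReal = a.toReal := by
    rw [hb, ENNReal.toReal_add hM hat]
    ring
  have e2 : (projArea K (b' 0)).toReal - (secArea K (b' 0)).toReal = a.toReal := by
    rw [hb', ENNReal.toReal_add hM' hat]
    ring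
  rw [e1] at h1
  rw [e2] at h1'
  have hc0 : 0 < c.toReal := ENNReal.toReal_pos hcH.1 hcH.2.1
  have h2 := abs_le.1 h1
  have h2' := abs_le.1 h1'
  set F : ℝ := 1000 * B ^ 2 * (τ + ρ ^ 2) with hF
  have hF0 : 0 ≤ F := by positivity
  have hε2 : 0 < ε ^ 2 := by positivity
  have hcε : 0 < c.toReal * ε ^ 2 := by positivity
  have h3 : π * (VV phi b - VV phi b') ≤ 2 * F := by
    have : (c.toReal * ε ^ 2) * (π * (VV phi b - VV phi b')) ≤ (c.toReal * ε ^ 2) * (2 * F) := by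
      nlinarith
    exact le_of_mul_le_mul_left this hcε
  have h4 : π * (VV phi b' - VV phi b) ≤ 2 * F := by
    have : (c.toReal * ε ^ 2) * (π * (VV phi b' - VV phi b)) ≤ (c.toReal * ε ^ 2) * (2 * F) := by
      nlinarith
    exact le_of_mul_le_mul_left this hcε
  have hπ : 2 ≤ π := Real.two_le_pi
  rw [abs_le]
  constructor
  · by_contra hcon
    push Not at hcon
    nlinarith
  · by_contra hcon
    push Not at hcon
    nlinarith

end Pool.Agent.Helper85.BD
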