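import Pool.Agent.Helper85.BD.Rad

/-!
# MP_8ad3e9_gt, project BD: comparison of areas of planar convex sets close to the disc, upper bound

`Q` is close to the unit disc and `L ⊆ Q` has support function at most the support function of `Q`
minus `u` plus `τ`, with `u` small and slowly varying.

Proof. `r(a) = rad Q a` for unit vectors `a`, `1 - κ ≤ r(a) ≤ 1 + κ`, see `Rad.lean`. Let `z = r a ∈ L`
(`a` a unit vector, `0 ≤ r`; so `r ≤ r(a)`) and `r' = r(a) + ζ`, `0 < ζ ≤ ρ ^ 2 / 100`.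
As `r' a` is not in `Q` there is a unit vector `w` with `dotc w (r' a) > dotc w z'` for all
`z' ∈ Q` (`exists_sep`). With the `z'` from the hypothesis `h3` for `w` and `z`:
`r' dotc w a > dotc w z' ≥ dotc w z + u w - τ = r dotc w a + u w - τ`, so, as `dotc w a ≤ 1` and
`r' > r`, `r' - r ≥ u w - τ`. Also `r' dotc w a > 1 - κ` (h2), so
`dotc w a ≥ (1 - κ) / (1 + κ + ζ) ≥ 1 - 2 κ - ζ`, `‖w - a‖ ^ 2 = 2 - 2 dotc w a ≤ 4 κ + 2 ζ ≤ ρ ^ 2`,
hence `u w ≥ u a - m`. So `r ≤ r(a) + ζ - u a + m + τ` for all `ζ`, hence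
`L ⊆ {z : ‖z‖ ≤ r(a) - u(a) + m + τ, a = z / ‖z‖}`. Integrate with `volume_region_real` and
`volume_rad`: `r(a) ^ 2 / 2 - (r(a) - x) ^ 2 / 2 = r(a) x - x ^ 2 / 2` with `x = u(a) - m - τ`,
and `r(a) x - x ^ 2 / 2 ≥ x - κ |x| - x ^ 2 / 2 ≥ u(a) - 2 (m + τ) - 2 κ U` or so.
-/

set_option autoImplicit false

open MeasureTheory Set
open scoped MeasureTheory Real

namespace Pool.Agent.Helper85.BD

/-- The pointwise bound. -/
private theorem pointwise (Q L : Set ℂ) (u : ℂ → ℝ) {κ m τ ρ : ℝ}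
    (hN : NearDisc Q κ) (hLQ : L ⊆ Q) (hρ0 : 0 < ρ) (hρ : 16 * κ ≤ ρ ^ 2)
    (hum : ∀ w w' : ℂ, ‖w‖ = 1 → ‖w'‖ = 1 → ‖w - w'‖ ≤ ρ → |u w - u w'| ≤ m)
    (h3 : ∀ w z : ℂ, ‖w‖ = 1 → z ∈ L → ∃ z' ∈ Q, dotc w z ≤ dotc w z' - u w + τ)
    {a : ℂ} (ha : ‖a‖ = 1) {r : ℝ} (hr : 0 ≤ r) (hra : (r : ℂ) * a ∈ L) :
    r ≤ rad Q a - u a + m + τ := by
  obtain ⟨hQ, hQc, hκ0, hκ, h1, h2⟩ := hN
  have hN : NearDisc Q κ := ⟨hQ, hQc, hκ0, hκ, h1, h2⟩
  have hb := rad_bounds hN ha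
  have hrr : r ≤ rad Q a := (mem_iff_le_rad hN ha hr).1 (hLQ hra)
  have hne : Q.Nonempty := ⟨_, hLQ hra⟩
  have key : ∀ ζ : ℝ, 0 < ζ → ζ ≤ ρ ^ 2 / 100 → r ≤ rad Q a - u a + m + τ + ζ := by
    intro ζ hζ0 hζ1
    have hr'0 : 0 ≤ rad Q a + ζ := by linarith
    have hnot : ((rad Q a + ζ : ℝ) : ℂ) * a ∉ Q := by
      rw [mem_iff_le_rad hN ha hr'0]
      intro h
      linarith
    obtain ⟨w, hw, hsep⟩ := exists_sep hQ hQc hne hnot
    rw [dotc_mul_right] at hsep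
    obtain ⟨z', hz', hle⟩ := h3 w _ hw hra
    rw [dotc_mul_right] at hle
    obtain ⟨z2, hz2, hle2⟩ := h2 w hw
    have e1 := hsep z' hz'
    have e2 := hsep z2 hz2
    have hle1 : dotc w a ≤ 1 := dotc_le_one hw ha
    have hpos : 0 < dotc w a := by
      by_contra hneg
      have h0 : dotc w a ≤ 0 := not_lt.1 hneg
      have : (rad Q a + ζ) * dotc w a ≤ 0 := mul_nonpos_of_nonneg_of_nonpos hr'0 h0
      linarith
    have e3 : 1 - 2 * κ - ζ < dotc w a := by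
      by_contra hneg
      have h0 : dotc w a ≤ 1 - 2 * κ - ζ := not_lt.1 hneg
      have h4 : (rad Q a + ζ) * dotc w a ≤ (1 + κ + ζ) * (1 - 2 * κ - ζ) := by
        apply mul_le_mul (by linarith [hb.2]) h0 hpos.le (by linarith)
      nlinarith [mul_nonneg hκ0 hκ0, mul_nonneg hκ0 hζ0.le, mul_nonneg hζ0.le hζ0.le]
    have e4 : ‖w - a‖ ≤ ρ := by
      have h5 := norm_sub_sq_of_unit hw ha
      have h6 : ‖w - a‖ ^ 2 ≤ ρ ^ 2 := by rw [h5]; nlinarith
      exact (sq_le_sq₀ (norm_nonneg _) hρ0.le).1 h6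
    have e5 := hum w a hw ha e4
    have e6 := (abs_le.1 e5).1
    have e7 : (rad Q a + ζ - r) * dotc w a ≤ rad Q a + ζ - r := by
      have : 0 ≤ rad Q a + ζ - r := by linarith
      nlinarith
    nlinarith
  by_contra hcon
  have hcon' := not_le.1 hcon
  have hd : 0 < r - (rad Q a - u a + m + τ) := by linarith
  have hmin : 0 < min ((r - (rad Q a - u a + m + τ)) / 2) (ρ ^ 2 / 100) :=
    lt_min (by linarith) (by positivity)
  have h7 := key _ hmin (min_le_right _ _)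
  have h8 := min_le_left ((r - (rad Q a - u a + m + τ)) / 2) (ρ ^ 2 / 100)
  linarith

theorem planar_upper (Q L : Set ℂ) (u : ℂ → ℝ) {κ U m τ ρ : ℝ}
    (hQ : IsCompact Q) (hQc : Convex ℝ Q) (hLQ : L ⊆ Q)
    (hκ : κ ≤ 1 / 16) (hU : 0 ≤ U) (hm : 0 ≤ m) (hτ : 0 ≤ τ) (hUmτ : U + m + τ ≤ κ)
    (hρ0 : 0 < ρ) (hρ : 16 * κ ≤ ρ ^ 2)
    (h1 : ∀ w z : ℂ, ‖w‖ = 1 → z ∈ Q → dotc w z ≤ 1 + κ)
    (h2 : ∀ w : ℂ, ‖w‖ = 1 → ∃ z ∈ Q, 1 - κ ≤ dotc w z)
    (hu0 : ∀ w : ℂ, ‖w‖ = 1 → 0 ≤ u w) (huU : ∀ w : ℂ, ‖w‖ = 1 → u w ≤ U)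
    (hum : ∀ w w' : ℂ, ‖w‖ = 1 → ‖w'‖ = 1 → ‖w - w'‖ ≤ ρ → |u w - u w'| ≤ m)
    (huc : Continuous fun t : ℝ => u (Complex.exp (t * Complex.I)))
    (h3 : ∀ w z : ℂ, ‖w‖ = 1 → z ∈ L → ∃ z' ∈ Q, dotc w z ≤ dotc w z' - u w + τ) :
    (volume L).toReal ≤ (volume Q).toReal -
      (∫ t in (-π)..π, u (Complex.exp (t * Complex.I))) + 50 * (m + τ + κ * U) := by
  have hκ0 : 0 ≤ κ := by linarith
  have hN : NearDisc Q κ := ⟨hQ, hQc, hκ0, hκ, h1, h2⟩
  have hnorm : ∀ t : ℝ, ‖Complex.exp (t * Complex.I)‖ = 1 := fun t =>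
    Complex.norm_exp_ofReal_mul_I t
  have hrc := continuous_rad hN
  set F : ℂ → ℝ := fun w => rad Q w - u w + m + τ with hF
  have hFc : Continuous fun t : ℝ => F (Complex.exp (t * Complex.I)) := by
    simp only [hF]
    exact ((hrc.sub huc).add continuous_const).add continuous_const
  have hF0 : ∀ w : ℂ, ‖w‖ = 1 → 0 ≤ F w := by
    intro w hw
    have := (rad_bounds hN hw).1
    have := huU w hw
    simp only [hF]
    linarith
  have hFC : ∀ w : ℂ, ‖w‖ = 1 → F w ≤ 2 := by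
    intro w hw
    have := (rad_bounds hN hw).2
    have := hu0 w hw
    simp only [hF]
    linarith
  have hsub : L ⊆ {z : ℂ | ‖z‖ ≤ F (Complex.exp (z.arg * Complex.I))} := by
    intro z hz
    have hz2 : ((‖z‖ : ℝ) : ℂ) * Complex.exp (z.arg * Complex.I) ∈ L := by
      rw [Complex.norm_mul_exp_arg_mul_I]; exact hz
    exact pointwise Q L u hN hLQ hρ0 hρ hum h3 (hnorm z.arg) (norm_nonneg z) hz2
  have hfin : volume {z : ℂ | ‖z‖ ≤ F (Complex.exp (z.arg * Complex.I))} ≠ ⊤ := by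
    have hball : volume (Metric.closedBall (0 : ℂ) 2) ≠ ⊤ := measure_closedBall_lt_top.ne
    apply ne_top_of_le_ne_top hball
    apply measure_mono
    intro z hz
    rw [Metric.mem_closedBall, dist_zero_right]
    exact le_trans hz (hFC _ (hnorm _))
  have hvol : (volume L).toReal ≤
      (volume {z : ℂ | ‖z‖ ≤ F (Complex.exp (z.arg * Complex.I))}).toReal :=
    ENNReal.toReal_mono hfin (measure_mono hsub)
  have hreg := volume_region_real F hFc.measurable hF0 hFC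
  rw [hreg] at hvol
  have hQv := volume_rad hN
  have hpi : (-π : ℝ) ≤ π := by linarith [Real.pi_pos]
  have hmono : (∫ t in (-π)..π, F (Complex.exp (t * Complex.I)) ^ 2 / 2) ≤
      ∫ t in (-π)..π, (rad Q (Complex.exp (t * Complex.I)) ^ 2 / 2 -
        u (Complex.exp (t * Complex.I)) + 7 * (m + τ + κ * U)) := by
    apply intervalIntegral.integral_mono_on hpi
    · exact ((hFc.pow 2).div_const 2).intervalIntegrable _ _
    · exact ((((hrc.pow 2).div_const 2).sub huc).add continuous_const).intervalIntegrable _ _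
    · intro t _
      have hw := hnorm t
      have b1 := (rad_bounds hN hw).1
      have b2 := (rad_bounds hN hw).2
      have b3 := hu0 _ hw
      have b4 := huU _ hw
      simp only [hF]
      generalize rad Q (Complex.exp (t * Complex.I)) = r at *
      generalize u (Complex.exp (t * Complex.I)) = v at *
      have c1 : v * (1 - r) ≤ κ * U := by
        have : v * (1 - r) ≤ v * κ := mul_le_mul_of_nonneg_left (by linarith) b3
        nlinarith
      have c2 : v ^ 2 ≤ κ * U := by nlinarith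
      have c3 : (m + τ) ^ 2 ≤ m + τ := by nlinarith
      have c4 : r * (m + τ) ≤ 2 * (m + τ) := mul_le_mul_of_nonneg_right (by linarith) (by linarith)
      have c5 : 0 ≤ v * (m + τ) := mul_nonneg b3 (by linarith)
      have c6 : 0 ≤ κ * U := mul_nonneg hκ0 hU
      nlinarith
  have hint : (∫ t in (-π)..π, (rad Q (Complex.exp (t * Complex.I)) ^ 2 / 2 -
        u (Complex.exp (t * Complex.I)) + 7 * (m + τ + κ * U))) =
      (∫ t in (-π)..π, rad Q (Complex.exp (t * Complex.I)) ^ 2 / 2) -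
        (∫ t in (-π)..π, u (Complex.exp (t * Complex.I))) + 2 * π * (7 * (m + τ + κ * U)) := by
    rw [intervalIntegral.integral_add, intervalIntegral.integral_sub,
      intervalIntegral.integral_const, smul_eq_mul]
    · ring
    · exact ((hrc.pow 2).div_const 2).intervalIntegrable _ _
    · exact huc.intervalIntegrable _ _
    · exact (((hrc.pow 2).div_const 2).sub huc).intervalIntegrable _ _
    · exact continuous_const.intervalIntegrable _ _
  have hE : 0 ≤ m + τ + κ * U := by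
    have := mul_nonneg hκ0 hU
    linarith
  have hfinal : 2 * π * (7 * (m + τ + κ * U)) ≤ 50 * (m + τ + κ * U) := by
    have := Real.pi_lt_d2
    nlinarith
  rw [hQv]
  linarith

end Pool.Agent.Helper85.BD
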