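import Pool.Agent.Helper85.BD.Defs

/-!
# MP_8ad3e9_gt, project BD: area of a star shaped region of the complex plane

Use `Complex.lintegral_comp_polarCoord_symm` and Tonelli.
-/

set_option autoImplicit false

open MeasureTheory Set
open scoped MeasureTheory Real

namespace Pool.Agent.Helper85.BD

private theorem inner_int (a : ℝ) (ha : 0 ≤ a) :
    ∫⁻ r in Ioi (0 : ℝ), ENNReal.ofReal r * (Iic a).indicator (fun _ => (1 : ENNReal)) r =
      ENNReal.ofReal (a ^ 2 / 2) := by
  have h1 : ∀ r : ℝ, ENNReal.ofReal r * (Iic a).indicator (fun _ => (1 : ENNReal)) r =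
      (Iic a).indicator (fun r => ENNReal.ofReal r) r := by
    intro r
    by_cases hr : r ∈ Iic a
    · simp [indicator_of_mem hr]
    · simp [indicator_of_notMem hr]
  simp only [h1]
  rw [lintegral_indicator measurableSet_Iic, Measure.restrict_restrict measurableSet_Iic,
    inter_comm, Ioi_inter_Iic]
  have h2 : ∫ r in (0 : ℝ)..a, r = a ^ 2 / 2 := by
    rw [integral_id]
    ring
  rw [← h2, intervalIntegral.integral_of_le ha,
    ofReal_integral_eq_lintegral_ofReal]
  · have h3 : IntervalIntegrable (fun r : ℝ => r) volume 0 a :=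
      continuous_id.intervalIntegrable _ _
    exact (intervalIntegrable_iff_integrableOn_Ioc_of_le ha).1 h3
  · filter_upwards [ae_restrict_mem measurableSet_Ioc] with r hr
    exact hr.1.le

theorem volume_region (f : ℝ → ℝ) (hf : Measurable f) (h0 : ∀ t, 0 ≤ f t) :
    volume {z : ℂ | ‖z‖ ≤ f z.arg} = ∫⁻ t in Ioo (-π) π, ENNReal.ofReal (f t ^ 2 / 2) := by
  have hS : MeasurableSet {z : ℂ | ‖z‖ ≤ f z.arg} :=
    measurableSet_le measurable_norm (hf.comp Complex.measurable_arg)
  rw [← lintegral_indicator_one hS, ← Complex.lintegral_comp_polarCoord_symm]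
  have h1 : ∀ p ∈ polarCoord.target,
      ENNReal.ofReal p.1 • ({z : ℂ | ‖z‖ ≤ f z.arg}.indicator (1 : ℂ → ENNReal))
        (Complex.polarCoord.symm p) =
      ENNReal.ofReal p.1 * (Iic (f p.2)).indicator (fun _ => (1 : ENNReal)) p.1 := by
    intro p hp
    have hp1 : 0 < p.1 := hp.1
    have hp2 : p.2 ∈ Ioo (-π) π := hp.2
    have hn : ‖Complex.polarCoord.symm p‖ = p.1 := by
      rw [Complex.norm_polarCoord_symm, abs_of_pos hp1]
    have ha : (Complex.polarCoord.symm p).arg = p.2 := by
      rw [Complex.polarCoord_symm_apply, Complex.ofReal_cos, Complex.ofReal_sin,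
        Complex.arg_mul_cos_add_sin_mul_I hp1 ⟨hp2.1, hp2.2.le⟩]
    by_cases hc : p.1 ≤ f p.2
    · have hm : Complex.polarCoord.symm p ∈ {z : ℂ | ‖z‖ ≤ f z.arg} := by
        show ‖Complex.polarCoord.symm p‖ ≤ f (Complex.polarCoord.symm p).arg
        rw [hn, ha]
        exact hc
      rw [indicator_of_mem hm, indicator_of_mem (show p.1 ∈ Iic (f p.2) from hc)]
      rfl
    · have hm : Complex.polarCoord.symm p ∉ {z : ℂ | ‖z‖ ≤ f z.arg} := by
        show ¬ ‖Complex.polarCoord.symm p‖ ≤ f (Complex.polarCoord.symm p).arg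
        rw [hn, ha]
        exact hc
      rw [indicator_of_notMem hm, indicator_of_notMem (show p.1 ∉ Iic (f p.2) from hc)]
      simp
  rw [setLIntegral_congr_fun polarCoord.open_target.measurableSet h1]
  have h2 : (polarCoord.target : Set (ℝ × ℝ)) = Ioi (0 : ℝ) ×ˢ Ioo (-π) π := rfl
  rw [h2, Measure.volume_eq_prod, ← Measure.prod_restrict, lintegral_prod_symm]
  · refine lintegral_congr fun t => ?_
    exact inner_int (f t) (h0 t)
  · refine Measurable.aemeasurable ?_
    refine (ENNReal.measurable_ofReal.comp measurable_fst).mul ?_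
    have h3 : (fun p : ℝ × ℝ => (Iic (f p.2)).indicator (fun _ => (1 : ENNReal)) p.1) =
        {p : ℝ × ℝ | p.1 ≤ f p.2}.indicator (fun _ => (1 : ENNReal)) := by
      funext p
      by_cases hc : p.1 ≤ f p.2
      · rw [indicator_of_mem (show p.1 ∈ Iic (f p.2) from hc),
          indicator_of_mem (show p ∈ {p : ℝ × ℝ | p.1 ≤ f p.2} from hc)]
      · rw [indicator_of_notMem (show p.1 ∉ Iic (f p.2) from hc),
          indicator_of_notMem (show p ∉ {p : ℝ × ℝ | p.1 ≤ f p.2} from hc)]
    rw [h3]
    exact measurable_const.indicator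
      (measurableSet_le measurable_fst (hf.comp measurable_snd))

/-- Real version, with an arbitrary function of the direction. -/
theorem volume_region_real (f : ℂ → ℝ) (hf : Measurable fun t : ℝ => f (Complex.exp (t * Complex.I)))
    {C : ℝ} (h0 : ∀ w : ℂ, ‖w‖ = 1 → 0 ≤ f w) (hC : ∀ w : ℂ, ‖w‖ = 1 → f w ≤ C) :
    (volume {z : ℂ | ‖z‖ ≤ f (Complex.exp (z.arg * Complex.I))}).toReal =
      ∫ t in (-π)..π, f (Complex.exp (t * Complex.I)) ^ 2 / 2 := by
  have h1 := volume_region (fun t : ℝ => f (Complex.exp (t * Complex.I))) hf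
    (fun t => h0 _ (Complex.norm_exp_ofReal_mul_I t))
  rw [h1, intervalIntegral.integral_of_le (by linarith [Real.pi_pos]), integral_Ioc_eq_integral_Ioo]
  rw [← ofReal_integral_eq_lintegral_ofReal]
  · rw [ENNReal.toReal_ofReal]
    exact integral_nonneg fun t => by positivity
  · refine Measure.integrableOn_of_bounded (M := C ^ 2 / 2) (by simp) ?_ ?_
    · exact ((hf.pow_const 2).div_const 2).aestronglyMeasurable
    · refine Filter.Eventually.of_forall fun t => ?_
      have ha := h0 _ (Complex.norm_exp_ofReal_mul_I t)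
      have hb := hC _ (Complex.norm_exp_ofReal_mul_I t)
      rw [Real.norm_eq_abs, abs_of_nonneg (by positivity)]
      have := pow_le_pow_left₀ ha hb 2
      linarith
  · refine Filter.Eventually.of_forall fun t => ?_
    show (0 : ℝ) ≤ f (Complex.exp (t * Complex.I)) ^ 2 / 2
    positivity

end Pool.Agent.Helper85.BD
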