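import Pool.Agent.Helper85.BD.Defs

/-!
# MP_8ad3e9_gt, project BD: derivatives of polynomial functions; `VV` depends only on the values
on the unit sphere
-/

set_option autoImplicit false

open MeasureTheory Set
open scoped MeasureTheory Real

namespace Pool.Agent.Helper85.BD

/-- A polynomial as a function on the space. -/
noncomputable def ev (p : MvPolynomial (Fin 3) ℝ) (v : E3) : ℝ :=
  MvPolynomial.eval (fun i => v i) p

private theorem contDiff_coord (i : Fin 3) : ContDiff ℝ 1 (fun v : E3 => v i) :=
  (EuclideanSpace.proj i : E3 →L[ℝ] ℝ).contDiff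

private theorem fderiv_coord (i : Fin 3) (v e : E3) :
    fderiv ℝ (fun v : E3 => v i) v e = e i := by
  have := (EuclideanSpace.proj i : E3 →L[ℝ] ℝ).hasFDerivAt (x := v)
  have h2 : fderiv ℝ (fun v : E3 => v i) v =
      (EuclideanSpace.proj i : E3 →L[ℝ] ℝ) := this.fderiv
  rw [h2]
  rfl

theorem contDiff_ev (p : MvPolynomial (Fin 3) ℝ) : ContDiff ℝ 1 (ev p) := by
  induction p using MvPolynomial.induction_on with
  | C a =>
    have : ev (MvPolynomial.C a) = fun _ => a := by
      funext v; simp [ev]
    rw [this]
    exact contDiff_const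
  | add p q hp hq =>
    have : ev (p + q) = fun v => ev p v + ev q v := by
      funext v; simp [ev]
    rw [this]
    exact hp.add hq
  | mul_X p i hp =>
    have : ev (p * MvPolynomial.X i) = fun v => ev p v * v i := by
      funext v; simp [ev]
    rw [this]
    exact hp.mul (contDiff_coord i)

theorem fderiv_ev (p : MvPolynomial (Fin 3) ℝ) (v e : E3) :
    fderiv ℝ (ev p) v e = ∑ i, e i * ev (MvPolynomial.pderiv i p) v := by
  induction p using MvPolynomial.induction_on with
  | C a =>
    have : ev (MvPolynomial.C a) = fun _ => a := by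
      funext v; simp [ev]
    rw [this]
    simp [ev]
  | add p q hp hq =>
    have : ev (p + q) = fun v => ev p v + ev q v := by
      funext v; simp [ev]
    rw [this, fderiv_fun_add ((contDiff_ev p).differentiable one_ne_zero v)
      ((contDiff_ev q).differentiable one_ne_zero v)]
    simp only [FunLike.coe_add, Pi.add_apply] at *
    rw [hp, hq, ← Finset.sum_add_distrib]
    refine Finset.sum_congr rfl fun i _ => ?_
    simp [ev]
    ring
  | mul_X p i hp =>
    have : ev (p * MvPolynomial.X i) = fun v => ev p v * v i := by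
      funext v; simp [ev]
    rw [this, fderiv_fun_mul ((contDiff_ev p).differentiable one_ne_zero v)
      ((contDiff_coord i).differentiable one_ne_zero v)]
    simp only [FunLike.coe_add, Pi.add_apply, FunLike.coe_smul, Pi.smul_apply,
      smul_eq_mul]
    rw [hp, fderiv_coord]
    have h2 : ∀ j, ev (MvPolynomial.pderiv j (p * MvPolynomial.X i)) v =
        ev (MvPolynomial.pderiv j p) v * v i + ev p v * (if i = j then 1 else 0) := by
      intro j
      by_cases hij : i = j
      · subst hij
        simp [ev]
        ring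
      · simp [ev, hij]
        ring
    simp only [h2, mul_add, Finset.sum_add_distrib]
    rw [Finset.mul_sum]
    have h3 : ∑ j, e j * (ev p v * (if i = j then (1 : ℝ) else 0)) = ev p v * e i := by
      rw [Finset.sum_eq_single i]
      · simp; ring
      · intro j _ hj
        simp [Ne.symm hj]
      · simp
    rw [h3, add_comm]
    congr 1
    refine Finset.sum_congr rfl fun j _ => ?_
    ring

private theorem norm_circ {v e : E3} (hv : ‖v‖ = 1) (he : ‖e‖ = 1)
    (hev : (inner ℝ e v : ℝ) = 0) (s : ℝ) : ‖Real.cos s • v + Real.sin s • e‖ = 1 := by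
  have h0 : ‖Real.cos s • v + Real.sin s • e‖ ^ 2 = 1 := by
    rw [norm_add_sq_real, norm_smul, norm_smul, hv, he, inner_smul_left, inner_smul_right,
      real_inner_comm, hev]
    simp
  have := norm_nonneg (Real.cos s • v + Real.sin s • e)
  nlinarith

private theorem deriv_circ {f : E3 → ℝ} (hf : ContDiff ℝ 1 f) (v e : E3) :
    HasDerivAt (fun s : ℝ => f (Real.cos s • v + Real.sin s • e)) (fderiv ℝ f v e) 0 := by
  have h1 : HasDerivAt (fun s : ℝ => Real.cos s • v + Real.sin s • e) e 0 := by
    have h0 := ((Real.hasDerivAt_cos 0).smul_const v).add ((Real.hasDerivAt_sin 0).smul_const e)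
    have h1 : HasDerivAt (fun s : ℝ => Real.cos s • v + Real.sin s • e)
      (-Real.sin 0 • v + Real.cos 0 • e) 0 := h0
    rw [Real.sin_zero, Real.cos_zero, neg_zero, zero_smul, zero_add, one_smul] at h1
    exact h1
  have h2 : HasFDerivAt f (fderiv ℝ f v) (Real.cos 0 • v + Real.sin 0 • e) := by
    have := (hf.differentiable one_ne_zero v).hasFDerivAt
    simpa using this
  exact h2.comp_hasDerivAt (0 : ℝ) h1

/-- The derivative in a tangential direction only depends on the values on the unit sphere
(differentiate along the great circle `cos s • v + sin s • e`). -/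
theorem fderiv_congr {f g : E3 → ℝ} (hf : ContDiff ℝ 1 f) (hg : ContDiff ℝ 1 g)
    (h : ∀ v : E3, ‖v‖ = 1 → f v = g v) {v e : E3} (hv : ‖v‖ = 1) (he : ‖e‖ = 1)
    (hev : (inner ℝ e v : ℝ) = 0) : fderiv ℝ f v e = fderiv ℝ g v e := by
  have h1 := deriv_circ hf v e
  have h2 := deriv_circ hg v e
  have h3 : (fun s : ℝ => f (Real.cos s • v + Real.sin s • e)) =
      fun s : ℝ => g (Real.cos s • v + Real.sin s • e) := by
    funext s
    exact h _ (norm_circ hv he hev s)
  rw [h3] at h1
  exact h1.unique h2

private theorem norm_cir (b : OrthonormalBasis (Fin 3) ℝ E3) (t : ℝ) : ‖cir b t‖ = 1 := by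
  unfold cir
  exact norm_circ (b.orthonormal.1 1) (b.orthonormal.1 2)
    (b.orthonormal.2 (by decide : (2 : Fin 3) ≠ 1)) t

private theorem inner_cir (b : OrthonormalBasis (Fin 3) ℝ E3) (t : ℝ) :
    (inner ℝ (b 0) (cir b t) : ℝ) = 0 := by
  unfold cir
  rw [inner_add_right, inner_smul_right, inner_smul_right,
    b.orthonormal.2 (by decide : (0 : Fin 3) ≠ 1), b.orthonormal.2 (by decide : (0 : Fin 3) ≠ 2)]
  simp

theorem VV_congr {f g : E3 → ℝ} (hf : ContDiff ℝ 1 f) (hg : ContDiff ℝ 1 g)
    (h : ∀ v : E3, ‖v‖ = 1 → f v = g v) (b : OrthonormalBasis (Fin 3) ℝ E3) :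
    VV f b = VV g b := by
  unfold VV
  congr 1
  funext t
  exact fderiv_congr hf hg h (norm_cir b t) (b.orthonormal.1 0) (inner_cir b t)

private theorem continuous_cir (b : OrthonormalBasis (Fin 3) ℝ E3) : Continuous (cir b) := by
  unfold cir
  fun_prop

private theorem vari_add_const {u : ℝ → ℝ} (hu : Continuous u) (k : ℝ) :
    vari (fun t => u t + k) = vari u := by
  unfold vari mean
  have hpi : (2 * π) ≠ 0 := by positivity
  have i1 : IntervalIntegrable u volume (-π) π := hu.intervalIntegrable _ _
  have i2 : IntervalIntegrable (fun t => u t ^ 2) volume (-π) π :=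
    (hu.pow 2).intervalIntegrable _ _
  have e1 : ∫ t in (-π)..π, (u t + k) = (∫ t in (-π)..π, u t) + 2 * π * k := by
    rw [intervalIntegral.integral_add i1 (by simp), intervalIntegral.integral_const, smul_eq_mul]
    ring
  have e2 : ∫ t in (-π)..π, (u t + k) ^ 2 = (∫ t in (-π)..π, u t ^ 2) +
      2 * k * (∫ t in (-π)..π, u t) + 2 * π * k ^ 2 := by
    have : (fun t => (u t + k) ^ 2) = fun t => (u t ^ 2 + 2 * k * u t) + k ^ 2 := by
      funext t; ring
    rw [this, intervalIntegral.integral_add (i2.add (i1.const_mul _)) (by simp),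
      intervalIntegral.integral_add i2 (i1.const_mul _), intervalIntegral.integral_const_mul,
      intervalIntegral.integral_const, smul_eq_mul]
    ring
  rw [e1, e2]
  field_simp
  ring

/-- Adding an affine function does not change `VV`. -/
theorem VV_add_affine {f : E3 → ℝ} (hf : ContDiff ℝ 1 f) (c : ℝ) (a : E3)
    (b : OrthonormalBasis (Fin 3) ℝ E3) :
    VV (fun v => f v + (c + (inner ℝ a v : ℝ))) b = VV f b := by
  have hc : Continuous fun t => fderiv ℝ f (cir b t) (b 0) := by
    have h1 : Continuous (fderiv ℝ f) := hf.continuous_fderiv one_ne_zero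
    exact (h1.comp (continuous_cir b)).clm_apply continuous_const
  have hd : (fun t => fderiv ℝ (fun v => f v + (c + (inner ℝ a v : ℝ))) (cir b t) (b 0)) =
      fun t => fderiv ℝ f (cir b t) (b 0) + (inner ℝ a (b 0) : ℝ) := by
    funext t
    have h1 : HasFDerivAt f (fderiv ℝ f (cir b t)) (cir b t) :=
      (hf.differentiable one_ne_zero _).hasFDerivAt
    have h2 : HasFDerivAt (fun v : E3 => c + (inner ℝ a v : ℝ)) (innerSL ℝ a) (cir b t) :=
      ((innerSL ℝ a).hasFDerivAt (x := cir b t)).const_add c
    have h3 := (h1.add h2).fderiv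
    have h4 : (fderiv ℝ (fun v => f v + (c + (inner ℝ a v : ℝ))) (cir b t)) =
      fderiv ℝ f (cir b t) + innerSL ℝ a := h3
    rw [h4]
    simp
  unfold VV
  rw [hd]
  exact vari_add_const hc _

end Pool.Agent.Helper85.BD
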