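import Pool.Agent.Helper85.BD.Polar

/-!
# MP_8ad3e9_gt, project BD: the radial function of a planar convex set close to the unit disc

`Q` is a compact convex set of the plane whose support function `w ↦ max_{z ∈ Q} dotc w z` is between
`1 - κ` and `1 + κ`. It contains the ball of radius `1 - κ` (if `z ∉ Q` separate: there is a unit
vector `w` with `dotc w z > dotc w y` for all `y ∈ Q`, so `‖z‖ > 1 - κ`), so `0` is an interior point and
`gauge Q` is continuous. For a unit vector `w` put `rad Q w = (gauge Q w)⁻¹`.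
-/

set_option autoImplicit false

open MeasureTheory Set
open scoped MeasureTheory Real

namespace Pool.Agent.Helper85.BD

private theorem norm_sq_eq (z : ℂ) : ‖z‖ ^ 2 = z.re * z.re + z.im * z.im := by
  rw [← Complex.normSq_eq_norm_sq, Complex.normSq_apply]

private theorem dotc_le_norm {w z : ℂ} (hw : ‖w‖ = 1) : dotc w z ≤ ‖z‖ := by
  have h1 := norm_sq_eq w
  have h2 := norm_sq_eq z
  rw [hw] at h1
  have h3 : dotc w z ^ 2 ≤ ‖z‖ ^ 2 := by
    have : ‖z‖ ^ 2 = (w.re * w.re + w.im * w.im) * (z.re * z.re + z.im * z.im) := by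
      rw [h2, ← h1]; ring
    rw [this]
    unfold dotc
    nlinarith [sq_nonneg (w.re * z.im - w.im * z.re)]
  exact le_of_sq_le_sq h3 (norm_nonneg _)

private theorem dotc_self_dir {z : ℂ} (hz : z ≠ 0) :
    ‖((‖z‖⁻¹ : ℝ) : ℂ) * z‖ = 1 ∧ dotc (((‖z‖⁻¹ : ℝ) : ℂ) * z) z = ‖z‖ := by
  have hpos : 0 < ‖z‖ := norm_pos_iff.mpr hz
  refine ⟨?_, ?_⟩
  · rw [norm_mul, Complex.norm_real, norm_inv, norm_norm]
    exact inv_mul_cancel₀ hpos.ne'
  · have h2 := norm_sq_eq z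
    unfold dotc
    rw [Complex.re_ofReal_mul, Complex.im_ofReal_mul]
    have h3 : ‖z‖⁻¹ * z.re * z.re + ‖z‖⁻¹ * z.im * z.im = ‖z‖⁻¹ * ‖z‖ ^ 2 := by
      rw [h2]; ring
    rw [h3]
    field_simp

/-- Strict separation of a point and a compact convex set in the plane, by a unit vector. -/
theorem exists_sep {Q : Set ℂ} (hQ : IsCompact Q) (hQc : Convex ℝ Q) (hne : Q.Nonempty) {z : ℂ}
    (hz : z ∉ Q) : ∃ w : ℂ, ‖w‖ = 1 ∧ ∀ y ∈ Q, dotc w y < dotc w z := by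
  obtain ⟨f, u, hf, hu⟩ := geometric_hahn_banach_closed_point hQc hQ.isClosed hz
  set w0 : ℂ := ⟨f 1, f Complex.I⟩ with hw0
  have hfz : ∀ y : ℂ, f y = dotc w0 y := by
    intro y
    have hy : y = y.re • (1 : ℂ) + y.im • Complex.I := by
      apply Complex.ext <;> simp
    conv_lhs => rw [hy]
    rw [map_add, map_smul, map_smul]
    unfold dotc
    rw [hw0]
    simp only [smul_eq_mul]
    ring
  have hlt : ∀ y ∈ Q, dotc w0 y < dotc w0 z := by
    intro y hy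
    rw [← hfz, ← hfz]
    exact (hf y hy).trans hu
  have hw0ne : w0 ≠ 0 := by
    intro h0
    obtain ⟨y, hy⟩ := hne
    have := hlt y hy
    rw [h0] at this
    unfold dotc at this
    simp at this
  have hpos : 0 < ‖w0‖ := norm_pos_iff.mpr hw0ne
  refine ⟨((‖w0‖⁻¹ : ℝ) : ℂ) * w0, (dotc_self_dir hw0ne).1, ?_⟩
  intro y hy
  have h1 : ∀ y : ℂ, dotc (((‖w0‖⁻¹ : ℝ) : ℂ) * w0) y = ‖w0‖⁻¹ * dotc w0 y := by
    intro y
    unfold dotc
    rw [Complex.re_ofReal_mul, Complex.im_ofReal_mul]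
    ring
  rw [h1, h1]
  exact mul_lt_mul_of_pos_left (hlt y hy) (inv_pos.mpr hpos)

/-- The radial function. -/
noncomputable def rad (Q : Set ℂ) (w : ℂ) : ℝ := (gauge Q w)⁻¹

/-- The assumptions on `Q`. -/
def NearDisc (Q : Set ℂ) (κ : ℝ) : Prop :=
  IsCompact Q ∧ Convex ℝ Q ∧ 0 ≤ κ ∧ κ ≤ 1 / 16 ∧
    (∀ w z : ℂ, ‖w‖ = 1 → z ∈ Q → dotc w z ≤ 1 + κ) ∧
    (∀ w : ℂ, ‖w‖ = 1 → ∃ z ∈ Q, 1 - κ ≤ dotc w z)

private theorem ball_sub {Q : Set ℂ} {κ : ℝ} (h : NearDisc Q κ) :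
    Metric.closedBall (0 : ℂ) (1 - κ) ⊆ Q := by
  obtain ⟨hQ, hQc, hk0, hk1, hu, hl⟩ := h
  intro z hz
  by_contra hzQ
  have hne : Q.Nonempty := by
    obtain ⟨y, hy, _⟩ := hl 1 (by simp)
    exact ⟨y, hy⟩
  obtain ⟨w, hw, hsep⟩ := exists_sep hQ hQc hne hzQ
  obtain ⟨y, hy, hyl⟩ := hl w hw
  have h1 := hsep y hy
  have h2 := dotc_le_norm (z := z) hw
  have h3 : ‖z‖ ≤ 1 - κ := by simpa using hz
  linarith

private theorem sub_ball {Q : Set ℂ} {κ : ℝ} (h : NearDisc Q κ) :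
    Q ⊆ Metric.closedBall (0 : ℂ) (1 + κ) := by
  obtain ⟨hQ, hQc, hk0, hk1, hu, hl⟩ := h
  intro z hz
  rw [mem_closedBall_zero_iff]
  by_cases hz0 : z = 0
  · rw [hz0, norm_zero]; linarith
  · have h1 := dotc_self_dir hz0
    have h2 := hu _ z h1.1 hz
    rw [h1.2] at h2
    exact h2

private theorem nhds_zero {Q : Set ℂ} {κ : ℝ} (h : NearDisc Q κ) : Q ∈ nhds (0 : ℂ) := by
  refine Filter.mem_of_superset (Metric.closedBall_mem_nhds (0 : ℂ) ?_) (ball_sub h)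
  have := h.2.2.2.1
  linarith

private theorem gauge_bounds {Q : Set ℂ} {κ : ℝ} (h : NearDisc Q κ) {w : ℂ} (hw : ‖w‖ = 1) :
    1 / (1 + κ) ≤ gauge Q w ∧ gauge Q w ≤ 1 / (1 - κ) := by
  have hk0 := h.2.2.1
  have hk1 := h.2.2.2.1
  have hab : Absorbent ℝ Q := absorbent_nhds_zero (nhds_zero h)
  have hab2 : Absorbent ℝ (Metric.closedBall (0 : ℂ) (1 - κ)) :=
    absorbent_nhds_zero (Metric.closedBall_mem_nhds (0 : ℂ) (by linarith))
  constructor
  · have h1 := gauge_mono hab (sub_ball h) w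
    rw [gauge_closedBall (by linarith), hw] at h1
    exact h1
  · have h1 := gauge_mono hab2 (ball_sub h) w
    rw [gauge_closedBall (by linarith), hw] at h1
    exact h1

private theorem gauge_pos' {Q : Set ℂ} {κ : ℝ} (h : NearDisc Q κ) {w : ℂ} (hw : ‖w‖ = 1) :
    0 < gauge Q w := by
  have hk0 := h.2.2.1
  have h1 := (gauge_bounds h hw).1
  have h2 : 0 < 1 / (1 + κ) := by positivity
  linarith

theorem rad_bounds {Q : Set ℂ} {κ : ℝ} (h : NearDisc Q κ) {w : ℂ} (hw : ‖w‖ = 1) :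
    1 - κ ≤ rad Q w ∧ rad Q w ≤ 1 + κ := by
  have hk0 := h.2.2.1
  have hk1 := h.2.2.2.1
  have hp := gauge_pos' h hw
  obtain ⟨h1, h2⟩ := gauge_bounds h hw
  unfold rad
  constructor
  · rw [le_inv_comm₀ (by linarith) hp]
    rwa [one_div] at h2
  · rw [inv_le_comm₀ hp (by linarith)]
    rwa [one_div] at h1

theorem mem_iff_le_rad {Q : Set ℂ} {κ : ℝ} (h : NearDisc Q κ) {w : ℂ} (hw : ‖w‖ = 1) {r : ℝ}
    (hr : 0 ≤ r) : (r : ℂ) * w ∈ Q ↔ r ≤ rad Q w := by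
  have hp := gauge_pos' h hw
  have h1 : gauge Q ((r : ℂ) * w) ≤ 1 ↔ (r : ℂ) * w ∈ closure Q :=
    gauge_le_one_iff_mem_closure h.2.1 (nhds_zero h)
  rw [h.1.isClosed.closure_eq] at h1
  rw [← h1]
  have h2 : (r : ℂ) * w = r • w := by rw [Complex.real_smul]
  rw [h2, gauge_smul_of_nonneg hr, smul_eq_mul]
  unfold rad
  constructor
  · intro h3
    rw [inv_eq_one_div, le_div_iff₀ hp]
    exact h3
  · intro h3
    rw [inv_eq_one_div, le_div_iff₀ hp] at h3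
    exact h3

theorem continuous_rad {Q : Set ℂ} {κ : ℝ} (h : NearDisc Q κ) :
    Continuous fun t : ℝ => rad Q (Complex.exp (t * Complex.I)) := by
  have h1 : Continuous (gauge Q) := continuous_gauge h.2.1 (nhds_zero h)
  unfold rad
  refine Continuous.inv₀ (h1.comp (by fun_prop)) ?_
  intro t
  exact (gauge_pos' h (Complex.norm_exp_ofReal_mul_I t)).ne'

theorem volume_rad {Q : Set ℂ} {κ : ℝ} (h : NearDisc Q κ) :
    (volume Q).toReal = ∫ t in (-π)..π, rad Q (Complex.exp (t * Complex.I)) ^ 2 / 2 := by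
  have hk0 := h.2.2.1
  have hk1 := h.2.2.2.1
  have hset : Q = {z : ℂ | ‖z‖ ≤ rad Q (Complex.exp (z.arg * Complex.I))} := by
    ext z
    rw [Set.mem_ofPred_eq, ← mem_iff_le_rad h (Complex.norm_exp_ofReal_mul_I _) (norm_nonneg z),
      Complex.norm_mul_exp_arg_mul_I]
  conv_lhs => rw [hset]
  refine volume_region_real (rad Q) (continuous_rad h).measurable (C := 1 + κ) ?_ ?_
  · intro w hw
    have := (rad_bounds h hw).1
    linarith
  · intro w hw
    exact (rad_bounds h hw).2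

/-- `dotc` of unit vectors. -/
theorem norm_sub_sq_of_unit {w a : ℂ} (hw : ‖w‖ = 1) (ha : ‖a‖ = 1) :
    ‖w - a‖ ^ 2 = 2 - 2 * dotc w a := by
  have h1 := norm_sq_eq w
  have h2 := norm_sq_eq a
  have h3 := norm_sq_eq (w - a)
  rw [hw] at h1
  rw [ha] at h2
  rw [h3, Complex.sub_re, Complex.sub_im]
  unfold dotc
  nlinarith

theorem dotc_le_one {w a : ℂ} (hw : ‖w‖ = 1) (ha : ‖a‖ = 1) : dotc w a ≤ 1 := by
  rw [← ha]
  exact dotc_le_norm hw

theorem dotc_mul_right (w a : ℂ) (r : ℝ) : dotc w ((r : ℂ) * a) = r * dotc w a := by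
  unfold dotc
  rw [Complex.re_ofReal_mul, Complex.im_ofReal_mul]
  ring

end Pool.Agent.Helper85.BD
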