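import Pool.Agent.Helper85.BD.Family
import Pool.Agent.Helper85.BD.AffC1
import Pool.Agent.Helper85.BD.PolyMain
import Pool.Agent.Helper85.BD.FamEx

/-!
# MP_8ad3e9_gt, project BD: the final statements
-/

set_option autoImplicit false

open MeasureTheory Set
open scoped MeasureTheory Real

namespace Pool.Agent.Helper85.BD

theorem comb_ev {m : ℕ} (q : Fin m → MvPolynomial (Fin 3) ℝ) (x : Fin m → ℝ) :
    comb (fun i => ev (q i)) x = ev (∑ i, MvPolynomial.C (x i) * q i) := by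
  funext v
  unfold comb ev
  rw [map_sum]
  refine Finset.sum_congr rfl fun i _ => ?_
  rw [map_mul, MvPolynomial.eval_C]

theorem poly (N : ℕ) : ∃ δ : ℝ, 0 < δ ∧ ∀ K : Set E3, Convex ℝ K → IsCompact K →
      (interior K).Nonempty → ConstDiff K → ∀ (c : ℝ) (a : E3), 0 < c →
      (∀ v : E3, ‖v‖ = 1 → |supp K v - (inner ℝ a v : ℝ) - c| ≤ δ * c) →
      ∀ (p : MvPolynomial (Fin 3) ℝ), p.totalDegree ≤ N → ∀ (C : ℝ), 0 ≤ C →
      (∀ v w : E3, ‖v‖ = 1 → ‖w‖ = 1 →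
        |(supp K v - ev p v) - (supp K w - ev p w)| ≤ δ * C * ‖v - w‖) →
      ∃ a' : E3, ∀ v w : E3, ‖v‖ = 1 → ‖w‖ = 1 →
        |(supp K v - (inner ℝ a' v : ℝ)) - (supp K w - (inner ℝ a' w : ℝ))| ≤ C * ‖v - w‖ := by
  obtain ⟨m, q, hq1, hq2⟩ := exists_family N
  obtain ⟨δ, hδ, H⟩ := family (fun i => ev (q i)) (fun i => contDiff_ev _) (by
    intro x hx
    rw [comb_ev] at hx
    obtain ⟨c, a, hca⟩ := affine_of_const _ _ le_rfl hx
    exact hq2 c a x fun v hv => by rw [comb_ev]; exact hca v hv)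
  refine ⟨δ, hδ, fun K hKc hK hint hd c a hc h p hp C hC hL => ?_⟩
  obtain ⟨c1, a1, x, hx⟩ := hq1 p hp
  refine H K hKc hK (hint.mono interior_subset) hd c a hc h a1 x C hC fun v w hv hw => ?_
  have h1 := hL v w hv hw
  rw [hx v hv, hx w hw] at h1
  convert h1 using 2
  ring

end Pool.Agent.Helper85.BD
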