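import Pool.Agent.Helper85.BD.Sect
import Pool.Agent.Helper85.BD.Vari
import Pool.Agent.Helper85.BD.PolyDer

/-!
# MP_8ad3e9_gt, project BD: uniform estimates for `C¹` functions near the unit sphere
-/

set_option autoImplicit false

open MeasureTheory Set Filter
open scoped MeasureTheory Real Topology

namespace Pool.Agent.Helper85.BD

private theorem norm_add_smul_sq {v e : E3} (he : ‖e‖ = 1) (hv : ‖v‖ = 1)
    (hev : (inner ℝ e v : ℝ) = 0) (l : ℝ) : ‖v + l • e‖ = Real.sqrt (1 + l ^ 2) := by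
  have h1 : ‖v + l • e‖ ^ 2 = 1 + l ^ 2 := by
    rw [norm_add_sq_real, inner_smul_right, real_inner_comm, hev, norm_smul, he, hv,
      Real.norm_eq_abs, mul_one, sq_abs]
    ring
  rw [← h1, Real.sqrt_sq (norm_nonneg _)]

theorem norm_tilt_sub_sub {v e : E3} (he : ‖e‖ = 1) (hv : ‖v‖ = 1) (hev : (inner ℝ e v : ℝ) = 0)
    (l : ℝ) : ‖tilt v e l - v - l • e‖ ≤ l ^ 2 / 2 := by
  have h0 : 0 < Real.sqrt (1 + l ^ 2) := Real.sqrt_pos.2 (by positivity)
  have h1 : 1 ≤ Real.sqrt (1 + l ^ 2) := Real.one_le_sqrt.2 (by nlinarith [sq_nonneg l])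
  have e1 : tilt v e l - v - l • e = ((Real.sqrt (1 + l ^ 2))⁻¹ - 1) • (v + l • e) := by
    unfold tilt
    rw [sub_smul, one_smul]
    abel
  rw [e1, norm_smul, norm_add_smul_sq he hv hev, Real.norm_eq_abs, abs_sub_comm,
    abs_of_nonneg (sub_nonneg.2 (inv_le_one_of_one_le₀ h1)), sub_mul, inv_mul_cancel₀ h0.ne', one_mul]
  have h2 : Real.sqrt (1 + l ^ 2) ≤ 1 + l ^ 2 / 2 := by
    rw [Real.sqrt_le_left (by positivity)]
    nlinarith [sq_nonneg (l ^ 2)]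
  linarith

theorem norm_tilt_sub {v e : E3} (he : ‖e‖ = 1) (hv : ‖v‖ = 1) (hev : (inner ℝ e v : ℝ) = 0)
    {l : ℝ} (hl : |l| ≤ 1) : ‖tilt v e l - v‖ ≤ 2 * |l| := by
  have h1 := norm_tilt_sub_sub he hv hev l
  have h2 : ‖l • e‖ = |l| := by rw [norm_smul, he, mul_one, Real.norm_eq_abs]
  have h3 : tilt v e l - v = (tilt v e l - v - l • e) + l • e := by abel
  have h4 : l ^ 2 ≤ |l| := by
    rw [← sq_abs]
    nlinarith [abs_nonneg l]
  rw [h3]
  refine (norm_add_le _ _).trans ?_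
  rw [h2]
  have := abs_nonneg l
  linarith

theorem exists_bound {f : E3 → ℝ} (hf : ContDiff ℝ 1 f) :
    ∃ B : ℝ, 1 ≤ B ∧ (∀ v : E3, ‖v‖ ≤ 2 → ‖fderiv ℝ f v‖ ≤ B) ∧ (∀ v : E3, ‖v‖ ≤ 2 → |f v| ≤ B) := by
  have hc : IsCompact (Metric.closedBall (0 : E3) 2) := isCompact_closedBall _ _
  have h1 : Continuous (fderiv ℝ f) := hf.continuous_fderiv (by norm_num)
  obtain ⟨C1, hC1⟩ := hc.exists_bound_of_continuousOn h1.continuousOn
  obtain ⟨C2, hC2⟩ := hc.exists_bound_of_continuousOn hf.continuous.continuousOn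
  refine ⟨max 1 (max C1 C2), le_max_left _ _, fun v hv => ?_, fun v hv => ?_⟩
  · exact (hC1 v (mem_closedBall_zero_iff.2 hv)).trans
      ((le_max_left _ _).trans (le_max_right _ _))
  · exact (hC2 v (mem_closedBall_zero_iff.2 hv)).trans
      ((le_max_right _ _).trans (le_max_right _ _))

theorem lip_of_bound {f : E3 → ℝ} (hf : ContDiff ℝ 1 f) {B : ℝ}
    (h : ∀ v : E3, ‖v‖ ≤ 2 → ‖fderiv ℝ f v‖ ≤ B) {v w : E3} (hv : ‖v‖ = 1) (hw : ‖w‖ = 1) :
    |f v - f w| ≤ B * ‖v - w‖ := by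
  have h1 := (convex_closedBall (0 : E3) 2).norm_image_sub_le_of_norm_fderiv_le (𝕜 := ℝ) (f := f)
    (C := B) (fun x _ => (hf.differentiable (by norm_num)).differentiableAt)
    (fun x hx => h x (mem_closedBall_zero_iff.1 hx)) (x := w) (y := v)
    (mem_closedBall_zero_iff.2 (by rw [hw]; norm_num))
    (mem_closedBall_zero_iff.2 (by rw [hv]; norm_num))
  rwa [Real.norm_eq_abs] at h1

theorem ev_modulus {f : E3 → ℝ} (hf : ContDiff ℝ 1 f) {η : ℝ} (hη : 0 < η) :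
    ∀ᶠ ρ in 𝓝[>] (0 : ℝ), ∀ v w : E3, ‖v‖ ≤ 2 → ‖w‖ ≤ 2 → ‖v - w‖ ≤ ρ →
      ‖fderiv ℝ f v - fderiv ℝ f w‖ ≤ η := by
  have hc : IsCompact (Metric.closedBall (0 : E3) 2) := isCompact_closedBall _ _
  have h1 : Continuous (fderiv ℝ f) := hf.continuous_fderiv (by norm_num)
  have h2 := hc.uniformContinuousOn_of_continuous h1.continuousOn
  rw [Metric.uniformContinuousOn_iff] at h2
  obtain ⟨δ, hδ, h3⟩ := h2 η hη
  have h4 : ∀ᶠ ρ in 𝓝[>] (0 : ℝ), ρ < δ :=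
    mem_nhdsWithin_of_mem_nhds (Iio_mem_nhds hδ)
  filter_upwards [h4] with ρ hρ v w hv hw hvw
  have h5 := h3 v (mem_closedBall_zero_iff.2 hv) w (mem_closedBall_zero_iff.2 hw)
    (by rw [dist_eq_norm]; linarith)
  rw [dist_eq_norm] at h5
  exact h5.le

theorem ev_taylor {f : E3 → ℝ} (hf : ContDiff ℝ 1 f) {η : ℝ} (hη : 0 < η) :
    ∀ᶠ ρ in 𝓝[>] (0 : ℝ), ∀ v e : E3, ‖v‖ = 1 → ‖e‖ = 1 → (inner ℝ e v : ℝ) = 0 → ∀ l : ℝ,
      |l| ≤ ρ → |f (tilt v e l) - f v - l * fderiv ℝ f v e| ≤ η * |l| := by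
  obtain ⟨B, hB1, hB, -⟩ := exists_bound hf
  have h1 := ev_modulus hf (η := η / 4) (by positivity)
  obtain ⟨δ, h2, hδ⟩ := (h1.and self_mem_nhdsWithin).exists
  have hδ' : (0 : ℝ) < δ := hδ
  have h4 : ∀ᶠ ρ in 𝓝[>] (0 : ℝ), ρ < min (δ / 2) (min (1 / 2) (η / B)) :=
    mem_nhdsWithin_of_mem_nhds (Iio_mem_nhds (by positivity))
  filter_upwards [h4] with ρ hρ v e hv he hev l hl
  have hl1 : |l| ≤ δ / 2 := hl.trans (hρ.le.trans (min_le_left _ _))
  have hl2 : |l| ≤ 1 / 2 := hl.trans (hρ.le.trans ((min_le_right _ _).trans (min_le_left _ _)))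
  have hl3 : |l| ≤ η / B := hl.trans (hρ.le.trans ((min_le_right _ _).trans (min_le_right _ _)))
  have h5 := norm_tilt_sub he hv hev (l := l) (by linarith)
  have h6 := norm_tilt_sub_sub he hv hev l
  set u := tilt v e l with hu
  -- mean value inequality on a small ball
  have h7 : ‖f u - f v - fderiv ℝ f v (u - v)‖ ≤ η / 4 * ‖u - v‖ := by
    refine (convex_closedBall v (2 * |l|)).norm_image_sub_le_of_norm_fderiv_le' (𝕜 := ℝ) (f := f)
      (C := η / 4) (φ := fderiv ℝ f v)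
      (fun x _ => (hf.differentiable (by norm_num)).differentiableAt) (fun x hx => ?_)
      (Metric.mem_closedBall_self (by positivity)) ?_
    · rw [Metric.mem_closedBall, dist_eq_norm] at hx
      refine h2 x v ?_ (by rw [hv]; norm_num) (by linarith)
      have : ‖x‖ ≤ ‖x - v‖ + ‖v‖ := by
        have := norm_add_le (x - v) v
        rwa [sub_add_cancel] at this
      rw [hv] at this
      linarith
    · rw [Metric.mem_closedBall, dist_eq_norm]
      exact h5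
  have h8 : ‖fderiv ℝ f v (u - v - l • e)‖ ≤ B * (l ^ 2 / 2) :=
    ((fderiv ℝ f v).le_opNorm _).trans
      (mul_le_mul (hB v (by rw [hv]; norm_num)) h6 (norm_nonneg _) (by linarith))
  have e1 : f u - f v - l * fderiv ℝ f v e =
      (f u - f v - fderiv ℝ f v (u - v)) + fderiv ℝ f v (u - v - l • e) := by
    rw [map_sub (fderiv ℝ f v) (u - v), map_smul, smul_eq_mul]
    ring
  rw [e1]
  refine (abs_add_le _ _).trans ?_
  rw [← Real.norm_eq_abs, ← Real.norm_eq_abs]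
  have h9 : B * (l ^ 2 / 2) ≤ η / 2 * |l| := by
    have e2 : l ^ 2 = |l| * |l| := by rw [← sq, sq_abs]
    rw [e2]
    have h10 : B * |l| ≤ η := by
      have := mul_le_mul_of_nonneg_left hl3 (by linarith : (0:ℝ) ≤ B)
      rwa [mul_div_cancel₀ _ (by linarith : B ≠ 0)] at this
    nlinarith [abs_nonneg l]
  have h11 : η / 4 * ‖u - v‖ ≤ η / 2 * |l| := by nlinarith
  linarith

/-! ### finite families -/

variable {m : ℕ}

theorem contDiff_comb {q : Fin m → E3 → ℝ} (hq : ∀ i, ContDiff ℝ 1 (q i)) (x : Fin m → ℝ) :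
    ContDiff ℝ 1 (comb q x) := by
  unfold comb
  exact ContDiff.sum fun i _ => contDiff_const.mul (hq i)

theorem fderiv_comb {q : Fin m → E3 → ℝ} (hq : ∀ i, ContDiff ℝ 1 (q i)) (x : Fin m → ℝ) (v : E3) :
    fderiv ℝ (comb q x) v = ∑ i, x i • fderiv ℝ (q i) v := by
  have h1 : HasFDerivAt (comb q x) (∑ i, x i • fderiv ℝ (q i) v) v := by
    unfold comb
    apply HasFDerivAt.fun_sum
    intro i _
    have h2 := ((hq i).differentiable (by norm_num)).differentiableAt.hasFDerivAt (x := v)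
    exact h2.const_mul (x i)
  exact h1.fderiv

/-- Uniform bounds for all combinations. -/
theorem exists_bound_comb {q : Fin m → E3 → ℝ} (hq : ∀ i, ContDiff ℝ 1 (q i)) :
    ∃ B : ℝ, 1 ≤ B ∧ ∀ (x : Fin m → ℝ) (M : ℝ), 0 ≤ M → (∀ i, |x i| ≤ M) → ∀ v : E3, ‖v‖ ≤ 2 →
      ‖fderiv ℝ (comb q x) v‖ ≤ B * M ∧ |comb q x v| ≤ B * M := by
  choose B hB1 hB2 hB3 using fun i => exists_bound (hq i)
  have hS : 0 ≤ ∑ i, B i := Finset.sum_nonneg fun i _ => by linarith [hB1 i]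
  refine ⟨1 + ∑ i, B i, by linarith, ?_⟩
  intro x M hM hx v hv
  have hle : (∑ i, B i) * M ≤ (1 + ∑ i, B i) * M := by nlinarith
  constructor
  · rw [fderiv_comb hq]
    refine (norm_sum_le _ _).trans (le_trans ?_ hle)
    rw [Finset.sum_mul]
    refine Finset.sum_le_sum fun i _ => ?_
    rw [norm_smul, Real.norm_eq_abs, mul_comm]
    exact mul_le_mul (hB2 i v hv) (hx i) (abs_nonneg _) (by linarith [hB1 i])
  · unfold comb
    refine (Finset.abs_sum_le_sum_abs _ _).trans (le_trans ?_ hle)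
    rw [Finset.sum_mul]
    refine Finset.sum_le_sum fun i _ => ?_
    rw [abs_mul, mul_comm]
    exact mul_le_mul (hB3 i v hv) (hx i) (abs_nonneg _) (by linarith [hB1 i])

theorem ev_modulus_comb {q : Fin m → E3 → ℝ} (hq : ∀ i, ContDiff ℝ 1 (q i)) {η : ℝ} (hη : 0 < η) :
    ∀ᶠ ρ in 𝓝[>] (0 : ℝ), ∀ x : Fin m → ℝ, (∀ i, |x i| ≤ 1) → ∀ v w : E3, ‖v‖ ≤ 2 → ‖w‖ ≤ 2 →
      ‖v - w‖ ≤ ρ → ‖fderiv ℝ (comb q x) v - fderiv ℝ (comb q x) w‖ ≤ η := by
  have h1 : ∀ᶠ ρ in 𝓝[>] (0 : ℝ), ∀ i : Fin m, ∀ v w : E3, ‖v‖ ≤ 2 → ‖w‖ ≤ 2 → ‖v - w‖ ≤ ρ →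
      ‖fderiv ℝ (q i) v - fderiv ℝ (q i) w‖ ≤ η / (m + 1) :=
    eventually_all.2 fun i => ev_modulus (hq i) (by positivity)
  filter_upwards [h1] with ρ hρ x hx v w hv hw hvw
  rw [fderiv_comb hq, fderiv_comb hq, ← Finset.sum_sub_distrib]
  refine (norm_sum_le _ _).trans ?_
  have h2 : ∀ i ∈ Finset.univ, ‖x i • fderiv ℝ (q i) v - x i • fderiv ℝ (q i) w‖ ≤ η / (m + 1) := by
    intro i _
    rw [← smul_sub, norm_smul, Real.norm_eq_abs]
    have h3 := hρ i v w hv hw hvw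
    calc |x i| * ‖fderiv ℝ (q i) v - fderiv ℝ (q i) w‖ ≤ 1 * (η / (m + 1)) :=
          mul_le_mul (hx i) h3 (norm_nonneg _) zero_le_one
      _ = η / (m + 1) := one_mul _
  refine (Finset.sum_le_sum h2).trans ?_
  rw [Finset.sum_const, Finset.card_univ, Fintype.card_fin, nsmul_eq_mul, mul_div_assoc',
    div_le_iff₀ (by positivity)]
  nlinarith

theorem ev_taylor_comb {q : Fin m → E3 → ℝ} (hq : ∀ i, ContDiff ℝ 1 (q i)) {η : ℝ} (hη : 0 < η) :
    ∀ᶠ ρ in 𝓝[>] (0 : ℝ), ∀ x : Fin m → ℝ, (∀ i, |x i| ≤ 1) → ∀ v e : E3, ‖v‖ = 1 → ‖e‖ = 1 →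
      (inner ℝ e v : ℝ) = 0 → ∀ l : ℝ, |l| ≤ ρ →
      |comb q x (tilt v e l) - comb q x v - l * fderiv ℝ (comb q x) v e| ≤ η * |l| := by
  have h1 : ∀ᶠ ρ in 𝓝[>] (0 : ℝ), ∀ i : Fin m, ∀ v e : E3, ‖v‖ = 1 → ‖e‖ = 1 →
      (inner ℝ e v : ℝ) = 0 → ∀ l : ℝ, |l| ≤ ρ →
      |q i (tilt v e l) - q i v - l * fderiv ℝ (q i) v e| ≤ η / (m + 1) * |l| :=
    eventually_all.2 fun i => ev_taylor (hq i) (by positivity)
  filter_upwards [h1] with ρ hρ x hx v e hv he hev l hl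
  have e1 : comb q x (tilt v e l) - comb q x v - l * fderiv ℝ (comb q x) v e =
      ∑ i, x i * (q i (tilt v e l) - q i v - l * fderiv ℝ (q i) v e) := by
    rw [fderiv_comb hq]
    unfold comb
    rw [ContinuousLinearMap.sum_apply, Finset.mul_sum, ← Finset.sum_sub_distrib,
      ← Finset.sum_sub_distrib]
    refine Finset.sum_congr rfl fun i _ => ?_
    rw [ContinuousLinearMap.smul_apply, smul_eq_mul]
    ring
  rw [e1]
  refine (Finset.abs_sum_le_sum_abs _ _).trans ?_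
  have h2 : ∀ i ∈ Finset.univ, |x i * (q i (tilt v e l) - q i v - l * fderiv ℝ (q i) v e)| ≤
      η / (m + 1) * |l| := by
    intro i _
    rw [abs_mul]
    have h3 := hρ i v e hv he hev l hl
    calc |x i| * |q i (tilt v e l) - q i v - l * fderiv ℝ (q i) v e| ≤
          1 * (η / (m + 1) * |l|) := mul_le_mul (hx i) h3 (abs_nonneg _) zero_le_one
      _ = η / (m + 1) * |l| := one_mul _
  refine (Finset.sum_le_sum h2).trans ?_
  rw [Finset.sum_const, Finset.card_univ, Fintype.card_fin, nsmul_eq_mul, ← mul_assoc]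
  refine mul_le_mul_of_nonneg_right ?_ (abs_nonneg l)
  rw [mul_div_assoc', div_le_iff₀ (by positivity)]
  nlinarith

end Pool.Agent.Helper85.BD
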